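import Pool.Agent.Helper74.Apol.Gen

set_option autoImplicit false

/-!
# Directional derivatives and the apolarity functional
-/

open MvPolynomial

namespace Pool.Agent.Helper73.Six

open Pool.Agent.Helper74.Apol

section gen
variable {N : ℕ}

/-- The linear form with coefficient vector `x`. -/
noncomputable def lin (x : Fin N → ℂ) : MvPolynomial (Fin N) ℂ := ∑ i, C (x i) * X i

/-- The derivative in the direction `x`. -/
noncomputable def dl (x : Fin N → ℂ) :
    Derivation ℂ (MvPolynomial (Fin N) ℂ) (MvPolynomial (Fin N) ℂ) :=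
  ∑ i, x i • pderiv i

lemma dl_apply (x : Fin N → ℂ) (p : MvPolynomial (Fin N) ℂ) :
    dl x p = ∑ i, C (x i) * pderiv i p := by
  have h : ((∑ i, x i • pderiv i : Derivation ℂ (MvPolynomial (Fin N) ℂ)
      (MvPolynomial (Fin N) ℂ)) : MvPolynomial (Fin N) ℂ → MvPolynomial (Fin N) ℂ) =
      ∑ i, ((x i • pderiv i : Derivation ℂ (MvPolynomial (Fin N) ℂ)
      (MvPolynomial (Fin N) ℂ)) : MvPolynomial (Fin N) ℂ → MvPolynomial (Fin N) ℂ) :=
    map_sum Derivation.coeFnAddMonoidHom _ _
  unfold dl
  rw [h, Finset.sum_apply]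
  refine Finset.sum_congr rfl fun i _ => ?_
  rw [Derivation.smul_apply, smul_eq_C_mul]

lemma dl_X (x : Fin N → ℂ) (s : Fin N) : dl x (X s) = C (x s) := by
  rw [dl_apply, Finset.sum_eq_single s]
  · rw [pderiv_X_self, mul_one]
  · intro b _ hb
    rw [pderiv_X_of_ne (Ne.symm hb), mul_zero]
  · intro h
    exact absurd (Finset.mem_univ _) h

lemma dl_C (x : Fin N → ℂ) (c : ℂ) : dl x (C c) = 0 := by
  exact (dl x).map_algebraMap c

lemma dl_lin (x y : Fin N → ℂ) : dl x (lin y) = C (∑ i, y i * x i) := by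
  unfold lin
  rw [map_sum, map_sum]
  refine Finset.sum_congr rfl fun i _ => ?_
  rw [Derivation.leibniz, dl_C, dl_X, smul_eq_mul, smul_eq_mul, mul_zero, add_zero, C_mul]

lemma dl_comm (x y : Fin N → ℂ) (p : MvPolynomial (Fin N) ℂ) :
    dl x (dl y p) = dl y (dl x p) := by
  have h : ⁅dl x, dl y⁆ = (0 : Derivation ℂ (MvPolynomial (Fin N) ℂ) (MvPolynomial (Fin N) ℂ)) := by
    refine MvPolynomial.derivation_ext fun i => ?_
    rw [Derivation.commutator_apply, dl_X, dl_X, dl_C, dl_C, sub_zero, Derivation.zero_apply]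
  have h2 := congrArg (fun D : Derivation ℂ (MvPolynomial (Fin N) ℂ) (MvPolynomial (Fin N) ℂ) =>
    D p) h
  simp only [Derivation.commutator_apply, Derivation.zero_apply] at h2
  exact sub_eq_zero.mp h2

lemma dl_homog (x : Fin N → ℂ) {p : MvPolynomial (Fin N) ℂ} {n : ℕ} (hp : p.IsHomogeneous n) :
    (dl x p).IsHomogeneous (n - 1) := by
  rw [dl_apply]
  refine IsHomogeneous.sum _ _ _ fun i _ => ?_
  have := (isHomogeneous_C (Fin N) (x i)).mul (IsHomogeneous.pderiv (i := i) hp)
  simpa using this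

lemma dl_mul (x : Fin N → ℂ) (p q : MvPolynomial (Fin N) ℂ) :
    dl x (p * q) = dl x p * q + p * dl x q := by
  rw [Derivation.leibniz, smul_eq_mul, smul_eq_mul]
  ring

lemma dl_pow (x : Fin N → ℂ) (p : MvPolynomial (Fin N) ℂ) (n : ℕ) :
    dl x (p ^ n) = C (n : ℂ) * p ^ (n - 1) * dl x p := by
  rw [Derivation.leibniz_pow, nsmul_eq_mul, smul_eq_mul]
  simp only [map_natCast]
  ring

lemma lin_homog (x : Fin N → ℂ) : (lin x).IsHomogeneous 1 := by
  refine IsHomogeneous.sum _ _ _ fun i _ => ?_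
  have := (isHomogeneous_C (Fin N) (x i)).mul (isHomogeneous_X ℂ i)
  simpa using this

lemma dl_add (x y : Fin N → ℂ) (p : MvPolynomial (Fin N) ℂ) :
    dl (x + y) p = dl x p + dl y p := by
  rw [dl_apply, dl_apply, dl_apply, ← Finset.sum_add_distrib]
  refine Finset.sum_congr rfl fun i _ => ?_
  rw [Pi.add_apply, C_add, add_mul]

lemma dl_smul (c : ℂ) (y : Fin N → ℂ) (p : MvPolynomial (Fin N) ℂ) :
    dl (c • y) p = C c * dl y p := by
  rw [dl_apply, dl_apply, Finset.mul_sum]
  refine Finset.sum_congr rfl fun i _ => ?_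
  rw [Pi.smul_apply, smul_eq_mul, C_mul, mul_assoc]

/-- The factorial weights. -/
lemma fc_sub (a : Fin N →₀ ℕ) (i : Fin N) (hi : a i ≠ 0) :
    fc a = (a i : ℂ) * fc (a - Finsupp.single i 1) := by
  unfold fc
  set b : Fin N →₀ ℕ := a - Finsupp.single i 1 with hb
  have hbi : b i = a i - 1 := by simp [hb]
  have hbj : ∀ j, j ≠ i → b j = a j := by
    intro j hj
    simp [hb, Finsupp.single_apply, Ne.symm hj]
  have e1 := Finset.mul_prod_erase Finset.univ (fun j => ((a j).factorial : ℂ)) (Finset.mem_univ i)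
  have e2 := Finset.mul_prod_erase Finset.univ (fun j => ((b j).factorial : ℂ)) (Finset.mem_univ i)
  rw [← e1, ← e2, ← mul_assoc]
  congr 1
  · rw [hbi]
    obtain ⟨m, hm⟩ := Nat.exists_eq_succ_of_ne_zero hi
    rw [hm, Nat.succ_sub_one, Nat.factorial_succ]
    push_cast
    ring
  · refine Finset.prod_congr rfl fun j hj => ?_
    rw [hbj j (Finset.mem_erase.mp hj).1]

/-- Multiplication by a linear form is adjoint to the derivative. -/
lemma Lam_lin (x : Fin N → ℂ) (G p : MvPolynomial (Fin N) ℂ) :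
    Lam (lin x * G) p = Lam G (dl x p) := by
  induction p using MvPolynomial.induction_on' with
  | add p q hp hq => rw [map_add, map_add, map_add, hp, hq]
  | monomial a c =>
    rw [Lam_monomial, dl_apply, map_sum]
    have h1 : hh (lin x * G) a = ∑ i, x i * (coeff a (X i * G) * fc a) := by
      unfold hh lin
      rw [Finset.sum_mul, coeff_sum, Finset.sum_mul]
      refine Finset.sum_congr rfl fun i _ => ?_
      rw [mul_assoc, coeff_C_mul, mul_assoc]
    rw [h1, Finset.mul_sum]
    refine Finset.sum_congr rfl fun i _ => ?_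
    rw [pderiv_monomial, C_mul_monomial, Lam_monomial, coeff_X_mul']
    by_cases hi : a i = 0
    · have h2 : i ∉ a.support := by simpa using hi
      rw [if_neg h2, hi]
      simp
    · have h2 : i ∈ a.support := by simpa using hi
      rw [if_pos h2, fc_sub a i hi]
      unfold hh
      ring

lemma Lam_degree {G p : MvPolynomial (Fin N) ℂ} {m n : ℕ} (hG : G.IsHomogeneous m)
    (hp : p.IsHomogeneous n) (hmn : n ≠ m) : Lam G p = 0 := by
  rw [p.as_sum, map_sum]
  refine Finset.sum_eq_zero fun a ha => ?_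
  rw [Lam_monomial, hh_zero hG, mul_zero]
  have h1 : a.degree = n := by
    have := hp (mem_support_iff.mp ha)
    rw [Finsupp.degree_eq_weight_one]
    exact this
  omega

lemma mem_ann_of_homog {F p : MvPolynomial (Fin N) ℂ} {d n : ℕ} (hF : F.IsHomogeneous d)
    (hp : p.IsHomogeneous n) (hn : n ≤ d)
    (h : ∀ q : MvPolynomial (Fin N) ℂ, q.IsHomogeneous (d - n) → Lam F (p * q) = 0) :
    p ∈ annI F := by
  rw [mem_annI]
  intro q
  rw [← sum_homogeneousComponent q, Finset.mul_sum, map_sum]
  refine Finset.sum_eq_zero fun j _ => ?_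
  have hj := homogeneousComponent_isHomogeneous j q
  by_cases hjd : j = d - n
  · rw [hjd]
    exact h _ (homogeneousComponent_isHomogeneous _ q)
  · exact Lam_degree hF (hp.mul hj) (by omega)

/-- Product of linear forms over a finset. -/
noncomputable def pr {ι : Type*} (L : ι → Fin N → ℂ) (s : Finset ι) : MvPolynomial (Fin N) ℂ :=
  ∏ k ∈ s, lin (L k)

lemma pr_homog {ι : Type*} (L : ι → Fin N → ℂ) (s : Finset ι) :
    (pr L s).IsHomogeneous s.card := by
  have h := IsHomogeneous.prod s (fun k => lin (L k)) (fun _ => 1) (fun k _ => lin_homog _)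
  unfold pr
  simpa using h

lemma arr_eq {d : ℕ} (L : Fin d → Fin N → ℂ) : arr L = pr L Finset.univ := rfl

lemma pr_erase {ι : Type*} [DecidableEq ι] (L : ι → Fin N → ℂ) (s : Finset ι) {i : ι}
    (hi : i ∈ s) : pr L s = lin (L i) * pr L (s.erase i) := by
  unfold pr
  rw [Finset.mul_prod_erase s (fun k => lin (L k)) hi]

/-- The value of a product of linear forms at a point. -/
lemma Lam_pow {ι : Type*} [DecidableEq ι] (L : ι → Fin N → ℂ) (p : Fin N → ℂ) (s : Finset ι) :
    Lam (pr L s) (lin p ^ s.card) = (s.card.factorial : ℂ) * ∏ k ∈ s, ∑ i, p i * L k i := by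
  induction s using Finset.induction_on with
  | empty =>
    simp only [pr, Finset.prod_empty, Finset.card_empty, pow_zero, Nat.factorial_zero]
    have h1 : (1 : MvPolynomial (Fin N) ℂ) = monomial 0 1 := rfl
    rw [h1, Lam_monomial]
    unfold hh fc
    simp
  | insert k s hk ih =>
    have h1 : pr L (insert k s) = lin (L k) * pr L s := by
      unfold pr
      rw [Finset.prod_insert hk]
    rw [h1, Lam_lin, dl_pow, Finset.card_insert_of_notMem hk, Nat.add_sub_cancel, dl_lin,
      Finset.prod_insert hk]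
    have h2 : C ((s.card + 1 : ℕ) : ℂ) * lin p ^ s.card * C (∑ i, p i * L k i) =
        (((s.card + 1 : ℕ) : ℂ) * ∑ i, p i * L k i) • lin p ^ s.card := by
      rw [smul_eq_C_mul, C_mul]
      ring
    rw [h2, map_smul, ih, smul_eq_mul, Nat.factorial_succ]
    push_cast
    ring

end gen

end Pool.Agent.Helper73.Six
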