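import Pool.Agent.Helper73.Six.Cones

set_option autoImplicit false

/-!
# Three generators: consequences for their degrees
-/

open MvPolynomial

namespace Pool.Agent.Helper73.Six

open Pool.Agent.Helper74.Apol

/-- Homogeneous generators, padded by zero to three, with degrees (zero gets the degree `z`). -/
lemma three_gens (I : Ideal (MvPolynomial (Fin 3) ℂ))
    (hI : ∀ p ∈ I, ∀ j, homogeneousComponent j p ∈ I) (g : Fin 3 → MvPolynomial (Fin 3) ℂ)
    (hg : I = Ideal.span (Set.range g)) :
    ∃ G : Fin 3 → MvPolynomial (Fin 3) ℂ, (∀ i, ∃ e, (G i).IsHomogeneous e) ∧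
      Ideal.span (Set.range G) = I := by
  classical
  obtain ⟨S, hS1, hS2, hSc⟩ := exists_homog I hI g hg
  set G : Fin 3 → MvPolynomial (Fin 3) ℂ := fun i =>
    if h : (i : ℕ) < S.card then (S.equivFin.symm ⟨i, h⟩ : S).1 else 0 with hGdef
  refine ⟨G, ?_, ?_⟩
  · intro i
    by_cases hi : (i : ℕ) < S.card
    · have hmem : G i ∈ S := by
        simp only [hGdef, dif_pos hi]
        exact (S.equivFin.symm ⟨i, hi⟩ : S).2
      exact hS1 _ hmem
    · refine ⟨0, ?_⟩
      have : G i = 0 := by simp only [hGdef, dif_neg hi]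
      rw [this]
      exact isHomogeneous_zero _ _ _
  · rw [← hS2]
    apply le_antisymm
    · rw [Ideal.span_le]
      rintro _ ⟨i, rfl⟩
      by_cases hi : (i : ℕ) < S.card
      · apply Ideal.subset_span
        simp only [hGdef, dif_pos hi]
        exact (S.equivFin.symm ⟨i, hi⟩ : S).2
      · simp only [hGdef, dif_neg hi]
        exact Ideal.zero_mem _
    · apply Ideal.span_mono
      intro x hx
      have hx' : x ∈ S := hx
      refine ⟨⟨(S.equivFin ⟨x, hx'⟩ : ℕ), lt_of_lt_of_le (S.equivFin ⟨x, hx'⟩).2 hSc⟩, ?_⟩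
      simp only [hGdef]
      rw [dif_pos (S.equivFin ⟨x, hx'⟩).2]
      simp

/-- The degrees of three homogeneous generators sum to at most `d + 3`. -/
lemma degree_bound (I : Ideal (MvPolynomial (Fin 3) ℂ)) (d : ℕ)
    (hhigh : ∀ p : MvPolynomial (Fin 3) ℂ, ∀ j, d < j → p.IsHomogeneous j → p ∈ I)
    (G : Fin 3 → MvPolynomial (Fin 3) ℂ) (hG : Ideal.span (Set.range G) = I) (e : Fin 3 → ℕ)
    (he : ∀ i, 1 ≤ e i) (hGe : ∀ i, (G i).IsHomogeneous (e i)) : e 0 + e 1 + e 2 ≤ d + 3 := by
  by_contra hcon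
  push Not at hcon
  refine koszul G e he hGe ?_
  intro p hp
  rw [hG]
  refine hhigh p _ ?_ hp
  rw [Fin.sum_univ_three]
  have h0 := he 0
  have h1 := he 1
  have h2 := he 2
  omega

/-- Homogeneous elements of an ideal generated by forms. -/
lemma comp_eq {G : Fin 3 → MvPolynomial (Fin 3) ℂ} {e : Fin 3 → ℕ}
    (hGe : ∀ i, (G i).IsHomogeneous (e i)) {p : MvPolynomial (Fin 3) ℂ} {n : ℕ}
    (hp : p ∈ Ideal.span (Set.range G)) (hpn : p.IsHomogeneous n) :
    ∃ c : Fin 3 → MvPolynomial (Fin 3) ℂ, (∀ i, (c i).IsHomogeneous (n - e i)) ∧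
      (∀ i, n < e i → c i = 0) ∧ p = ∑ i, c i * G i := by
  rw [Ideal.mem_span_range_iff_exists_fun] at hp
  obtain ⟨a, ha⟩ := hp
  refine ⟨fun i => if e i ≤ n then homogeneousComponent (n - e i) (a i) else 0, ?_, ?_, ?_⟩
  · intro i
    dsimp only
    split_ifs
    · exact homogeneousComponent_isHomogeneous _ _
    · exact isHomogeneous_zero _ _ _
  · intro i hi
    dsimp only
    rw [if_neg (by omega)]
  · have h1 := congrArg (homogeneousComponent n) ha
    rw [homogeneousComponent_of_mem hpn, if_pos rfl, map_sum] at h1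
    rw [← h1]
    refine Finset.sum_congr rfl fun i _ => ?_
    rw [comp_mul (hGe i)]
    dsimp only
    split_ifs
    · rfl
    · rw [zero_mul]

/-- Six lines: three independent cubic generators. -/
lemma three_cubics (I : Ideal (MvPolynomial (Fin 3) ℂ))
    (hI : ∀ p ∈ I, ∀ j, homogeneousComponent j p ∈ I)
    (hlow : ∀ p ∈ I, ∀ j ≤ 2, p.IsHomogeneous j → p = 0)
    (hhigh : ∀ p : MvPolynomial (Fin 3) ℂ, ∀ j, 6 < j → p.IsHomogeneous j → p ∈ I)
    (g : Fin 3 → MvPolynomial (Fin 3) ℂ) (hg : I = Ideal.span (Set.range g)) :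
    ∃ G : Fin 3 → MvPolynomial (Fin 3) ℂ, (∀ i, (G i).IsHomogeneous 3) ∧
      Ideal.span (Set.range G) = I ∧ LinearIndependent ℂ G := by
  classical
  obtain ⟨G, hGh, hGI⟩ := three_gens I hI g hg
  have hdeg : ∀ G' : Fin 3 → MvPolynomial (Fin 3) ℂ, (∀ i, ∃ e, (G' i).IsHomogeneous e) →
      Ideal.span (Set.range G') = I → ∀ i, G' i ≠ 0 ∧ (G' i).IsHomogeneous 3 := by
    intro G' hG' hGI'
    have hex : ∀ i, ∃ e, 3 ≤ e ∧ (G' i).IsHomogeneous e ∧ (G' i = 0 → e = 9) := by
      intro i
      by_cases h0 : G' i = 0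
      · exact ⟨9, by norm_num, by rw [h0]; exact isHomogeneous_zero _ _ _, fun _ => rfl⟩
      · obtain ⟨e, he⟩ := hG' i
        refine ⟨e, ?_, he, fun h => absurd h h0⟩
        by_contra hc
        apply h0
        refine hlow _ ?_ e (by omega) he
        rw [← hGI']
        exact Ideal.subset_span ⟨i, rfl⟩
    choose e he3 heh he0 using hex
    have hb := degree_bound I 6 hhigh G' hGI' e (fun i => by have := he3 i; omega) heh
    have h0 := he3 0
    have h1 := he3 1
    have h2 := he3 2
    have hall : ∀ i, e i = 3 := by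
      intro i
      fin_cases i
      · change e 0 = 3
        omega
      · change e 1 = 3
        omega
      · change e 2 = 3
        omega
    intro i
    refine ⟨fun h => ?_, by have h7 := heh i; rw [hall i] at h7; exact h7⟩
    have := he0 i h
    rw [hall i] at this
    omega
  have h3 := hdeg G hGh hGI
  refine ⟨G, fun i => (h3 i).2, hGI, ?_⟩
  by_contra hli
  rw [Fintype.not_linearIndependent_iff] at hli
  obtain ⟨c, hc, i, hi⟩ := hli
  have hcomb : G i = ∑ j ∈ Finset.univ.erase i, C (-(c i)⁻¹ * c j) * G j := by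
    rw [← Finset.add_sum_erase Finset.univ _ (Finset.mem_univ i)] at hc
    have h4 : c i • G i = - ∑ j ∈ Finset.univ.erase i, c j • G j := eq_neg_of_add_eq_zero_left hc
    have h5 : G i = (c i)⁻¹ • (c i • G i) := by rw [smul_smul, inv_mul_cancel₀ hi, one_smul]
    rw [h5, h4, smul_neg, Finset.smul_sum, ← Finset.sum_neg_distrib]
    refine Finset.sum_congr rfl fun j _ => ?_
    rw [smul_smul, ← neg_smul, smul_eq_C_mul, neg_mul]
  set G' : Fin 3 → MvPolynomial (Fin 3) ℂ := Function.update G i 0 with hG'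
  have hG'h : ∀ j, ∃ e, (G' j).IsHomogeneous e := by
    intro j
    by_cases hji : j = i
    · refine ⟨0, ?_⟩
      rw [hG', hji, Function.update_self]
      exact isHomogeneous_zero _ _ _
    · rw [hG', Function.update_of_ne hji]
      exact hGh j
  have hG'I : Ideal.span (Set.range G') = I := by
    rw [← hGI]
    apply le_antisymm
    · rw [Ideal.span_le]
      rintro _ ⟨j, rfl⟩
      by_cases hji : j = i
      · rw [hG', hji, Function.update_self]
        exact Ideal.zero_mem _
      · rw [hG', Function.update_of_ne hji]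
        exact Ideal.subset_span ⟨j, rfl⟩
    · rw [Ideal.span_le]
      rintro _ ⟨j, rfl⟩
      have hother : ∀ j, j ≠ i → G j ∈ Ideal.span (Set.range G') := by
        intro j hji
        have : G j = G' j := by rw [hG', Function.update_of_ne hji]
        rw [this]
        exact Ideal.subset_span ⟨j, rfl⟩
      by_cases hji : j = i
      · rw [hji, SetLike.mem_coe, hcomb]
        refine Ideal.sum_mem _ fun k hk => Ideal.mul_mem_left _ _ (hother k ?_)
        exact (Finset.mem_erase.mp hk).1
      · exact hother j hji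
  have h6 := (hdeg G' hG'h hG'I i).1
  apply h6
  rw [hG', Function.update_self]

end Pool.Agent.Helper73.Six
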