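import Pool.Agent.Helper73.Six.Euler

set_option autoImplicit false

/-!
# Apolar forms of low degree and cones
-/

open MvPolynomial

namespace Pool.Agent.Helper73.Six

open Pool.Agent.Helper74.Apol

variable {d : ℕ} {L : Fin d → Fin 3 → ℂ}

lemma exists_p (hL : Pos L) {i j k : Fin d} (hij : i ≠ j) (hik : i ≠ k) (hjk : j ≠ k) :
    ∃ a b p : Fin 3 → ℂ,
      (dl (L i) (lin a) = 1 ∧ dl (L j) (lin a) = 0) ∧
      (dl (L i) (lin b) = 0 ∧ dl (L j) (lin b) = 1) ∧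
      (dl (L i) (lin p) = 0 ∧ dl (L j) (lin p) = 0) ∧
      (∀ l, l ≠ i → l ≠ j → ∑ m, p m * L l m ≠ 0) ∧
      ∀ (g : MvPolynomial (Fin 3) ℂ) (n : ℕ), g.IsHomogeneous n →
        C (n : ℂ) * g = lin a * dl (L i) g + lin b * dl (L j) g + lin p * dl (L k) g := by
  obtain ⟨a, b, p, ⟨ha1, ha2, ha3⟩, ⟨hb1, hb2, hb3⟩, ⟨hp1, hp2, hp3⟩, hX⟩ :=
    dual_basis (hL.ind hij hik hjk)
  refine ⟨a, b, p, ⟨ha1, ha2⟩, ⟨hb1, hb2⟩, ⟨hp1, hp2⟩, ?_, fun g n hg => euler_basis hX hg⟩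
  intro l hli hlj h0
  have h1 : dl (L l) (lin p) = 0 := by rw [dl_lin, h0, C_0]
  have h2 : lin p = 0 := kill3 (hL.ind hij (Ne.symm hli) (Ne.symm hlj)) (lin_homog p) one_ne_zero
    hp1 hp2 h1
  rw [h2, map_zero] at hp3
  exact zero_ne_one hp3

lemma Lam_one (i : Fin d) (q : MvPolynomial (Fin 3) ℂ) :
    Lam (arr L) q = Lam (pr L (Finset.univ.erase i)) (dl (L i) q) := by
  rw [arr_eq, pr_erase L Finset.univ (Finset.mem_univ i), Lam_lin]

lemma Lam_two {i j : Fin d} (hij : i ≠ j) (q : MvPolynomial (Fin 3) ℂ) :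
    Lam (arr L) q = Lam (pr L ((Finset.univ.erase i).erase j)) (dl (L j) (dl (L i) q)) := by
  rw [Lam_one i, pr_erase L (Finset.univ.erase i)
    (Finset.mem_erase.mpr ⟨Ne.symm hij, Finset.mem_univ j⟩), Lam_lin]

lemma card_two {i j : Fin d} (hij : i ≠ j) :
    ((Finset.univ.erase i).erase j : Finset (Fin d)).card = d - 2 := by
  rw [Finset.card_erase_of_mem (Finset.mem_erase.mpr ⟨Ne.symm hij, Finset.mem_univ j⟩),
    Finset.card_erase_of_mem (Finset.mem_univ i), Finset.card_univ, Fintype.card_fin]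
  omega

lemma dl_pow_mul {x p : Fin 3 → ℂ} (h : dl x (lin p) = 0) (n : ℕ) (q : MvPolynomial (Fin 3) ℂ) :
    dl x (lin p ^ n * q) = lin p ^ n * dl x q := by
  rw [dl_mul, dl_pow, h, mul_zero, zero_mul, zero_add]

lemma Lam_pow_ne {i j : Fin d} (hij : i ≠ j) {p : Fin 3 → ℂ}
    (hp : ∀ l, l ≠ i → l ≠ j → ∑ m, p m * L l m ≠ 0) :
    Lam (pr L ((Finset.univ.erase i).erase j)) (lin p ^ (d - 2)) ≠ 0 := by
  rw [← card_two hij, Lam_pow]
  refine mul_ne_zero (by exact_mod_cast Nat.factorial_ne_zero _) ?_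
  rw [Finset.prod_ne_zero_iff]
  intro l hl
  rw [Finset.mem_erase, Finset.mem_erase] at hl
  exact hp l hl.2.1 hl.1

lemma three_others (hd : 4 ≤ d) (i : Fin d) : ∃ a b c : Fin d, a ≠ i ∧ b ≠ i ∧ c ≠ i ∧
    a ≠ b ∧ a ≠ c ∧ b ≠ c := by
  have h1 : 2 < (Finset.univ.erase i : Finset (Fin d)).card := by
    rw [Finset.card_erase_of_mem (Finset.mem_univ i), Finset.card_univ, Fintype.card_fin]
    omega
  obtain ⟨a, ha, b, hb, c, hc, hab, hac, hbc⟩ := Finset.two_lt_card.mp h1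
  exact ⟨a, b, c, (Finset.mem_erase.mp ha).1, (Finset.mem_erase.mp hb).1,
    (Finset.mem_erase.mp hc).1, hab, hac, hbc⟩

lemma third (hd : 4 ≤ d) (i j : Fin d) : ∃ k : Fin d, i ≠ k ∧ j ≠ k := by
  obtain ⟨a, b, c, ha, hb, hc, hab, hac, hbc⟩ := three_others hd i
  by_cases h : j = a
  · exact ⟨b, Ne.symm hb, h ▸ hab⟩
  · exact ⟨a, Ne.symm ha, h⟩

/-- A form killed by all `dl (L j)`, `j ≠ i`, vanishes. -/
lemma kill_others (hL : Pos L) (hd : 4 ≤ d) (i : Fin d) {g : MvPolynomial (Fin 3) ℂ} {n : ℕ}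
    (hg : g.IsHomogeneous n) (hn : n ≠ 0) (h : ∀ j, j ≠ i → dl (L j) g = 0) : g = 0 := by
  obtain ⟨a, b, c, ha, hb, hc, hab, hac, hbc⟩ := three_others hd i
  exact kill3 (hL.ind hab hac hbc) hg hn (h a ha) (h b hb) (h c hc)

lemma kill_all (hL : Pos L) (hd : 4 ≤ d) {g : MvPolynomial (Fin 3) ℂ} {n : ℕ}
    (hg : g.IsHomogeneous n) (hn : n ≠ 0) (h : ∀ j, dl (L j) g = 0) : g = 0 :=
  kill_others hL hd ⟨0, by omega⟩ hg hn fun j _ => h j

lemma homog_zero {g : MvPolynomial (Fin 3) ℂ} (hg : g.IsHomogeneous 0) : ∃ c : ℂ, g = C c := by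
  have h := (totalDegree_zero_iff_isHomogeneous (p := g)).mpr hg
  exact ⟨_, totalDegree_eq_zero_iff_eq_C.mp h⟩

/-- No apolar quadrics. -/
lemma no_quadric (hL : Pos L) (hd : 4 ≤ d) {p : MvPolynomial (Fin 3) ℂ} (hp : p ∈ annI (arr L))
    (h2 : p.IsHomogeneous 2) : p = 0 := by
  have key : ∀ i j : Fin d, i ≠ j → dl (L j) (dl (L i) p) = 0 := by
    intro i j hij
    obtain ⟨k, hik, hjk⟩ := third hd i j
    obtain ⟨a, b, q, _, _, ⟨hq1, hq2⟩, hq, _⟩ := exists_p hL hij hik hjk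
    obtain ⟨c, hc⟩ := homog_zero (dl_homog (L j) (dl_homog (L i) h2))
    have h1 := hp (lin q ^ (d - 2))
    rw [mul_comm, Lam_two hij, dl_pow_mul hq1, dl_pow_mul hq2, hc, mul_comm, ← smul_eq_C_mul,
      map_smul, smul_eq_mul] at h1
    rcases mul_eq_zero.mp h1 with h3 | h3
    · rw [hc, h3, C_0]
    · exact absurd h3 (Lam_pow_ne hij hq)
  refine kill_all hL hd h2 two_ne_zero fun i => ?_
  exact kill_others hL hd i (dl_homog _ h2) one_ne_zero fun j hj => key i j (Ne.symm hj)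

lemma no_low (hL : Pos L) (hd : 4 ≤ d) {p : MvPolynomial (Fin 3) ℂ} {j : ℕ}
    (hp : p ∈ annI (arr L)) (hpj : p.IsHomogeneous j) (hj : j ≤ 2) : p = 0 :=
  annI_small (by norm_num) (fun _ hq hq2 => no_quadric hL hd hq hq2) hp hpj hj

/-- A cubic which is a cone with respect to two of the lines is not apolar. -/
lemma two_cones (hL : Pos L) (hd : 5 ≤ d) {g : MvPolynomial (Fin 3) ℂ} (hg : g ∈ annI (arr L))
    (h3 : g.IsHomogeneous 3) {i j : Fin d} (hij : i ≠ j) (hi : dl (L i) g = 0)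
    (hj : dl (L j) g = 0) : g = 0 := by
  obtain ⟨k, hik, hjk⟩ := third (by omega) i j
  obtain ⟨a, b, q, ⟨ha1, ha2⟩, ⟨hb1, hb2⟩, ⟨hq1, hq2⟩, hq, hE⟩ := exists_p hL hij hik hjk
  have e0 := hE g 3 h3
  rw [hi, hj, mul_zero, mul_zero, zero_add, zero_add] at e0
  have h2 := dl_homog (L k) h3
  have hi1 : dl (L i) (dl (L k) g) = 0 := by rw [dl_comm, hi, map_zero]
  have hj1 : dl (L j) (dl (L k) g) = 0 := by rw [dl_comm, hj, map_zero]
  have e1 := hE _ 2 h2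
  rw [hi1, hj1, mul_zero, mul_zero, zero_add, zero_add] at e1
  have h1 := dl_homog (L k) h2
  have hi2 : dl (L i) (dl (L k) (dl (L k) g)) = 0 := by rw [dl_comm, hi1, map_zero]
  have hj2 : dl (L j) (dl (L k) (dl (L k) g)) = 0 := by rw [dl_comm, hj1, map_zero]
  have e2 := hE _ 1 h1
  rw [hi2, hj2, mul_zero, mul_zero, zero_add, zero_add] at e2
  obtain ⟨c, hc⟩ := homog_zero (dl_homog (L k) h1)
  rw [hc] at e2
  have e3 : C (6 : ℂ) * g = C c * lin q ^ 3 := by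
    have h6 : C (6 : ℂ) * g = C ((2 : ℕ) : ℂ) * (C ((3 : ℕ) : ℂ) * g) := by
      rw [← mul_assoc, ← C_mul]
      norm_num
    have h7 : C ((1 : ℕ) : ℂ) * dl (L k) (dl (L k) g) = dl (L k) (dl (L k) g) := by
      rw [Nat.cast_one, C_1, one_mul]
    rw [h7] at e2
    rw [h6, e0, mul_left_comm, e1, e2]
    ring
  have h8 := hg (lin q ^ (d - 5) * (lin a * lin b))
  have h9 : C (6 : ℂ) * (g * (lin q ^ (d - 5) * (lin a * lin b))) =
      c • (lin q ^ (d - 2) * (lin a * lin b)) := by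
    rw [← mul_assoc, e3, smul_eq_C_mul]
    have : d - 2 = 3 + (d - 5) := by omega
    rw [this, pow_add]
    ring
  have h10 : Lam (arr L) (C (6 : ℂ) * (g * (lin q ^ (d - 5) * (lin a * lin b)))) = 0 := by
    rw [← smul_eq_C_mul, map_smul, h8, smul_zero]
  rw [h9, map_smul, Lam_two hij, dl_pow_mul hq1, dl_pow_mul hq2] at h10
  have h11 : dl (L j) (dl (L i) (lin a * lin b)) = 1 := by
    rw [dl_mul, ha1, hb1, mul_zero, add_zero, one_mul, hb2]
  rw [h11, mul_one, smul_eq_mul] at h10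
  rcases mul_eq_zero.mp h10 with h12 | h12
  · rw [h12, C_0, zero_mul] at e3
    rcases mul_eq_zero.mp e3 with h13 | h13
    · rw [C_eq_zero] at h13
      norm_num at h13
    · exact h13
  · exact absurd h12 (Lam_pow_ne hij hq)

end Pool.Agent.Helper73.Six
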