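import Pool.Agent.Helper73.Six.Free

set_option autoImplicit false

/-!
# Dehomogenisation
-/

open MvPolynomial

namespace Pool.Agent.Helper73.Six

open Pool.Agent.Helper74.Apol Pool.Agent.Helper41.Hk

/-- `X 0 = 0`, `X 1 = t`, `X 2 = 1`. -/
noncomputable def dh : MvPolynomial (Fin 3) ℂ →ₐ[ℂ] Polynomial ℂ :=
  aeval fun s => if s = 0 then 0 else if s = 1 then Polynomial.X else 1

lemma dh_X0 : dh (X 0) = 0 := by
  unfold dh
  rw [aeval_X, if_pos rfl]

lemma dh_X1 : dh (X 1) = Polynomial.X := by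
  unfold dh
  rw [aeval_X, if_neg (by decide), if_pos rfl]

lemma dh_X2 : dh (X 2) = 1 := by
  unfold dh
  rw [aeval_X, if_neg (by decide), if_neg (by decide)]

lemma dh_C (c : ℂ) : dh (C c) = Polynomial.C c := by
  have := dh.commutes c
  rwa [algebraMap_eq, Polynomial.algebraMap_eq] at this

lemma dh_rho (p : MvPolynomial (Fin 3) ℂ) : dh (rho p) = dh p := by
  induction p using MvPolynomial.induction_on with
  | C a => rw [rho_C]
  | add p q hp hq => rw [map_add, map_add, map_add, hp, hq]
  | mul_X p s hp =>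
    rw [map_mul, map_mul, map_mul, hp]
    by_cases hs : s = 0
    · rw [hs, rho_X0, map_zero, dh_X0]
    · rw [rho_X hs]

lemma dh_pderiv1 (p : MvPolynomial (Fin 3) ℂ) :
    dh (pderiv 1 p) = Polynomial.derivative (dh p) := by
  induction p using MvPolynomial.induction_on with
  | C a => rw [pderiv_C, map_zero, dh_C, Polynomial.derivative_C]
  | add p q hp hq => rw [map_add, map_add, map_add, map_add, hp, hq]
  | mul_X p s hp =>
    rw [pderiv_mul, map_add, map_mul, map_mul, map_mul, Polynomial.derivative_mul, hp]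
    congr 2
    fin_cases s
    · change dh (pderiv 1 (X 0)) = Polynomial.derivative (dh (X 0))
      rw [dh_X0, pderiv_X_of_ne (by decide), map_zero, Polynomial.derivative_zero]
    · change dh (pderiv 1 (X 1)) = Polynomial.derivative (dh (X 1))
      rw [dh_X1, pderiv_X_self, map_one, Polynomial.derivative_X]
    · change dh (pderiv 1 (X 2)) = Polynomial.derivative (dh (X 2))
      rw [dh_X2, pderiv_X_of_ne (by decide), map_zero, Polynomial.derivative_one]

lemma dh_pderiv2 {p : MvPolynomial (Fin 3) ℂ} {n : ℕ} (hp : p.IsHomogeneous n) :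
    dh (pderiv 2 p) = Polynomial.C (n : ℂ) * dh p - Polynomial.X * Polynomial.derivative (dh p) := by
  have h1 := IsHomogeneous.sum_X_mul_pderiv hp
  rw [Fin.sum_univ_three] at h1
  have h2 := congrArg dh h1
  rw [map_add, map_add, map_mul, map_mul, map_mul, dh_X0, dh_X1, dh_X2, zero_mul, zero_add, one_mul,
    dh_pderiv1, map_nsmul, nsmul_eq_mul] at h2
  rw [map_natCast, ← h2]
  ring

lemma coeff_dh1 (p : MvPolynomial (Fin 3) ℂ) (k : ℕ) :
    (dh (ap (X 1) p)).coeff k = ((k : ℂ) + 1) * (dh p).coeff (k + 1) := by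
  rw [ap_X, dh_pderiv1, Polynomial.coeff_derivative]
  ring

lemma coeff_dh2 {p : MvPolynomial (Fin 3) ℂ} {n : ℕ} (hp : p.IsHomogeneous n) (k : ℕ) :
    (dh (ap (X 2) p)).coeff k = ((n : ℂ) - k) * (dh p).coeff k := by
  rw [ap_X, dh_pderiv2 hp, Polynomial.coeff_sub, Polynomial.coeff_C_mul]
  cases k with
  | zero =>
    rw [Polynomial.coeff_X_mul_zero]
    push_cast
    ring
  | succ k =>
    rw [Polynomial.coeff_X_mul, Polynomial.coeff_derivative]
    push_cast
    ring

lemma ap_homog_X (s : Fin 3) {p : MvPolynomial (Fin 3) ℂ} {n : ℕ} (hp : p.IsHomogeneous n) :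
    (ap (X s) p).IsHomogeneous (n - 1) := by
  rw [ap_X]
  exact IsHomogeneous.pderiv hp

lemma coeff_dh1_pow (p : MvPolynomial (Fin 3) ℂ) (r k : ℕ) :
    (dh (ap (X 1 ^ r) p)).coeff k = ((k + r).descFactorial r : ℂ) * (dh p).coeff (k + r) := by
  induction r generalizing k with
  | zero => rw [pow_zero, ap_one, Nat.descFactorial_zero, Nat.cast_one, one_mul, add_zero]
  | succ r ih =>
    rw [pow_succ', ap_mul, coeff_dh1, ih (k + 1)]
    have h1 : k + 1 + r = k + (r + 1) := by ring
    rw [h1]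
    have h2 : (k + (r + 1)).descFactorial (r + 1) =
        (k + (r + 1) - r) * (k + (r + 1)).descFactorial r := Nat.descFactorial_succ _ _
    have h3 : k + (r + 1) - r = k + 1 := by omega
    rw [h2, h3]
    push_cast
    ring

lemma coeff_dh_high {p : MvPolynomial (Fin 3) ℂ} {n : ℕ} (hp : p.IsHomogeneous n) {k : ℕ}
    (hk : n < k) : (dh p).coeff k = 0 := by
  rw [p.as_sum, map_sum, Polynomial.finsetSum_coeff]
  refine Finset.sum_eq_zero fun a ha => ?_
  have h1 : a.degree = n := by
    have := hp (mem_support_iff.mp ha)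
    rw [Finsupp.degree_eq_weight_one]
    exact this
  rw [monomial_eq, map_mul, dh_C, Polynomial.coeff_C_mul, Finsupp.prod_fintype _ _ (fun i => by simp),
    Fin.prod_univ_three, map_mul, map_mul, map_pow, map_pow, map_pow, dh_X0, dh_X1, dh_X2, one_pow,
    mul_one]
  have h2 : a 0 + a 1 + a 2 = n := by
    rw [← h1, Finsupp.degree_eq_sum, Fin.sum_univ_three]
  by_cases h0 : a 0 = 0
  · rw [h0, pow_zero, one_mul, Polynomial.coeff_X_pow, if_neg (by omega), mul_zero]
  · rw [zero_pow h0, zero_mul, Polynomial.coeff_zero, mul_zero]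

lemma coeff_dh2_pow {p : MvPolynomial (Fin 3) ℂ} {n : ℕ} (hp : p.IsHomogeneous n) (r k : ℕ) :
    (dh (ap (X 2 ^ r) p)).coeff k = ((n - k).descFactorial r : ℂ) * (dh p).coeff k := by
  induction r generalizing p n with
  | zero => rw [pow_zero, ap_one, Nat.descFactorial_zero, Nat.cast_one, one_mul]
  | succ r ih =>
    rw [pow_succ, ap_mul, ih (ap_homog_X 2 hp), coeff_dh2 hp]
    by_cases hk : k ≤ n
    · have h1 : (n - k).descFactorial (r + 1) = (n - k) * (n - k - 1).descFactorial r := by
        cases h : n - k with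
        | zero => simp
        | succ m => rw [Nat.succ_descFactorial_succ, Nat.add_sub_cancel]
      have h2 : n - 1 - k = n - k - 1 := by omega
      rw [h1, h2]
      push_cast [Nat.cast_sub hk]
      ring
    · rw [coeff_dh_high hp (by omega)]
      ring

/-! ### The lines -/

variable {d : ℕ} {L : Fin d → Fin 3 → ℂ}

/-- The first basis vector. -/
def e0 : Fin 3 → ℂ := ![1, 0, 0]

lemma lin_e0 : lin e0 = X 0 := by
  unfold lin e0
  rw [Fin.sum_univ_three]
  simp

lemma arr_split {i : Fin d} (hi : L i = e0) : arr L = X 0 * pr L (Finset.univ.erase i) := by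
  rw [arr_eq, pr_erase L Finset.univ (Finset.mem_univ i), hi, lin_e0]

lemma La_zero {i : Fin d} (hi : L i = e0) : La (arr L) 0 = 0 := by
  unfold La
  rw [pow_zero, ap_one, arr_split hi, map_mul, rho_X0, zero_mul]

lemma dh_lin (x : Fin 3 → ℂ) : dh (lin x) = Polynomial.C (x 1) * Polynomial.X + Polynomial.C (x 2) := by
  unfold lin
  rw [Fin.sum_univ_three, map_add, map_add, map_mul, map_mul, map_mul, dh_X0, dh_X1, dh_X2, dh_C,
    dh_C, dh_C]
  ring

lemma dh_La_one {i : Fin d} (hi : L i = e0) : dh (La (arr L) 1) =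
    ∏ j ∈ Finset.univ.erase i, (Polynomial.C (L j 1) * Polynomial.X + Polynomial.C (L j 2)) := by
  unfold La
  rw [pow_one, ap_X, arr_split hi, pderiv_mul, pderiv_X_self, one_mul, dh_rho, map_add, map_mul,
    dh_X0, zero_mul, add_zero]
  unfold pr
  rw [map_prod]
  exact Finset.prod_congr rfl fun j _ => dh_lin _

/-- The derivatives along the line `j` vanish at the intersection point. -/
lemma root_rel {j : Fin d} {v P : Fin 3 → ℂ}
    (hv : ∑ m, L j m * v m = 0) (hP : ∑ m, L j m * P m = 0) (n : ℕ) :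
    eval P (ap (lin v ^ n) (arr L)) = 0 := by
  have hap : ∀ f : MvPolynomial (Fin 3) ℂ, ap (lin v) f = dl v f := by
    intro f
    unfold lin
    rw [ap_sum, dl_apply]
    refine Finset.sum_congr rfl fun m _ => ?_
    rw [ap_mul, ap_C, ap_X, smul_eq_C_mul]
  have h1 : ∃ H, arr L = lin (L j) * H :=
    ⟨_, by rw [arr_eq, pr_erase L Finset.univ (Finset.mem_univ j)]⟩
  obtain ⟨H, hH⟩ := h1
  have h2 : ∀ n, ∃ H', ap (lin v ^ n) (arr L) = lin (L j) * H' := by
    intro n
    induction n with
    | zero => exact ⟨H, by rw [pow_zero, ap_one, hH]⟩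
    | succ n ih =>
      obtain ⟨H', hH'⟩ := ih
      refine ⟨dl v H', ?_⟩
      rw [pow_succ', ap_mul, hH', hap, dl_mul, dl_lin, hv, C_0, zero_mul, zero_add]
  obtain ⟨H', hH'⟩ := h2 n
  rw [hH', map_mul]
  have h3 : eval P (lin (L j)) = ∑ m, L j m * P m := by
    unfold lin
    rw [map_sum]
    refine Finset.sum_congr rfl fun m _ => ?_
    rw [map_mul, eval_C, eval_X]
  rw [h3, hP, zero_mul]

lemma eval_dh (H : MvPolynomial (Fin 3) ℂ) (t : ℂ) :
    eval ![0, t, 1] H = (dh H).eval t := by
  induction H using MvPolynomial.induction_on with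
  | C a => rw [eval_C, dh_C, Polynomial.eval_C]
  | add p q hp hq => rw [map_add, map_add, Polynomial.eval_add, hp, hq]
  | mul_X p s hp =>
    rw [map_mul, map_mul, Polynomial.eval_mul, hp, eval_X]
    congr 1
    fin_cases s
    · change (0 : ℂ) = (dh (X 0)).eval t
      rw [dh_X0, Polynomial.eval_zero]
    · change t = (dh (X 1)).eval t
      rw [dh_X1, Polynomial.eval_X]
    · change (1 : ℂ) = (dh (X 2)).eval t
      rw [dh_X2, Polynomial.eval_one]

lemma dh_ap01 (F : MvPolynomial (Fin 3) ℂ) (k l : ℕ) :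
    dh (ap (X 0 ^ k * X 1 ^ l) F) = Polynomial.derivative^[l] (dh (La F k)) := by
  rw [mul_comm, ap_mul, ← dh_rho, rho_ap ((free_X (by decide)).pow l)]
  change dh (ap (X 1 ^ l) (La F k)) = _
  induction l with
  | zero => rw [pow_zero, ap_one, Function.iterate_zero, id]
  | succ l ih => rw [pow_succ', ap_mul, ap_X, dh_pderiv1, ih, Function.iterate_succ_apply']

/-- Second order relation at an intersection point. -/
lemma rel2 {i j : Fin d} (hi : L i = e0) (hj : L j 1 ≠ 0) :
    (dh (La (arr L) 2)).eval (-(L j 2) / L j 1) =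
      2 * (L j 0 / L j 1) *
        (Polynomial.derivative (dh (La (arr L) 1))).eval (-(L j 2) / L j 1) := by
  set t := -(L j 2) / L j 1 with ht
  set c := L j 0 / L j 1 with hc
  have hv : ∑ m, L j m * (![1, -c, 0] : Fin 3 → ℂ) m = 0 := by
    rw [Fin.sum_univ_three]
    simp only [Matrix.cons_val_zero, Matrix.cons_val_one, Matrix.cons_val_two, Matrix.tail_cons,
      Matrix.head_cons]
    rw [hc]
    field_simp
    ring
  have hP : ∑ m, L j m * (![0, t, 1] : Fin 3 → ℂ) m = 0 := by
    rw [Fin.sum_univ_three]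
    simp only [Matrix.cons_val_zero, Matrix.cons_val_one, Matrix.cons_val_two, Matrix.tail_cons,
      Matrix.head_cons]
    rw [ht]
    field_simp
    ring
  have h := root_rel hv hP 2
  have hlin : lin (![1, -c, 0] : Fin 3 → ℂ) = X 0 - C c * X 1 := by
    unfold lin
    rw [Fin.sum_univ_three]
    simp
    ring
  have hexp : (lin (![1, -c, 0] : Fin 3 → ℂ)) ^ 2 = X 0 ^ 2 * X 1 ^ 0 -
      C (2 * c) * (X 0 ^ 1 * X 1 ^ 1) + C (c ^ 2) * (X 0 ^ 0 * X 1 ^ 2) := by
    rw [hlin]
    simp only [C_mul, C_pow, map_ofNat]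
    ring
  have hsub : ∀ p q f : MvPolynomial (Fin 3) ℂ, ap (p - q) f = ap p f - ap q f := by
    intro p q f
    rw [map_sub, LinearMap.sub_apply]
  rw [hexp, eval_dh, ap_add, hsub, ap_mul (C (2 * c)), ap_mul (C (c ^ 2)), ap_C, ap_C, map_add,
    map_sub, map_smul, map_smul, dh_ap01, dh_ap01, dh_ap01, La_zero hi, map_zero] at h
  simp only [Function.iterate_zero, id, Function.iterate_succ,
    Function.comp_apply, Polynomial.derivative_zero, smul_zero, add_zero, Polynomial.eval_sub,
    Polynomial.eval_smul, smul_eq_mul] at h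
  linear_combination h

/-- Third order relation at an intersection point. -/
lemma rel3 {i j : Fin d} (hi : L i = e0) (hj : L j 1 ≠ 0) :
    (dh (La (arr L) 3)).eval (-(L j 2) / L j 1) -
      3 * (L j 0 / L j 1) *
        (Polynomial.derivative (dh (La (arr L) 2))).eval (-(L j 2) / L j 1) +
      3 * (L j 0 / L j 1) ^ 2 * (Polynomial.derivative
        (Polynomial.derivative (dh (La (arr L) 1)))).eval (-(L j 2) / L j 1) = 0 := by
  set t := -(L j 2) / L j 1 with ht
  set c := L j 0 / L j 1 with hc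
  have hv : ∑ m, L j m * (![1, -c, 0] : Fin 3 → ℂ) m = 0 := by
    rw [Fin.sum_univ_three]
    simp only [Matrix.cons_val_zero, Matrix.cons_val_one, Matrix.cons_val_two, Matrix.tail_cons,
      Matrix.head_cons]
    rw [hc]
    field_simp
    ring
  have hP : ∑ m, L j m * (![0, t, 1] : Fin 3 → ℂ) m = 0 := by
    rw [Fin.sum_univ_three]
    simp only [Matrix.cons_val_zero, Matrix.cons_val_one, Matrix.cons_val_two, Matrix.tail_cons,
      Matrix.head_cons]
    rw [ht]
    field_simp
    ring
  have h := root_rel hv hP 3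
  have hlin : lin (![1, -c, 0] : Fin 3 → ℂ) = X 0 - C c * X 1 := by
    unfold lin
    rw [Fin.sum_univ_three]
    simp
    ring
  have hexp : (lin (![1, -c, 0] : Fin 3 → ℂ)) ^ 3 = X 0 ^ 3 * X 1 ^ 0 -
      C (3 * c) * (X 0 ^ 2 * X 1 ^ 1) + C (3 * c ^ 2) * (X 0 ^ 1 * X 1 ^ 2) -
      C (c ^ 3) * (X 0 ^ 0 * X 1 ^ 3) := by
    rw [hlin]
    simp only [C_mul, C_pow, map_ofNat]
    ring
  have hsub : ∀ p q f : MvPolynomial (Fin 3) ℂ, ap (p - q) f = ap p f - ap q f := by
    intro p q f
    rw [map_sub, LinearMap.sub_apply]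
  rw [hexp, eval_dh, hsub, ap_add, hsub, ap_mul (C (3 * c)), ap_mul (C (3 * c ^ 2)),
    ap_mul (C (c ^ 3)), ap_C, ap_C, ap_C, map_sub, map_add,
    map_sub, map_smul, map_smul, map_smul, dh_ap01, dh_ap01, dh_ap01, dh_ap01, La_zero hi,
    map_zero] at h
  simp only [Function.iterate_zero, id, Function.iterate_succ,
    Function.comp_apply, Polynomial.derivative_zero, smul_zero, sub_zero, Polynomial.eval_sub,
    Polynomial.eval_add, Polynomial.eval_smul, smul_eq_mul] at h
  linear_combination h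

lemma det_ne (hL : Pos L) {i j k : Fin d} (hij : i ≠ j) (hik : i ≠ k) (hjk : j ≠ k) :
    (Matrix.of ![L i, L j, L k]).det ≠ 0 := by
  have h := hL.ind hij hik hjk
  have hu : IsUnit (Matrix.of ![L i, L j, L k]) := by
    rw [← Matrix.linearIndependent_rows_iff_isUnit]
    exact h
  exact ((Matrix.isUnit_iff_isUnit_det _).mp hu).ne_zero

lemma minor_ne (hL : Pos L) {i j k : Fin d} (hi : L i = e0) (hij : i ≠ j) (hik : i ≠ k)
    (hjk : j ≠ k) : L j 1 * L k 2 - L j 2 * L k 1 ≠ 0 := by
  have h := det_ne hL hij hik hjk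
  rw [Matrix.det_fin_three] at h
  intro h0
  apply h
  simp only [Matrix.of_apply, Matrix.cons_val_zero, Matrix.cons_val_one, Matrix.cons_val_two,
    Matrix.tail_cons, Matrix.head_cons, hi, e0]
  linear_combination h0

/-- The lines other than `i` are not coplanar. -/
lemma not_coplanar (hL : Pos L) (hd : 4 ≤ d) (i : Fin d) {p : Fin 3 → ℂ}
    (h : ∀ j, j ≠ i → ∑ m, p m * L j m = 0) : p = 0 := by
  have h1 : lin p = 0 := kill_others hL hd i (lin_homog p) one_ne_zero fun j hj => by
    rw [dl_lin, h j hj, C_0]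
  funext s
  have h2 := congrArg (coeff (Finsupp.single s 1)) h1
  unfold lin at h2
  rw [coeff_sum, Finset.sum_eq_single s, coeff_C_mul, coeff_X, if_pos rfl, mul_one,
    coeff_zero] at h2
  · exact h2
  · intro b _ hb
    rw [coeff_C_mul, coeff_X, if_neg, mul_zero]
    intro hc
    exact hb (Finsupp.single_left_injective one_ne_zero hc)
  · intro hs
    exact absurd (Finset.mem_univ _) hs

end Pool.Agent.Helper73.Six
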