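import Pool.Agent.Helper73.Six.Ci3

set_option autoImplicit false

/-!
# Linear changes of coordinates
-/

open MvPolynomial

namespace Pool.Agent.Helper73.Six

open Pool.Agent.Helper74.Apol

/-- The arrangement with transformed coefficient vectors. -/
def act {d : ℕ} (A : Matrix (Fin 3) (Fin 3) ℂ) (L : Fin d → Fin 3 → ℂ) : Fin d → Fin 3 → ℂ :=
  fun j => A.mulVec (L j)

/-- The substitution on operators. -/
noncomputable def th (A : Matrix (Fin 3) (Fin 3) ℂ) :
    MvPolynomial (Fin 3) ℂ →ₐ[ℂ] MvPolynomial (Fin 3) ℂ :=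
  aeval fun s => lin (A s)

lemma th_X (A : Matrix (Fin 3) (Fin 3) ℂ) (s : Fin 3) : th A (X s) = lin (A s) := by
  unfold th
  rw [aeval_X]

lemma th_C (A : Matrix (Fin 3) (Fin 3) ℂ) (c : ℂ) : th A (C c) = C c := by
  have := (th A).commutes c
  rwa [algebraMap_eq] at this

lemma dl_th (A : Matrix (Fin 3) (Fin 3) ℂ) (x : Fin 3 → ℂ) (p : MvPolynomial (Fin 3) ℂ) :
    dl x (th A p) = th A (dl (A.mulVec x) p) := by
  induction p using MvPolynomial.induction_on with
  | C a => rw [th_C, dl_C, dl_C, map_zero]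
  | add p q hp hq => rw [map_add, map_add, map_add, map_add, hp, hq]
  | mul_X p s hp =>
    rw [map_mul, dl_mul, dl_mul, hp, th_X, map_add, map_mul, map_mul, th_X, dl_X, th_C, dl_lin]
    rfl

lemma Lam_const (p : MvPolynomial (Fin 3) ℂ) : Lam (1 : MvPolynomial (Fin 3) ℂ) p =
    constantCoeff p := by
  induction p using MvPolynomial.induction_on' with
  | add p q hp hq => rw [map_add, map_add, hp, hq]
  | monomial a c =>
    rw [Lam_monomial, constantCoeff_monomial]
    unfold hh
    rw [coeff_one]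
    by_cases h : a = 0
    · subst h
      unfold fc
      simp
    · rw [if_neg (Ne.symm h), if_neg h, zero_mul, mul_zero]

lemma constantCoeff_lin (x : Fin 3 → ℂ) : constantCoeff (lin x) = 0 := by
  unfold lin
  rw [map_sum]
  refine Finset.sum_eq_zero fun i _ => ?_
  rw [map_mul, constantCoeff_X, mul_zero]

lemma constantCoeff_th (A : Matrix (Fin 3) (Fin 3) ℂ) (p : MvPolynomial (Fin 3) ℂ) :
    constantCoeff (th A p) = constantCoeff p := by
  induction p using MvPolynomial.induction_on with
  | C a => rw [th_C]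
  | add p q hp hq => rw [map_add, map_add, map_add, hp, hq]
  | mul_X p s hp => rw [map_mul, map_mul, map_mul, th_X, constantCoeff_lin, constantCoeff_X,
      mul_zero, mul_zero]

lemma Lam_th {d : ℕ} (A : Matrix (Fin 3) (Fin 3) ℂ) (L : Fin d → Fin 3 → ℂ)
    (s : Finset (Fin d)) (p : MvPolynomial (Fin 3) ℂ) :
    Lam (pr (act A L) s) p = Lam (pr L s) (th A p) := by
  classical
  induction s using Finset.induction_on generalizing p with
  | empty =>
    simp only [pr, Finset.prod_empty]
    rw [Lam_const, Lam_const, constantCoeff_th]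
  | insert k s hk ih =>
    have h1 : ∀ M : Fin d → Fin 3 → ℂ, pr M (insert k s) = lin (M k) * pr M s := by
      intro M
      unfold pr
      rw [Finset.prod_insert hk]
    rw [h1, h1, Lam_lin, Lam_lin, ih, dl_th]
    rfl

lemma lin_vecMul (A : Matrix (Fin 3) (Fin 3) ℂ) (x : Fin 3 → ℂ) :
    th A (lin x) = lin (Matrix.vecMul x A) := by
  unfold lin
  rw [map_sum]
  simp only [map_mul, th_C, th_X]
  unfold lin
  simp only [Finset.mul_sum]
  rw [Finset.sum_comm]
  refine Finset.sum_congr rfl fun i _ => ?_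
  rw [Matrix.vecMul, dotProduct, map_sum, Finset.sum_mul]
  refine Finset.sum_congr rfl fun j _ => ?_
  rw [C_mul, mul_assoc]

lemma th_th (A B : Matrix (Fin 3) (Fin 3) ℂ) (p : MvPolynomial (Fin 3) ℂ) :
    th A (th B p) = th (B * A) p := by
  induction p using MvPolynomial.induction_on with
  | C a => rw [th_C, th_C, th_C]
  | add p q hp hq => rw [map_add, map_add, map_add, hp, hq]
  | mul_X p s hp =>
    rw [map_mul, map_mul, map_mul, hp, th_X, th_X, lin_vecMul]
    rfl

lemma th_one (p : MvPolynomial (Fin 3) ℂ) : th 1 p = p := by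
  induction p using MvPolynomial.induction_on with
  | C a => rw [th_C]
  | add p q hp hq => rw [map_add, hp, hq]
  | mul_X p s hp =>
    rw [map_mul, hp, th_X]
    congr 1
    unfold lin
    rw [Finset.sum_eq_single s]
    · rw [Matrix.one_apply_eq, C_1, one_mul]
    · intro b _ hb
      rw [Matrix.one_apply_ne (Ne.symm hb), C_0, zero_mul]
    · intro h
      exact absurd (Finset.mem_univ _) h

lemma th_homog (A : Matrix (Fin 3) (Fin 3) ℂ) {p : MvPolynomial (Fin 3) ℂ} {n : ℕ}
    (hp : p.IsHomogeneous n) : (th A p).IsHomogeneous n := by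
  have := hp.aeval (fun s => lin (A s)) (n := 1) (fun s => lin_homog _)
  rw [one_mul] at this
  exact this

section
variable {d : ℕ} {L : Fin d → Fin 3 → ℂ} {A : Matrix (Fin 3) (Fin 3) ℂ}

lemma th_left (hA : IsUnit A.det) (p : MvPolynomial (Fin 3) ℂ) : th A (th A⁻¹ p) = p := by
  rw [th_th, Matrix.nonsing_inv_mul A hA, th_one]

lemma th_right (hA : IsUnit A.det) (p : MvPolynomial (Fin 3) ℂ) : th A⁻¹ (th A p) = p := by
  rw [th_th, Matrix.mul_nonsing_inv A hA, th_one]

lemma th_inj (hA : IsUnit A.det) {p : MvPolynomial (Fin 3) ℂ} (h : th A p = 0) : p = 0 := by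
  rw [← th_right hA p, h, map_zero]

lemma mem_act (hA : IsUnit A.det) (p : MvPolynomial (Fin 3) ℂ) :
    p ∈ annI (arr (act A L)) ↔ th A p ∈ annI (arr L) := by
  rw [mem_annI, mem_annI]
  constructor
  · intro h q
    have h1 := h (th A⁻¹ q)
    rw [arr_eq, Lam_th, map_mul, th_left hA] at h1
    exact h1
  · intro h q
    rw [arr_eq, Lam_th, map_mul]
    exact h _

lemma Pos.act (hL : Pos L) (hA : IsUnit A.det) : Pos (act A L) := by
  intro s hs
  have h1 := hL s hs
  have h2 : LinearMap.ker (Matrix.mulVecLin A) = ⊥ := by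
    rw [LinearMap.ker_eq_bot']
    intro x hx
    have h3 : A⁻¹.mulVec (A.mulVec x) = x := by
      rw [Matrix.mulVec_mulVec, Matrix.nonsing_inv_mul A hA, Matrix.one_mulVec]
    rw [← h3]
    rw [Matrix.mulVecLin_apply] at hx
    rw [hx, Matrix.mulVec_zero]
  exact h1.map' (Matrix.mulVecLin A) h2

end

end Pool.Agent.Helper73.Six
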