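import Pool.Agent.Helper73.Six.Basic

set_option autoImplicit false

/-!
# Three independent directions in three variables
-/

open MvPolynomial

namespace Pool.Agent.Helper73.Six

open Pool.Agent.Helper74.Apol

lemma dual_basis {u v w : Fin 3 → ℂ} (h : LinearIndependent ℂ ![u, v, w]) :
    ∃ a b p : Fin 3 → ℂ,
      (dl u (lin a) = 1 ∧ dl v (lin a) = 0 ∧ dl w (lin a) = 0) ∧
      (dl u (lin b) = 0 ∧ dl v (lin b) = 1 ∧ dl w (lin b) = 0) ∧
      (dl u (lin p) = 0 ∧ dl v (lin p) = 0 ∧ dl w (lin p) = 1) ∧
      ∀ s, (X s : MvPolynomial (Fin 3) ℂ) =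
        C (u s) * lin a + C (v s) * lin b + C (w s) * lin p := by
  set M : Matrix (Fin 3) (Fin 3) ℂ := Matrix.of ![u, v, w] with hM
  have hu : IsUnit M := by
    rw [← Matrix.linearIndependent_rows_iff_isUnit]
    exact h
  have hdet : IsUnit M.det := (Matrix.isUnit_iff_isUnit_det M).mp hu
  have h1 : M * M⁻¹ = 1 := Matrix.mul_nonsing_inv M hdet
  have h2 : M⁻¹ * M = 1 := Matrix.nonsing_inv_mul M hdet
  set B := M⁻¹ with hB
  have key : ∀ r t : Fin 3, ∑ i, B i t * M r i = (1 : Matrix (Fin 3) (Fin 3) ℂ) r t := by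
    intro r t
    rw [← h1, Matrix.mul_apply]
    exact Finset.sum_congr rfl fun i _ => mul_comm _ _
  have key2 : ∀ i s : Fin 3, ∑ r, B i r * M r s = (1 : Matrix (Fin 3) (Fin 3) ℂ) i s := by
    intro i s
    rw [← h2, Matrix.mul_apply]
  refine ⟨fun i => B i 0, fun i => B i 1, fun i => B i 2, ?_, ?_, ?_, ?_⟩
  · refine ⟨?_, ?_, ?_⟩
    · rw [dl_lin]
      have := key 0 0
      simp only [hM, Matrix.of_apply, Matrix.cons_val_zero, Matrix.one_apply_eq] at this
      rw [this, C_1]
    · rw [dl_lin]
      have := key 1 0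
      simp only [hM, Matrix.of_apply, Matrix.cons_val_one, Matrix.cons_val_zero] at this
      rw [this]
      simp
    · rw [dl_lin]
      have := key 2 0
      simp only [hM, Matrix.of_apply, Matrix.cons_val_two, Matrix.tail_cons,
        Matrix.head_cons] at this
      rw [this]
      simp
  · refine ⟨?_, ?_, ?_⟩
    · rw [dl_lin]
      have := key 0 1
      simp only [hM, Matrix.of_apply, Matrix.cons_val_zero] at this
      rw [this]
      simp
    · rw [dl_lin]
      have := key 1 1
      simp only [hM, Matrix.of_apply, Matrix.cons_val_one, Matrix.cons_val_zero,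
        Matrix.one_apply_eq] at this
      rw [this, C_1]
    · rw [dl_lin]
      have := key 2 1
      simp only [hM, Matrix.of_apply, Matrix.cons_val_two, Matrix.tail_cons,
        Matrix.head_cons] at this
      rw [this]
      simp
  · refine ⟨?_, ?_, ?_⟩
    · rw [dl_lin]
      have := key 0 2
      simp only [hM, Matrix.of_apply, Matrix.cons_val_zero] at this
      rw [this]
      simp
    · rw [dl_lin]
      have := key 1 2
      simp only [hM, Matrix.of_apply, Matrix.cons_val_one, Matrix.cons_val_zero] at this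
      rw [this]
      simp
    · rw [dl_lin]
      have := key 2 2
      simp only [hM, Matrix.of_apply, Matrix.cons_val_two, Matrix.tail_cons,
        Matrix.head_cons, Matrix.one_apply_eq] at this
      rw [this, C_1]
  · intro s
    have h3 : ∀ i, B i 0 * u s + B i 1 * v s + B i 2 * w s =
        (1 : Matrix (Fin 3) (Fin 3) ℂ) i s := by
      intro i
      have := key2 i s
      rw [Fin.sum_univ_three] at this
      simpa [hM] using this
    unfold lin
    rw [Finset.mul_sum, Finset.mul_sum, Finset.mul_sum, ← Finset.sum_add_distrib,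
      ← Finset.sum_add_distrib]
    rw [Finset.sum_eq_single s]
    · have h4 := h3 s
      rw [Matrix.one_apply_eq] at h4
      have h5 : C (u s) * (C (B s 0) * X s) + C (v s) * (C (B s 1) * X s) +
          C (w s) * (C (B s 2) * X s) = C (B s 0 * u s + B s 1 * v s + B s 2 * w s) *
          (X s : MvPolynomial (Fin 3) ℂ) := by
        simp only [C_add, C_mul]
        ring
      rw [h5, h4, C_1, one_mul]
    · intro i _ his
      have h4 := h3 i
      rw [Matrix.one_apply_ne his] at h4
      have h5 : C (u s) * (C (B i 0) * X i) + C (v s) * (C (B i 1) * X i) +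
          C (w s) * (C (B i 2) * X i) = C (B i 0 * u s + B i 1 * v s + B i 2 * w s) *
          (X i : MvPolynomial (Fin 3) ℂ) := by
        simp only [C_add, C_mul]
        ring
      rw [h5, h4, C_0, zero_mul]
    · intro hs
      exact absurd (Finset.mem_univ _) hs

/-- Euler's identity in a basis. -/
lemma euler_basis {u v w a b p : Fin 3 → ℂ}
    (hX : ∀ s, (X s : MvPolynomial (Fin 3) ℂ) =
        C (u s) * lin a + C (v s) * lin b + C (w s) * lin p)
    {g : MvPolynomial (Fin 3) ℂ} {n : ℕ} (hg : g.IsHomogeneous n) :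
    C (n : ℂ) * g = lin a * dl u g + lin b * dl v g + lin p * dl w g := by
  have h1 := IsHomogeneous.sum_X_mul_pderiv hg
  have h2 : C (n : ℂ) * g = n • g := by
    rw [nsmul_eq_mul, map_natCast]
  rw [h2, ← h1]
  rw [dl_apply, dl_apply, dl_apply, Finset.mul_sum, Finset.mul_sum, Finset.mul_sum,
    ← Finset.sum_add_distrib, ← Finset.sum_add_distrib]
  refine Finset.sum_congr rfl fun s _ => ?_
  conv_lhs => rw [hX s]
  ring

lemma kill3 {u v w : Fin 3 → ℂ} (h : LinearIndependent ℂ ![u, v, w])
    {g : MvPolynomial (Fin 3) ℂ} {n : ℕ} (hg : g.IsHomogeneous n) (hn : n ≠ 0)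
    (h1 : dl u g = 0) (h2 : dl v g = 0) (h3 : dl w g = 0) : g = 0 := by
  obtain ⟨a, b, p, _, _, _, hX⟩ := dual_basis h
  have h4 := euler_basis hX hg
  rw [h1, h2, h3, mul_zero, mul_zero, mul_zero, add_zero, add_zero] at h4
  rcases mul_eq_zero.mp h4 with h5 | h5
  · rw [C_eq_zero] at h5
    exact absurd (by exact_mod_cast h5) hn
  · exact h5

/-- General position. -/
def Pos {d : ℕ} (L : Fin d → Fin 3 → ℂ) : Prop :=
  ∀ s : Fin 3 → Fin d, Function.Injective s → LinearIndependent ℂ (fun k : Fin 3 => L (s k))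

lemma Pos.ind {d : ℕ} {L : Fin d → Fin 3 → ℂ} (hL : Pos L) {i j k : Fin d} (hij : i ≠ j)
    (hik : i ≠ k) (hjk : j ≠ k) : LinearIndependent ℂ ![L i, L j, L k] := by
  have h := hL ![i, j, k] (by
    intro a b hab
    fin_cases a <;> fin_cases b <;> simp_all)
  have h2 : (fun m : Fin 3 => L (![i, j, k] m)) = ![L i, L j, L k] := by
    funext m
    fin_cases m <;> rfl
  rw [h2] at h
  exact h

end Pool.Agent.Helper73.Six
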