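import Pool.Agent.Helper73.Six.Node

set_option autoImplicit false

/-!
# Binary forms, and leaves in arbitrary frames
-/

open MvPolynomial

namespace Pool.Agent.Helper73.Six

open Pool.Agent.Helper74.Apol Pool.Agent.Helper41.Hk

lemma pderiv0_rho (p : MvPolynomial (Fin 3) ℂ) : pderiv 0 (rho p) = 0 := by
  induction p using MvPolynomial.induction_on with
  | C a => rw [rho_C, pderiv_C]
  | add p q hp hq => rw [map_add, map_add, hp, hq, add_zero]
  | mul_X p s hp =>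
    rw [map_mul, pderiv_mul, hp, zero_mul, zero_add]
    by_cases hs : s = 0
    · rw [hs, rho_X0, map_zero, mul_zero]
    · rw [rho_X hs, pderiv_X_of_ne hs, mul_zero]

lemma Free.pderiv {p : MvPolynomial (Fin 3) ℂ} (hp : Free p) {s : Fin 3} (hs : s ≠ 0) :
    Free (pderiv s p) := by
  unfold Free
  rw [← pderiv_rho hs, hp]

lemma Free.euler {p : MvPolynomial (Fin 3) ℂ} (hp : Free p) {n : ℕ} (hn : p.IsHomogeneous n) :
    C (n : ℂ) * p = X 1 * MvPolynomial.pderiv 1 p + X 2 * MvPolynomial.pderiv 2 p := by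
  have h1 := IsHomogeneous.sum_X_mul_pderiv hn
  have h0 : MvPolynomial.pderiv 0 p = 0 := by
    rw [← hp]
    exact pderiv0_rho p
  rw [Fin.sum_univ_three, h0, mul_zero, zero_add, nsmul_eq_mul] at h1
  rw [h1, map_natCast]

lemma free_lin {p : MvPolynomial (Fin 3) ℂ} (hp : Free p) (h : p.IsHomogeneous 1) :
    ∃ a b : ℂ, p = C a * X 1 + C b * X 2 := by
  have h1 := hp.euler h
  obtain ⟨a, ha⟩ := homog_zero (IsHomogeneous.pderiv (i := 1) h)
  obtain ⟨b, hb⟩ := homog_zero (IsHomogeneous.pderiv (i := 2) h)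
  rw [ha, hb, Nat.cast_one, C_1, one_mul] at h1
  exact ⟨a, b, by rw [h1]; ring⟩

lemma free_quad {p : MvPolynomial (Fin 3) ℂ} (hp : Free p) (h : p.IsHomogeneous 2) :
    ∃ a b c : ℂ, p = C a * X 1 ^ 2 + C b * (X 1 * X 2) + C c * X 2 ^ 2 := by
  have h1 := hp.euler h
  obtain ⟨a, b, hab⟩ := free_lin (hp.pderiv (by decide)) (IsHomogeneous.pderiv (i := 1) h)
  obtain ⟨c, d, hcd⟩ := free_lin (hp.pderiv (by decide)) (IsHomogeneous.pderiv (i := 2) h)
  rw [hab, hcd] at h1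
  refine ⟨a / 2, (b + c) / 2, d / 2, ?_⟩
  have h2 : C (2 : ℂ) * p = C 2 * (C (a / 2) * X 1 ^ 2 + C ((b + c) / 2) * (X 1 * X 2) +
      C (d / 2) * X 2 ^ 2) := by
    have e1 : C (a / 2) * C 2 = (C a : MvPolynomial (Fin 3) ℂ) := by
      rw [← C_mul]; congr 1; ring
    have e2 : C ((b + c) / 2) * C 2 = (C b + C c : MvPolynomial (Fin 3) ℂ) := by
      rw [← C_mul, ← C_add]; congr 1; ring
    have e3 : C (d / 2) * C 2 = (C d : MvPolynomial (Fin 3) ℂ) := by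
      rw [← C_mul]; congr 1; ring
    have h3 : C ((2 : ℕ) : ℂ) * p = C (2 : ℂ) * p := by norm_num
    rw [← h3, h1]
    linear_combination (-X 1 ^ 2) * e1 - (X 1 * X 2) * e2 - X 2 ^ 2 * e3
  have h4 : (C (2 : ℂ) : MvPolynomial (Fin 3) ℂ) ≠ 0 := by
    rw [Ne, C_eq_zero]
    norm_num
  exact mul_left_cancel₀ h4 h2

lemma free_cubic {p : MvPolynomial (Fin 3) ℂ} (hp : Free p) (h : p.IsHomogeneous 3) :
    ∃ k : Fin 4 → ℂ, p = ∑ r : Fin 4, C (k r) * (X 1 ^ (r : ℕ) * X 2 ^ (3 - (r : ℕ))) := by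
  have h1 := hp.euler h
  obtain ⟨a, b, c, habc⟩ := free_quad (hp.pderiv (by decide)) (IsHomogeneous.pderiv (i := 1) h)
  obtain ⟨a', b', c', habc'⟩ := free_quad (hp.pderiv (by decide)) (IsHomogeneous.pderiv (i := 2) h)
  rw [habc, habc'] at h1
  refine ⟨![c' / 3, (c + b') / 3, (b + a') / 3, a / 3], ?_⟩
  rw [Fin.sum_univ_four]
  have h2 : C (3 : ℂ) * p = C 3 * (C (c' / 3) * (X 1 ^ 0 * X 2 ^ 3) +
      C ((c + b') / 3) * (X 1 ^ 1 * X 2 ^ 2) + C ((b + a') / 3) * (X 1 ^ 2 * X 2 ^ 1) +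
      C (a / 3) * (X 1 ^ 3 * X 2 ^ 0)) := by
    have e1 : C (c' / 3) * C 3 = (C c' : MvPolynomial (Fin 3) ℂ) := by
      rw [← C_mul]; congr 1; ring
    have e2 : C ((c + b') / 3) * C 3 = (C c + C b' : MvPolynomial (Fin 3) ℂ) := by
      rw [← C_mul, ← C_add]; congr 1; ring
    have e3 : C ((b + a') / 3) * C 3 = (C b + C a' : MvPolynomial (Fin 3) ℂ) := by
      rw [← C_mul, ← C_add]; congr 1; ring
    have e4 : C (a / 3) * C 3 = (C a : MvPolynomial (Fin 3) ℂ) := by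
      rw [← C_mul]; congr 1; ring
    have h3 : C ((3 : ℕ) : ℂ) * p = C (3 : ℂ) * p := by norm_num
    rw [← h3, h1]
    linear_combination (-X 2 ^ 3) * e1 - (X 1 * X 2 ^ 2) * e2 - (X 1 ^ 2 * X 2) * e3 -
      X 1 ^ 3 * e4
  have h4 : (C (3 : ℂ) : MvPolynomial (Fin 3) ℂ) ≠ 0 := by
    rw [Ne, C_eq_zero]
    norm_num
  have h5 := mul_left_cancel₀ h4 h2
  rw [h5]
  rfl

/-! ### Frames fixing the first basis vector -/

lemma free_lin_vec {x : Fin 3 → ℂ} (hx : x 0 = 0) : Free (lin x) := by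
  unfold Free lin
  rw [Fin.sum_univ_three, map_add, map_add, map_mul, map_mul, map_mul, rho_X0, rho_X (by decide),
    rho_X (by decide), rho_C, rho_C, rho_C, hx, C_0, zero_mul, zero_mul]

lemma free_th {B : Matrix (Fin 3) (Fin 3) ℂ} (h1 : B 1 0 = 0) (h2 : B 2 0 = 0)
    {p : MvPolynomial (Fin 3) ℂ} (hp : Free p) : Free (th B p) := by
  have key : ∀ q : MvPolynomial (Fin 3) ℂ, Free (th B (rho q)) := by
    intro q
    induction q using MvPolynomial.induction_on with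
    | C a => rw [rho_C, th_C]; exact free_C a
    | add p q hp hq => rw [map_add, map_add]; exact hp.add hq
    | mul_X p s hp =>
      rw [map_mul, map_mul]
      by_cases hs : s = 0
      · rw [hs, rho_X0, map_zero, mul_zero]; exact free_zero
      · rw [rho_X hs, th_X]
        refine hp.mul (free_lin_vec ?_)
        fin_cases s
        · exact absurd rfl hs
        · exact h1
        · exact h2
  have := key p
  rwa [hp] at this

/-- A frame: first row `(1, u1, u2)`, second row `(0, m1, m2)`, third row `(0, n1, n2)`. -/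
def frame (u1 u2 m1 m2 n1 n2 : ℂ) : Matrix (Fin 3) (Fin 3) ℂ :=
  !![1, u1, u2; 0, m1, m2; 0, n1, n2]

lemma frame_det (u1 u2 m1 m2 n1 n2 : ℂ) :
    (frame u1 u2 m1 m2 n1 n2).det = m1 * n2 - m2 * n1 := by
  unfold frame
  rw [Matrix.det_fin_three]
  simp
  
lemma frame_e0 (u1 u2 m1 m2 n1 n2 : ℂ) : (frame u1 u2 m1 m2 n1 n2).mulVec e0 = e0 := by
  funext s
  unfold frame e0
  fin_cases s <;> simp [Matrix.mulVec, dotProduct, Fin.sum_univ_three]

lemma frame_act {d : ℕ} {L : Fin d → Fin 3 → ℂ} {i : Fin d} (hi : L i = e0)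
    (u1 u2 m1 m2 n1 n2 : ℂ) : act (frame u1 u2 m1 m2 n1 n2) L i = e0 := by
  unfold act
  rw [hi, frame_e0]

lemma frame_inv {u1 u2 m1 m2 n1 n2 : ℂ} (h : m1 * n2 - m2 * n1 ≠ 0) :
    (frame u1 u2 m1 m2 n1 n2)⁻¹ 1 0 = 0 ∧ (frame u1 u2 m1 m2 n1 n2)⁻¹ 2 0 = 0 := by
  have hA : IsUnit (frame u1 u2 m1 m2 n1 n2).det := by
    rw [frame_det]
    exact isUnit_iff_ne_zero.mpr h
  have h1 : (frame u1 u2 m1 m2 n1 n2)⁻¹.mulVec e0 = e0 := by
    conv_lhs => rw [← frame_e0 u1 u2 m1 m2 n1 n2]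
    rw [Matrix.mulVec_mulVec, Matrix.nonsing_inv_mul _ hA, Matrix.one_mulVec]
  constructor
  · have := congrFun h1 1
    simpa [e0, Matrix.mulVec, dotProduct, Fin.sum_univ_three] using this
  · have := congrFun h1 2
    simpa [e0, Matrix.mulVec, dotProduct, Fin.sum_univ_three] using this

lemma frame_X0 (u1 u2 m1 m2 n1 n2 : ℂ) : th (frame u1 u2 m1 m2 n1 n2) (X 0) =
    X 0 + (C u1 * X 1 + C u2 * X 2) := by
  rw [th_X]
  unfold lin frame
  rw [Fin.sum_univ_three]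
  simp
  ring

lemma frame_X1 (u1 u2 m1 m2 n1 n2 : ℂ) : th (frame u1 u2 m1 m2 n1 n2) (X 1) =
    C m1 * X 1 + C m2 * X 2 := by
  rw [th_X]
  unfold lin frame
  rw [Fin.sum_univ_three]
  simp

lemma frame_X2 (u1 u2 m1 m2 n1 n2 : ℂ) : th (frame u1 u2 m1 m2 n1 n2) (X 2) =
    C n1 * X 1 + C n2 * X 2 := by
  rw [th_X]
  unfold lin frame
  rw [Fin.sum_univ_three]
  simp

lemma exists_compl {m1 m2 : ℂ} (h : m1 ≠ 0 ∨ m2 ≠ 0) : ∃ n1 n2 : ℂ, m1 * n2 - m2 * n1 ≠ 0 := by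
  rcases h with h | h
  · exact ⟨0, 1, by simpa using h⟩
  · exact ⟨1, 0, by simpa using h⟩

lemma lin_ne {m1 m2 : ℂ} (h : (C m1 * X 1 + C m2 * X 2 : MvPolynomial (Fin 3) ℂ) ≠ 0) :
    m1 ≠ 0 ∨ m2 ≠ 0 := by
  by_contra hc
  push Not at hc
  apply h
  rw [hc.1, hc.2, C_0, zero_mul, zero_mul, add_zero]

variable {d : ℕ} {L : Fin d → Fin 3 → ℂ}

/-- A square of a linear form does not kill the restricted product. -/
lemma sq_normal (hL : Pos L) (hd : 4 ≤ d) {i : Fin d} (hi : L i = e0)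
    {g0 : MvPolynomial (Fin 3) ℂ} (hg0 : Free g0) (h : X 0 * X 1 ^ 2 + g0 ∈ annI (arr L)) :
    False := by
  rw [ap_iff] at h
  have h1 : (X 0 * X 1 ^ 2 + g0 : MvPolynomial (Fin 3) ℂ) = g0 + X 0 * X 1 ^ 2 + X 0 ^ 2 * 0 +
      X 0 ^ 3 * 0 := by ring
  rw [h1] at h
  have hX1 : Free (X 1) := free_X (by decide)
  have h2 := La_rel hg0 (hX1.pow 2) free_zero free_zero h 0
  rw [ap_zero', ap_zero', add_zero, add_zero, La_zero hi, map_zero, zero_add, zero_add] at h2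
  have h3 : ∀ k, (dh (La (arr L) 1)).coeff (k + 2) = 0 := by
    intro k
    have h4 := congrArg (fun p => (dh p).coeff k) h2
    simp only [map_zero, Polynomial.coeff_zero] at h4
    rw [coeff_dh1_pow] at h4
    rcases mul_eq_zero.mp h4 with h5 | h5
    · exfalso
      have h6 : (k + 2).descFactorial 2 ≠ 0 := by
        rw [Ne, Nat.descFactorial_eq_zero_iff_lt]
        omega
      exact h6 (by exact_mod_cast h5)
    · exact h5
  have hx : ∀ j, j ≠ i → L j 1 ≠ 0 := fun j hj => x_ne hL hd hi (by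
    have h5 := h3 (d - 4)
    rwa [show d - 4 + 2 = d - 2 by omega] at h5) hj
  have h6 := coeff_prod_lin (Finset.univ.erase i) (fun j => L j 1) (fun j => L j 2)
  rw [card_one, ← dh_La_one hi] at h6
  have h7 := h3 (d - 3)
  rw [show d - 3 + 2 = d - 1 by omega, h6, Finset.prod_eq_zero_iff] at h7
  obtain ⟨j, hj1, hj2⟩ := h7
  exact hx j (Finset.mem_erase.mp hj1).1 hj2

lemma sq_frame (hL : Pos L) (hd : 4 ≤ d) {i : Fin d} (hi : L i = e0)
    {M g0 : MvPolynomial (Fin 3) ℂ} (hM : Free M) (hM1 : M.IsHomogeneous 1) (hM0 : M ≠ 0)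
    (hg0 : Free g0) (h : X 0 * M ^ 2 + g0 ∈ annI (arr L)) : False := by
  obtain ⟨m1, m2, rfl⟩ := free_lin hM hM1
  obtain ⟨n1, n2, hn⟩ := exists_compl (lin_ne hM0)
  have hA : IsUnit (frame 0 0 m1 m2 n1 n2).det := by
    rw [frame_det]
    exact isUnit_iff_ne_zero.mpr hn
  obtain ⟨hi1, hi2⟩ := frame_inv (u1 := 0) (u2 := 0) hn
  refine sq_normal (hL.act hA) hd (frame_act hi 0 0 m1 m2 n1 n2) (free_th hi1 hi2 hg0) ?_
  rw [mem_act hA, map_add, map_mul, map_pow, th_left hA, frame_X0, frame_X1]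
  rw [C_0, zero_mul, zero_mul, add_zero, add_zero]
  exact h

lemma node_frame (hL : Pos L) (hd : 8 ≤ d) {i : Fin d} (hi : L i = e0)
    {m1 m2 n1 n2 : ℂ} (hn : m1 * n2 - m2 * n1 ≠ 0) {Q : MvPolynomial (Fin 3) ℂ} (hQ : Free Q)
    (hQ2 : Q.IsHomogeneous 2)
    (h : (C n1 * X 1 + C n2 * X 2) * (X 0 * (C m1 * X 1 + C m2 * X 2) + Q) ∈ annI (arr L)) :
    False := by
  have hA0 : IsUnit (frame 0 0 m1 m2 n1 n2).det := by
    rw [frame_det]
    exact isUnit_iff_ne_zero.mpr hn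
  obtain ⟨hi1, hi2⟩ := frame_inv (u1 := 0) (u2 := 0) hn
  obtain ⟨a, b, c, habc⟩ := free_quad (free_th hi1 hi2 hQ) (th_homog _ hQ2)
  have hQeq := congrArg (th (frame 0 0 m1 m2 n1 n2)) habc
  rw [th_left hA0] at hQeq
  simp only [map_add, map_mul, map_pow, th_C, frame_X1, frame_X2] at hQeq
  -- the adapted frame
  have hA : IsUnit (frame (a * m1 + b * n1) (a * m2 + b * n2) m1 m2 n1 n2).det := by
    rw [frame_det]
    exact isUnit_iff_ne_zero.mpr hn
  refine node_normal (hL.act hA) hd (frame_act hi _ _ m1 m2 n1 n2) (e := c) ?_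
  rw [mem_act hA]
  simp only [map_add, map_mul, map_pow, th_C, frame_X0, frame_X1, frame_X2]
  have e : (C n1 * X 1 + C n2 * X 2) * (X 0 * (C m1 * X 1 + C m2 * X 2) + Q) =
      (C n1 * X 1 + C n2 * X 2) *
      ((X 0 + ((C a * C m1 + C b * C n1) * X 1 + (C a * C m2 + C b * C n2) * X 2)) *
        (C m1 * X 1 + C m2 * X 2) + C c * (C n1 * X 1 + C n2 * X 2) ^ 2) := by
    rw [hQeq]
    ring
  rw [← e]
  exact h

end Pool.Agent.Helper73.Six
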