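import Pool.Agent.Helper73.Six.Equiv
import Pool.Agent.Helper41.Hk.Op

set_option autoImplicit false

/-!
# Expansion along one line

`rho` sets the variable `X 0` to zero; `Free p` means that `p` does not contain `X 0`.
-/

open MvPolynomial

namespace Pool.Agent.Helper73.Six

open Pool.Agent.Helper74.Apol Pool.Agent.Helper41.Hk

/-- Set `X 0` to zero. -/
noncomputable def rho : MvPolynomial (Fin 3) ℂ →ₐ[ℂ] MvPolynomial (Fin 3) ℂ :=
  aeval fun s => if s = 0 then 0 else X s

/-- `p` does not contain `X 0`. -/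
def Free (p : MvPolynomial (Fin 3) ℂ) : Prop := rho p = p

lemma rho_X0 : rho (X 0) = 0 := by
  unfold rho
  rw [aeval_X, if_pos rfl]

lemma rho_X {s : Fin 3} (hs : s ≠ 0) : rho (X s) = X s := by
  unfold rho
  rw [aeval_X, if_neg hs]

lemma rho_C (c : ℂ) : rho (C c) = C c := by
  have := rho.commutes c
  rwa [algebraMap_eq] at this

lemma rho_rho (p : MvPolynomial (Fin 3) ℂ) : rho (rho p) = rho p := by
  induction p using MvPolynomial.induction_on with
  | C a => rw [rho_C, rho_C]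
  | add p q hp hq => rw [map_add, map_add, hp, hq]
  | mul_X p s hp =>
    rw [map_mul, map_mul, hp]
    by_cases hs : s = 0
    · rw [hs, rho_X0, map_zero]
    · rw [rho_X hs, rho_X hs]

lemma free_rho (p : MvPolynomial (Fin 3) ℂ) : Free (rho p) := rho_rho p

lemma Free.add {p q : MvPolynomial (Fin 3) ℂ} (hp : Free p) (hq : Free q) : Free (p + q) := by
  unfold Free at *
  rw [map_add, hp, hq]

lemma Free.sub {p q : MvPolynomial (Fin 3) ℂ} (hp : Free p) (hq : Free q) : Free (p - q) := by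
  unfold Free at *
  rw [map_sub, hp, hq]

lemma Free.neg {p : MvPolynomial (Fin 3) ℂ} (hp : Free p) : Free (-p) := by
  unfold Free at *
  rw [map_neg, hp]

lemma Free.mul {p q : MvPolynomial (Fin 3) ℂ} (hp : Free p) (hq : Free q) : Free (p * q) := by
  unfold Free at *
  rw [map_mul, hp, hq]

lemma Free.pow {p : MvPolynomial (Fin 3) ℂ} (hp : Free p) (n : ℕ) : Free (p ^ n) := by
  unfold Free at *
  rw [map_pow, hp]

lemma free_C (c : ℂ) : Free (C c) := rho_C c

lemma free_zero : Free 0 := map_zero rho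

lemma free_X {s : Fin 3} (hs : s ≠ 0) : Free (X s) := rho_X hs

lemma rho_homog {p : MvPolynomial (Fin 3) ℂ} {n : ℕ} (hp : p.IsHomogeneous n) :
    (rho p).IsHomogeneous n := by
  have := hp.aeval (fun s : Fin 3 => if s = 0 then (0 : MvPolynomial (Fin 3) ℂ) else X s) (n := 1)
    (fun s => by
      by_cases hs : s = 0
      · rw [if_pos hs]
        exact isHomogeneous_zero _ _ _
      · rw [if_neg hs]
        exact isHomogeneous_X ℂ s)
  rw [one_mul] at this
  exact this

/-- Uniqueness of the expansion in `X 0`. -/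
lemma free_split {p r : MvPolynomial (Fin 3) ℂ} (hp : Free p) (h : p + X 0 * r = 0) :
    p = 0 ∧ r = 0 := by
  have h1 : p = 0 := by
    have := congrArg rho h
    rw [map_add, map_mul, rho_X0, zero_mul, add_zero, map_zero] at this
    rw [← hp]
    exact this
  refine ⟨h1, ?_⟩
  rw [h1, zero_add] at h
  rcases mul_eq_zero.mp h with h2 | h2
  · exact absurd h2 (X_ne_zero _)
  · exact h2

lemma X_mul_homog {r : MvPolynomial (Fin 3) ℂ} {n : ℕ} (h : (X 0 * r).IsHomogeneous (n + 1)) :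
    r.IsHomogeneous n := by
  intro a ha
  have h1 : coeff (Finsupp.single 0 1 + a) (X 0 * r) ≠ 0 := by
    rw [coeff_X_mul]
    exact ha
  have h2 := h h1
  rw [map_add] at h2
  have h3 : (Finsupp.weight (1 : Fin 3 → ℕ)) (Finsupp.single (0 : Fin 3) 1) = (1 : ℕ) := by
    rw [Finsupp.weight_single]
    simp
  rw [h3] at h2
  omega

/-- Existence of the expansion in `X 0`. -/
lemma exists_split (p : MvPolynomial (Fin 3) ℂ) : ∃ r, p = rho p + X 0 * r := by
  induction p using MvPolynomial.induction_on with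
  | C a => exact ⟨0, by rw [rho_C, mul_zero, add_zero]⟩
  | add p q hp hq =>
    obtain ⟨r, hr⟩ := hp
    obtain ⟨r', hr'⟩ := hq
    refine ⟨r + r', ?_⟩
    conv_lhs => rw [hr, hr']
    rw [map_add]
    ring
  | mul_X p s hp =>
    obtain ⟨r, hr⟩ := hp
    by_cases hs : s = 0
    · refine ⟨p, ?_⟩
      rw [map_mul, hs, rho_X0, mul_zero, zero_add, mul_comm]
    · refine ⟨r * X s, ?_⟩
      conv_lhs => rw [hr]
      rw [map_mul, rho_X hs]
      ring

lemma exists_split_homog {p : MvPolynomial (Fin 3) ℂ} {n : ℕ} (hp : p.IsHomogeneous (n + 1)) :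
    ∃ p0 r, Free p0 ∧ p0.IsHomogeneous (n + 1) ∧ r.IsHomogeneous n ∧ p = p0 + X 0 * r := by
  obtain ⟨r, hr⟩ := exists_split p
  refine ⟨rho p, r, free_rho p, rho_homog hp, ?_, hr⟩
  refine X_mul_homog ?_
  have h1 : X 0 * r = p - rho p := by
    rw [eq_sub_iff_add_eq, add_comm]
    exact hr.symm
  rw [h1]
  exact (homogeneousSubmodule (Fin 3) ℂ (n + 1)).sub_mem hp (rho_homog hp)

lemma exists_cubic {p : MvPolynomial (Fin 3) ℂ} (hp : p.IsHomogeneous 3) :
    ∃ (p0 p1 p2 : MvPolynomial (Fin 3) ℂ) (c : ℂ), Free p0 ∧ Free p1 ∧ Free p2 ∧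
      p0.IsHomogeneous 3 ∧ p1.IsHomogeneous 2 ∧ p2.IsHomogeneous 1 ∧
      p = p0 + X 0 * p1 + X 0 ^ 2 * p2 + X 0 ^ 3 * C c := by
  obtain ⟨p0, r, hf0, h0, hr, h⟩ := exists_split_homog hp
  obtain ⟨p1, r1, hf1, h1, hr1, hh⟩ := exists_split_homog hr
  obtain ⟨p2, r2, hf2, h2, hr2, hhh⟩ := exists_split_homog hr1
  obtain ⟨c, hc⟩ := homog_zero hr2
  refine ⟨p0, p1, p2, c, hf0, hf1, hf2, h0, h1, h2, ?_⟩
  rw [h, hh, hhh, hc]
  ring

lemma exists_linear {p : MvPolynomial (Fin 3) ℂ} (hp : p.IsHomogeneous 1) :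
    ∃ (p0 : MvPolynomial (Fin 3) ℂ) (c : ℂ), Free p0 ∧ p0.IsHomogeneous 1 ∧
      p = p0 + X 0 * C c := by
  obtain ⟨p0, r, hf0, h0, hr, h⟩ := exists_split_homog hp
  obtain ⟨c, hc⟩ := homog_zero hr
  exact ⟨p0, c, hf0, h0, by rw [h, hc]⟩

/-! ### Operators -/

lemma pderiv_rho {s : Fin 3} (hs : s ≠ 0) (H : MvPolynomial (Fin 3) ℂ) :
    pderiv s (rho H) = rho (pderiv s H) := by
  induction H using MvPolynomial.induction_on with
  | C a => rw [rho_C, pderiv_C, map_zero]
  | add p q hp hq => rw [map_add, map_add, map_add, map_add, hp, hq]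
  | mul_X p t hp =>
    rw [map_mul, pderiv_mul, pderiv_mul, map_add, map_mul, map_mul, hp]
    by_cases ht : t = 0
    · subst ht
      rw [rho_X0, map_zero, mul_zero, pderiv_X_of_ne (Ne.symm hs), map_zero]
    · rw [rho_X ht]
      congr 2
      by_cases hst : t = s
      · subst hst
        rw [pderiv_X_self, map_one]
      · rw [pderiv_X_of_ne hst, map_zero]

lemma rho_ap_aux (u H : MvPolynomial (Fin 3) ℂ) : rho (ap (rho u) H) = ap (rho u) (rho H) := by
  induction u using MvPolynomial.induction_on generalizing H with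
  | C a => rw [rho_C, ap_C, ap_C, map_smul]
  | add p q hp hq => rw [map_add, ap_add, ap_add, map_add, hp, hq]
  | mul_X p s hp =>
    rw [map_mul, ap_mul, ap_mul, hp]
    by_cases hs : s = 0
    · subst hs
      have h0 : ∀ f : MvPolynomial (Fin 3) ℂ, ap (0 : MvPolynomial (Fin 3) ℂ) f = 0 := by
        intro f
        rw [map_zero, LinearMap.zero_apply]
      rw [rho_X0, h0, h0, map_zero]
    · rw [rho_X hs, ap_X, ap_X, pderiv_rho hs]

lemma rho_ap {u : MvPolynomial (Fin 3) ℂ} (hu : Free u) (H : MvPolynomial (Fin 3) ℂ) :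
    rho (ap u H) = ap u (rho H) := by
  have := rho_ap_aux u H
  rw [hu] at this
  exact this

lemma ap_comm (p q f : MvPolynomial (Fin 3) ℂ) : ap p (ap q f) = ap q (ap p f) := by
  rw [← ap_mul, ← ap_mul, mul_comm]

/-- The Taylor coefficients (times factorials) along `X 0 = 0`. -/
noncomputable def La (F : MvPolynomial (Fin 3) ℂ) (m : ℕ) : MvPolynomial (Fin 3) ℂ :=
  rho (ap (X 0 ^ m) F)

lemma La_rel {F : MvPolynomial (Fin 3) ℂ} {p0 p1 p2 p3 : MvPolynomial (Fin 3) ℂ}
    (h0 : Free p0) (h1 : Free p1) (h2 : Free p2) (h3 : Free p3)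
    (h : ap (p0 + X 0 * p1 + X 0 ^ 2 * p2 + X 0 ^ 3 * p3) F = 0) (m : ℕ) :
    ap p0 (La F m) + ap p1 (La F (m + 1)) + ap p2 (La F (m + 2)) + ap p3 (La F (m + 3)) = 0 := by
  unfold La
  rw [← rho_ap h0, ← rho_ap h1, ← rho_ap h2, ← rho_ap h3, ← map_add, ← map_add, ← map_add]
  have e : ap p0 (ap (X 0 ^ m) F) + ap p1 (ap (X 0 ^ (m + 1)) F) + ap p2 (ap (X 0 ^ (m + 2)) F) +
      ap p3 (ap (X 0 ^ (m + 3)) F) =
      ap (X 0 ^ m) (ap (p0 + X 0 * p1 + X 0 ^ 2 * p2 + X 0 ^ 3 * p3) F) := by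
    rw [← ap_mul, ← ap_mul, ← ap_mul, ← ap_mul, ← ap_mul, ← ap_add, ← ap_add, ← ap_add]
    congr 2
    ring
  rw [e, h, map_zero, map_zero]

lemma coeff_ap_X0 (H : MvPolynomial (Fin 3) ℂ) (n : ℕ) (b : Fin 3 →₀ ℕ) :
    coeff b (ap (X 0 ^ n) H) = 0 ↔ coeff (b + Finsupp.single 0 n) H = 0 := by
  induction n generalizing H b with
  | zero => rw [pow_zero, ap_one, Finsupp.single_zero, add_zero]
  | succ n ih =>
    rw [pow_succ, ap_mul, ih, ap_X, coeff_pderiv]
    have h1 : b + Finsupp.single 0 n + Finsupp.single 0 1 = b + Finsupp.single (0 : Fin 3) (n + 1) := by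
      rw [add_assoc, ← Finsupp.single_add]
    rw [h1, mul_eq_zero]
    constructor
    · rintro (h | h)
      · exact h
      · exfalso
        exact Nat.cast_add_one_ne_zero _ h
    · exact Or.inl

lemma coeff_rho (H : MvPolynomial (Fin 3) ℂ) (b : Fin 3 →₀ ℕ) (hb : b 0 = 0) :
    coeff b (rho H) = coeff b H := by
  obtain ⟨r, hr⟩ := exists_split H
  have h1 : coeff b H = coeff b (rho H) + coeff b (X 0 * r) := by
    rw [← coeff_add, ← hr]
  rw [h1, coeff_X_mul', if_neg (by simpa using hb), add_zero]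

/-- A polynomial all of whose Taylor coefficients vanish is zero. -/
lemma eq_zero_of_La {H : MvPolynomial (Fin 3) ℂ} (h : ∀ m, La H m = 0) : H = 0 := by
  ext a
  rw [coeff_zero]
  have h1 := h (a 0)
  set b : Fin 3 →₀ ℕ := a - Finsupp.single 0 (a 0) with hb
  have hb0 : b 0 = 0 := by simp [hb]
  have hba : b + Finsupp.single 0 (a 0) = a := by
    rw [hb, tsub_add_cancel_of_le]
    rw [Finsupp.single_le_iff]
  have h2 := congrArg (coeff b) h1
  unfold La at h2
  rw [coeff_rho _ b hb0, coeff_zero, coeff_ap_X0, hba] at h2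
  exact h2

/-- A free operator killing all Taylor coefficients is apolar. -/
lemma mem_of_La {F u : MvPolynomial (Fin 3) ℂ} (hu : Free u) (h : ∀ m, ap u (La F m) = 0) :
    u ∈ annI F := by
  rw [ap_iff]
  refine eq_zero_of_La fun m => ?_
  unfold La
  rw [ap_comm, rho_ap hu]
  exact h m

lemma La_of_mem {F u : MvPolynomial (Fin 3) ℂ} (hu : Free u) (h : u ∈ annI F) (m : ℕ) :
    ap u (La F m) = 0 := by
  rw [ap_iff] at h
  unfold La
  rw [← rho_ap hu, ap_comm, h, map_zero, map_zero]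

lemma pderiv_homog_iter {F : MvPolynomial (Fin 3) ℂ} {d : ℕ} (hF : F.IsHomogeneous d) (m : ℕ) :
    (ap (X 0 ^ m) F).IsHomogeneous (d - m) := by
  induction m with
  | zero => rw [pow_zero, ap_one]; exact hF
  | succ m ih =>
    rw [pow_succ', ap_mul, ap_X]
    have := IsHomogeneous.pderiv (i := (0 : Fin 3)) ih
    rwa [Nat.sub_sub] at this

lemma La_homog {F : MvPolynomial (Fin 3) ℂ} {d : ℕ} (hF : F.IsHomogeneous d) (m : ℕ) :
    (La F m).IsHomogeneous (d - m) := rho_homog (pderiv_homog_iter hF m)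

lemma La_free (F : MvPolynomial (Fin 3) ℂ) (m : ℕ) : Free (La F m) := free_rho _

end Pool.Agent.Helper73.Six
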