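import Pool.Agent.Helper73.Six.Frames

set_option autoImplicit false

/-!
# Pencils of apolar cubics at one line
-/

open MvPolynomial

namespace Pool.Agent.Helper73.Six

open Pool.Agent.Helper74.Apol Pool.Agent.Helper41.Hk

/-! ### Divisibility by linear forms -/

/-- The substitution as an algebra equivalence. -/
noncomputable def thE {A : Matrix (Fin 3) (Fin 3) ℂ} (hA : IsUnit A.det) :
    MvPolynomial (Fin 3) ℂ ≃ₐ[ℂ] MvPolynomial (Fin 3) ℂ :=
  AlgEquiv.ofAlgHom (th A) (th A⁻¹) (AlgHom.ext fun p => th_left hA p)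
    (AlgHom.ext fun p => th_right hA p)

lemma prime_lin {M : MvPolynomial (Fin 3) ℂ} (hM : Free M) (hM1 : M.IsHomogeneous 1)
    (hM0 : M ≠ 0) : Prime M := by
  obtain ⟨m1, m2, rfl⟩ := free_lin hM hM1
  obtain ⟨n1, n2, hn⟩ := exists_compl (lin_ne hM0)
  have hA : IsUnit (frame 0 0 m1 m2 n1 n2).det := by
    rw [frame_det]
    exact isUnit_iff_ne_zero.mpr hn
  have h1 : Prime (X 1 : MvPolynomial (Fin 3) ℂ) := X_prime
  have h2 := (MulEquiv.prime_iff (thE hA).toMulEquiv (p := (X 1 : MvPolynomial (Fin 3) ℂ))).mpr h1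
  have h3 : (thE hA).toMulEquiv (X 1) = C m1 * X 1 + C m2 * X 2 := frame_X1 0 0 m1 m2 n1 n2
  rw [h3] at h2
  exact h2

lemma factor_homog {a b : MvPolynomial (Fin 3) ℂ} {m n : ℕ} (ha : a.IsHomogeneous m) (ha0 : a ≠ 0)
    (hab : (a * b).IsHomogeneous (m + n)) : b.IsHomogeneous n := by
  have h1 := comp_mul ha b (m + n)
  rw [if_pos (by omega), Nat.add_sub_cancel_left, mul_comm b a, homogeneousComponent_of_mem hab,
    if_pos rfl, mul_comm a b] at h1
  have h2 := mul_right_cancel₀ ha0 h1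
  rw [h2]
  exact homogeneousComponent_isHomogeneous n b

lemma factor_free {a b : MvPolynomial (Fin 3) ℂ} (ha : Free a) (ha0 : a ≠ 0)
    (hab : Free (a * b)) : Free b := by
  unfold Free at *
  rw [map_mul, ha] at hab
  exact mul_left_cancel₀ ha0 hab

/-! ### The expansion of a linear combination -/

/-- Coefficients of `X 0` vanish one by one. -/
lemma split5 {a b c d e : MvPolynomial (Fin 3) ℂ} (ha : Free a) (hb : Free b) (hc : Free c)
    (hd : Free d) (he : Free e)
    (h : a + X 0 * b + X 0 ^ 2 * c + X 0 ^ 3 * d + X 0 ^ 4 * e = 0) :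
    a = 0 ∧ b = 0 ∧ c = 0 ∧ d = 0 ∧ e = 0 := by
  obtain ⟨h1, h2⟩ := free_split ha (r := b + X 0 * c + X 0 ^ 2 * d + X 0 ^ 3 * e)
    (by rw [← h]; ring)
  obtain ⟨h3, h4⟩ := free_split hb (r := c + X 0 * d + X 0 ^ 2 * e) (by rw [← h2]; ring)
  obtain ⟨h5, h6⟩ := free_split hc (r := d + X 0 * e) (by rw [← h4]; ring)
  obtain ⟨h7, h8⟩ := free_split hd (r := e) h6
  exact ⟨h1, h3, h5, h7, h8⟩

variable {d : ℕ} {L : Fin d → Fin 3 → ℂ}

/-- The hypotheses on two apolar cubics `g`, `g'`. -/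
structure Pen (L : Fin d → Fin 3 → ℂ) (g g' : MvPolynomial (Fin 3) ℂ) : Prop where
  mem : g ∈ annI (arr L)
  mem' : g' ∈ annI (arr L)
  hom : g.IsHomogeneous 3
  hom' : g'.IsHomogeneous 3
  ind : ∀ x y : ℂ, C x * g + C y * g' = 0 → x = 0 ∧ y = 0
  quart : ∀ p ∈ annI (arr L), p.IsHomogeneous 4 → ∃ A B : MvPolynomial (Fin 3) ℂ,
    A.IsHomogeneous 1 ∧ B.IsHomogeneous 1 ∧ p = A * g + B * g'
  nofac : ∀ q M M' : MvPolynomial (Fin 3) ℂ, q.IsHomogeneous 2 → g = M * q → g' = M' * q → False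

/-- The leaf which is proved in `Star`. -/
def StarLeaf (L : Fin d → Fin 3 → ℂ) : Prop :=
  ∀ M e h c : MvPolynomial (Fin 3) ℂ, Free M → M.IsHomogeneous 1 → M ≠ 0 → Free e →
    e.IsHomogeneous 1 → Free h → h.IsHomogeneous 2 → Free c → c.IsHomogeneous 3 →
    M * (X 0 ^ 2 + e * X 0 + h) ∈ annI (arr L) → M * c ∈ annI (arr L) → c = 0

lemma ap_neg (p f : MvPolynomial (Fin 3) ℂ) : ap (-p) f = -ap p f := by
  rw [map_neg, LinearMap.neg_apply]

lemma ap_sub (p q f : MvPolynomial (Fin 3) ℂ) : ap (p - q) f = ap p f - ap q f := by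
  rw [map_sub, LinearMap.sub_apply]

/-- Case A: `g'` has leading coefficient one in `X 0`, `g` has leading coefficient zero. -/
lemma caseA {i : Fin d} (hi : L i = e0) (hstar : StarLeaf L)
    {g g' g0 g1 g2 g0' g1' g2' : MvPolynomial (Fin 3) ℂ} (hP : Pen L g g')
    (f0 : Free g0) (f1 : Free g1) (f2 : Free g2) (f0' : Free g0') (f1' : Free g1')
    (f2' : Free g2') (h0 : g0.IsHomogeneous 3) (h1 : g1.IsHomogeneous 2) (h2 : g2.IsHomogeneous 1)
    (h0' : g0'.IsHomogeneous 3) (h1' : g1'.IsHomogeneous 2) (h2' : g2'.IsHomogeneous 1)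
    (hg : g = g0 + X 0 * g1 + X 0 ^ 2 * g2) (hg' : g' = g0' + X 0 * g1' + X 0 ^ 2 * g2' + X 0 ^ 3) :
    Free g := by
  set F := arr L with hF
  -- relations
  have e1 : ap (g0 + X 0 * g1 + X 0 ^ 2 * g2 + X 0 ^ 3 * 0) F = 0 := by
    rw [mul_zero, add_zero, ← hg, ← ap_iff]
    exact hP.mem
  have e2 : ap (g0' + X 0 * g1' + X 0 ^ 2 * g2' + X 0 ^ 3 * 1) F = 0 := by
    rw [mul_one, ← hg', ← ap_iff]
    exact hP.mem'
  have r := La_rel f0 f1 f2 free_zero e1
  have r' := La_rel f0' f1' f2' (map_one rho) e2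
  simp only [ap_zero', add_zero, ap_one] at r r'
  have hL0 : La F 0 = 0 := La_zero hi
  have r0 := r 0
  have r1 := r 1
  have r0' := r' 0
  rw [hL0, map_zero, zero_add, zero_add] at r0
  rw [hL0, map_zero, zero_add, zero_add] at r0'
  norm_num at r0 r1 r0'
  -- the combination
  have r2 : ap (g0 - g2 * g1') (La F 1) + ap (g1 - g2 * g2') (La F 2) = 0 := by
    have h3 : ap g2 (ap g1' (La F 1) + ap g2' (La F 2) + La F 3) = 0 := by rw [r0', map_zero]
    rw [map_add, map_add] at h3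
    rw [ap_sub, ap_sub, ap_mul, ap_mul]
    linear_combination (exp := 1) r1 - h3
  obtain ⟨D, hD⟩ : ∃ D, D = g1 * (g1 - g2 * g2') - g2 * (g0 - g2 * g1') := ⟨_, rfl⟩
  have fD : Free D := by
    rw [hD]
    exact (f1.mul (f1.sub (f2.mul f2'))).sub (f2.mul (f0.sub (f2.mul f1')))
  have hD1 : ap D (La F 1) = 0 := by
    have e3 : ap D (La F 1) = ap (g1 - g2 * g2') (ap g1 (La F 1) + ap g2 (La F 2)) -
        ap g2 (ap (g0 - g2 * g1') (La F 1) + ap (g1 - g2 * g2') (La F 2)) := by
      rw [hD, ap_sub, ap_mul, ap_mul, map_add, map_add, ap_comm g1 (g1 - g2 * g2'),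
        ap_comm g2 (g1 - g2 * g2')]
      abel
    rw [e3, r0, r2, map_zero, map_zero, sub_zero]
  have hD2 : ap D (La F 2) = 0 := by
    have e3 : ap D (La F 2) = ap g1 (ap (g0 - g2 * g1') (La F 1) + ap (g1 - g2 * g2') (La F 2)) -
        ap (g0 - g2 * g1') (ap g1 (La F 1) + ap g2 (La F 2)) := by
      rw [hD, ap_sub, ap_mul, ap_mul, map_add, map_add, ap_comm g1 (g0 - g2 * g1'),
        ap_comm g2 (g0 - g2 * g1')]
      abel
    rw [e3, r0, r2, map_zero, map_zero, sub_zero]
  have hDm : ∀ m, ap D (La F m) = 0 := by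
    intro m
    induction m using Nat.strong_induction_on with
    | _ m ih =>
      match m, ih with
      | 0, _ => rw [hL0, map_zero]
      | 1, _ => exact hD1
      | 2, _ => exact hD2
      | m + 3, ih =>
        have h3 : La F (m + 3) = -(ap g0' (La F m) + ap g1' (La F (m + 1)) +
            ap g2' (La F (m + 2))) := by
          rw [eq_neg_iff_add_eq_zero, add_comm]
          exact r' m
        rw [h3, map_neg, map_add, map_add, ap_comm D g0', ap_comm D g1', ap_comm D g2',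
          ih m (by omega), ih (m + 1) (by omega), ih (m + 2) (by omega), map_zero, map_zero,
          map_zero]
        simp
  have hDmem : D ∈ annI (arr L) := mem_of_La fD hDm
  have hDh : D.IsHomogeneous 4 := by
    rw [hD]
    have a1 : (g2 * g2').IsHomogeneous 2 := h2.mul h2'
    have a2 : (g1 - g2 * g2').IsHomogeneous 2 := (homogeneousSubmodule (Fin 3) ℂ 2).sub_mem h1 a1
    have a3 : (g2 * g1').IsHomogeneous 3 := h2.mul h1'
    have a4 : (g0 - g2 * g1').IsHomogeneous 3 := (homogeneousSubmodule (Fin 3) ℂ 3).sub_mem h0 a3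
    exact (homogeneousSubmodule (Fin 3) ℂ 4).sub_mem (h1.mul a2) (h2.mul a4)
  obtain ⟨A, B, hA, hB, hAB⟩ := hP.quart D hDmem hDh
  obtain ⟨A0, al, fA, hA0, rfl⟩ := exists_linear hA
  obtain ⟨B0, be, fB, hB0, rfl⟩ := exists_linear hB
  have hexp : (A0 * g0 + B0 * g0' - D) + X 0 * (C al * g0 + A0 * g1 + C be * g0' + B0 * g1') +
      X 0 ^ 2 * (C al * g1 + A0 * g2 + C be * g1' + B0 * g2') +
      X 0 ^ 3 * (C al * g2 + B0 + C be * g2') + X 0 ^ 4 * C be = 0 := by
    rw [hg, hg'] at hAB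
    linear_combination -hAB
  have fal := free_C al
  have fbe := free_C be
  obtain ⟨q0, q1, q2, q3, q4⟩ := split5 (((fA.mul f0).add (fB.mul f0')).sub fD)
    ((((fal.mul f0).add (fA.mul f1)).add (fbe.mul f0')).add (fB.mul f1'))
    ((((fal.mul f1).add (fA.mul f2)).add (fbe.mul f1')).add (fB.mul f2'))
    (((fal.mul f2).add fB).add (fbe.mul f2')) fbe hexp
  rw [q4] at q1 q2 q3
  simp only [zero_mul, add_zero] at q1 q2 q3
  -- `B0 = - al g2`
  have hB0' : B0 = -(C al * g2) := by linear_combination q3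
  rw [hB0'] at q0 q1 q2
  by_cases hg2 : g2 = 0
  · -- `g2 = 0`
    rw [hg2, mul_zero, neg_zero, zero_mul, add_zero] at q1
    rw [hg2, mul_zero, mul_zero, neg_zero, zero_mul, add_zero, add_zero] at q2
    by_cases hg1 : g1 = 0
    · rw [hg, hg1, hg2, mul_zero, mul_zero, add_zero, add_zero]
      exact f0
    · exfalso
      have hal : C al = (0 : MvPolynomial (Fin 3) ℂ) :=
        (mul_eq_zero.mp q2).resolve_right hg1
      rw [hal, zero_mul, zero_add] at q1
      have hA00 : A0 = 0 := (mul_eq_zero.mp q1).resolve_right hg1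
      rw [hA00, zero_mul, zero_add, hg2, mul_zero, neg_zero, zero_mul, zero_sub, hD, hg2, zero_mul,
        zero_mul, sub_zero, sub_zero, neg_eq_zero] at q0
      exact hg1 (by simpa using q0)
  · -- `g = g2 * q`
    exfalso
    have hprime := prime_lin f2 h2 hg2
    have hex : ∃ e, g1 = g2 * e ∧ g0 = g2 * (g1' + e * (e - g2')) := by
      by_cases hal : al = 0
      · rw [hal, C_0] at q0 q1 q2
        have hA00 : A0 = 0 := by
          have h3 : A0 * g2 = 0 := by linear_combination q2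
          exact (mul_eq_zero.mp h3).resolve_right hg2
        rw [hA00] at q0
        have hD0 : D = 0 := by linear_combination -q0
        rw [hD] at hD0
        have h3 : g2 ∣ g1 * g1 := ⟨g1 * g2' + (g0 - g2 * g1'), by linear_combination hD0⟩
        have h4 : g2 ∣ g1 := by
          rcases hprime.dvd_or_dvd h3 with h | h <;> exact h
        obtain ⟨e, he⟩ := h4
        refine ⟨e, he, ?_⟩
        have h5 : g2 * (g0 - g2 * (g1' + e * (e - g2'))) = 0 := by
          rw [he] at hD0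
          linear_combination -hD0
        have h6 := (mul_eq_zero.mp h5).resolve_left hg2
        exact sub_eq_zero.mp h6
      · have hC : (C al : MvPolynomial (Fin 3) ℂ) * C al⁻¹ = 1 := by
          rw [← C_mul, mul_inv_cancel₀ hal, C_1]
        have e3 : g1 = g2 * (g2' - C al⁻¹ * A0) := by
          linear_combination C al⁻¹ * q2 + (g2 * g2' - g1) * hC
        refine ⟨g2' - C al⁻¹ * A0, e3, ?_⟩
        have e4 : g0 = g2 * g1' - C al⁻¹ * A0 * g1 := by
          linear_combination C al⁻¹ * q1 + (g2 * g1' - g0) * hC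
        rw [e4, e3]
        ring
    obtain ⟨e, he1, he0⟩ := hex
    have he : e.IsHomogeneous 1 := by
      rw [he1] at h1
      exact factor_homog h2 hg2 h1
    have fe : Free e := by
      rw [he1] at f1
      exact factor_free f2 hg2 f1
    obtain ⟨h, hh⟩ : ∃ h, h = g1' + e * (e - g2') := ⟨_, rfl⟩
    rw [← hh] at he0
    have heg : (e - g2').IsHomogeneous 1 := (homogeneousSubmodule (Fin 3) ℂ 1).sub_mem he h2'
    have hh2 : h.IsHomogeneous 2 := by
      rw [hh]
      exact h1'.add (he.mul heg)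
    have fh : Free h := by
      rw [hh]
      exact f1'.add (fe.mul (fe.sub f2'))
    have hgq : g = g2 * (X 0 ^ 2 + e * X 0 + h) := by
      rw [hg, he1, he0]
      ring
    obtain ⟨c, hc⟩ : ∃ c, c = g0' - (g2' - e) * h := ⟨_, rfl⟩
    have hg'q : g' = (X 0 + (g2' - e)) * (X 0 ^ 2 + e * X 0 + h) + c := by
      rw [hg', hc, hh]
      ring
    have heg' : (g2' - e).IsHomogeneous 1 := (homogeneousSubmodule (Fin 3) ℂ 1).sub_mem h2' he
    have hch : c.IsHomogeneous 3 := by
      rw [hc]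
      exact (homogeneousSubmodule (Fin 3) ℂ 3).sub_mem h0' (heg'.mul hh2)
    have fc : Free c := by
      rw [hc]
      exact f0'.sub ((f2'.sub fe).mul fh)
    have hmem1 : g2 * (X 0 ^ 2 + e * X 0 + h) ∈ annI (arr L) := by
      rw [← hgq]
      exact hP.mem
    have hmem2 : g2 * c ∈ annI (arr L) := by
      have e5 : g2 * c = g2 * g' - (X 0 + (g2' - e)) * g := by
        rw [hgq, hg'q]
        ring
      rw [e5]
      exact Ideal.sub_mem _ (Ideal.mul_mem_left _ _ hP.mem') (Ideal.mul_mem_left _ _ hP.mem)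
    have hc0 := hstar g2 e h c f2 h2 hg2 fe he fh hh2 fc hch hmem1 hmem2
    rw [hc0, add_zero] at hg'q
    refine hP.nofac _ _ _ ?_ hgq hg'q
    have a1 : (X 0 ^ 2 : MvPolynomial (Fin 3) ℂ).IsHomogeneous 2 := isHomogeneous_X_pow 0 2
    have a2 : (e * X 0).IsHomogeneous 2 := he.mul (isHomogeneous_X ℂ 0)
    exact (a1.add a2).add hh2

end Pool.Agent.Helper73.Six
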