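import Pool.Agent.Helper73.Six.Local

set_option autoImplicit false

/-!
# Pencils of apolar cubics with base point at the line
-/

open MvPolynomial

namespace Pool.Agent.Helper73.Six

open Pool.Agent.Helper74.Apol Pool.Agent.Helper41.Hk

variable {d : ℕ} {L : Fin d → Fin 3 → ℂ}

lemma coeff_dh_mon {p : MvPolynomial (Fin 3) ℂ} {n : ℕ} (hp : p.IsHomogeneous n) (r s k : ℕ) :
    (dh (ap (X 1 ^ r * X 2 ^ s) p)).coeff k = ((k + r).descFactorial r : ℂ) *
      (((n - (k + r)).descFactorial s : ℂ) * (dh p).coeff (k + r)) := by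
  rw [ap_mul, coeff_dh1_pow, coeff_dh2_pow hp]

/-- The restricted product if it is killed by `X 1 * X 2`. -/
lemma ends (hL : Pos L) (hd : 5 ≤ d) {i : Fin d} (hi : L i = e0)
    (h : ap (X 1 * X 2) (La (arr L) 1) = 0) :
    (∀ n, n ≠ 0 → n ≠ d - 1 → (dh (La (arr L) 1)).coeff n = 0) ∧
      (dh (La (arr L) 1)).coeff 0 ≠ 0 ∧ (dh (La (arr L) 1)).coeff (d - 1) ≠ 0 := by
  have hF := arr_homog L
  have hz : ∀ n, n ≠ 0 → n ≠ d - 1 → (dh (La (arr L) 1)).coeff n = 0 := by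
    intro n hn0 hnD
    obtain ⟨k, rfl⟩ := Nat.exists_eq_succ_of_ne_zero hn0
    have h1 := congrArg (fun p => (dh p).coeff k) h
    simp only [map_zero, Polynomial.coeff_zero] at h1
    rw [ap_mul, coeff_dh1, coeff_dh2 (La_homog hF 1)] at h1
    rcases mul_eq_zero.mp h1 with h2 | h2
    · exact absurd h2 (Nat.cast_add_one_ne_zero k)
    · rcases mul_eq_zero.mp h2 with h3 | h3
      · exfalso
        apply hnD
        have h4 := sub_eq_zero.mp h3
        exact (by exact_mod_cast h4.symm)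
      · exact h3
  have hx : ∀ j, j ≠ i → L j 1 ≠ 0 := fun j hj => x_ne hL (by omega) hi
    (hz _ (by omega) (by omega)) hj
  have hal : (dh (La (arr L) 1)).coeff (d - 1) ≠ 0 := by
    have h2 := coeff_prod_lin (Finset.univ.erase i) (fun j => L j 1) (fun j => L j 2)
    rw [card_one, ← dh_La_one hi] at h2
    rw [h2, Finset.prod_ne_zero_iff]
    exact fun j hj => hx j (Finset.mem_erase.mp hj).1
  refine ⟨hz, ?_, hal⟩
  intro h0
  have f1eq : dh (La (arr L) 1) =
      Polynomial.C ((dh (La (arr L) 1)).coeff (d - 1)) * Polynomial.X ^ (d - 1) := by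
    ext n
    rw [Polynomial.coeff_C_mul_X_pow]
    by_cases hnD : n = d - 1
    · rw [if_pos hnD, hnD]
    · rw [if_neg hnD]
      by_cases hn0 : n = 0
      · rw [hn0, h0]
      · exact hz n hn0 hnD
  obtain ⟨a, b, c, ha, hb, hc, hab, hac, hbc⟩ := three_others (d := d) (by omega) i
  have h1 : ∀ j, j ≠ i → -(L j 2) / L j 1 = 0 := by
    intro j hj
    have h2 := root_La hi hj (hx j hj)
    rw [f1eq] at h2
    simp only [Polynomial.eval_mul, Polynomial.eval_C, Polynomial.eval_pow,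
      Polynomial.eval_X] at h2
    rcases mul_eq_zero.mp h2 with h3 | h3
    · exact absurd h3 hal
    · exact pow_eq_zero_iff (by omega) |>.mp h3
  exact t_inj hL hi ha hb hab (hx a ha) (hx b hb) (by rw [h1 a ha, h1 b hb])

lemma nodeN_normal (hL : Pos L) (hd : 8 ≤ d) {i : Fin d} (hi : L i = e0)
    {g0 g0' g1' N : MvPolynomial (Fin 3) ℂ} (f0 : Free g0) (f0' : Free g0') (f1' : Free g1')
    (fN : Free N) (h0 : g0.IsHomogeneous 3) (hN : N.IsHomogeneous 1) (hN0 : N ≠ 0)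
    (h : g0 + X 0 * (X 1 * X 2) ∈ annI (arr L))
    (h' : g0' + X 0 * g1' + X 0 ^ 2 * N ∈ annI (arr L)) : False := by
  have hF := arr_homog L
  set F := arr L with hFdef
  have hX1 : Free (X 1) := free_X (by decide)
  have hX2 : Free (X 2) := free_X (by decide)
  have e1 : ap (g0 + X 0 * (X 1 * X 2) + X 0 ^ 2 * 0 + X 0 ^ 3 * 0) F = 0 := by
    rw [mul_zero, mul_zero, add_zero, add_zero, ← ap_iff]
    exact h
  have e2 : ap (g0' + X 0 * g1' + X 0 ^ 2 * N + X 0 ^ 3 * 0) F = 0 := by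
    rw [mul_zero, add_zero, ← ap_iff]
    exact h'
  have r := La_rel f0 (hX1.mul hX2) free_zero free_zero e1
  have r' := La_rel f0' f1' fN free_zero e2
  simp only [ap_zero', add_zero] at r r'
  have hL0 : La F 0 = 0 := La_zero hi
  have r0 : ap (X 1 * X 2) (La F 1) = 0 := by
    have h3 := r 0
    rw [hL0, map_zero] at h3
    simpa only [zero_add] using h3
  have r1 : ap g0 (La F 1) + ap (X 1 * X 2) (La F 2) = 0 := r 1
  have r0' : ap g1' (La F 1) + ap N (La F 2) = 0 := by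
    have h3 := r' 0
    rw [hL0, map_zero] at h3
    simpa only [zero_add] using h3
  obtain ⟨hz, hb0, ha0⟩ := ends hL (by omega) hi r0
  have hNg : ap (N * g0) (La F 1) = 0 := by
    have h3 : ap g0 (La F 1) = -ap (X 1 * X 2) (La F 2) := eq_neg_of_add_eq_zero_left r1
    have h4 : ap N (La F 2) = -ap g1' (La F 1) := eq_neg_of_add_eq_zero_right r0'
    rw [ap_mul, h3, map_neg, ap_comm N, h4, map_neg, neg_neg, ap_comm _ g1', r0, map_zero]
  obtain ⟨k, hk⟩ := free_cubic f0 h0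
  obtain ⟨a, b, hab⟩ := free_lin fN hN
  rw [Fin.sum_univ_four] at hk
  have hNexp : N * g0 = C (b * k 0) * (X 1 ^ 0 * X 2 ^ 4) +
      C (a * k 0 + b * k 1) * (X 1 ^ 1 * X 2 ^ 3) + C (a * k 1 + b * k 2) * (X 1 ^ 2 * X 2 ^ 2) +
      C (a * k 2 + b * k 3) * (X 1 ^ 3 * X 2 ^ 1) + C (a * k 3) * (X 1 ^ 4 * X 2 ^ 0) := by
    rw [hk, hab]
    simp only [C_add, C_mul, Fin.val_zero, Fin.val_one, Fin.val_two]
    change (C a * X 1 + C b * X 2) * (C (k 0) * (X 1 ^ 0 * X 2 ^ (3 - 0)) +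
      C (k 1) * (X 1 ^ 1 * X 2 ^ (3 - 1)) + C (k 2) * (X 1 ^ 2 * X 2 ^ (3 - 2)) +
      C (k 3) * (X 1 ^ 3 * X 2 ^ (3 - 3))) = _
    ring
  have hco : ∀ m : ℕ, (dh (ap (N * g0) (La F 1))).coeff m = 0 := by
    intro m
    rw [hNg, map_zero, Polynomial.coeff_zero]
  have hco2 : ∀ m : ℕ,
      b * k 0 * (((m + 0).descFactorial 0 : ℂ) *
        (((d - 1 - (m + 0)).descFactorial 4 : ℂ) * (dh (La F 1)).coeff (m + 0))) +
      (a * k 0 + b * k 1) * (((m + 1).descFactorial 1 : ℂ) *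
        (((d - 1 - (m + 1)).descFactorial 3 : ℂ) * (dh (La F 1)).coeff (m + 1))) +
      (a * k 1 + b * k 2) * (((m + 2).descFactorial 2 : ℂ) *
        (((d - 1 - (m + 2)).descFactorial 2 : ℂ) * (dh (La F 1)).coeff (m + 2))) +
      (a * k 2 + b * k 3) * (((m + 3).descFactorial 3 : ℂ) *
        (((d - 1 - (m + 3)).descFactorial 1 : ℂ) * (dh (La F 1)).coeff (m + 3))) +
      a * k 3 * (((m + 4).descFactorial 4 : ℂ) *
        (((d - 1 - (m + 4)).descFactorial 0 : ℂ) * (dh (La F 1)).coeff (m + 4))) = 0 := by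
    intro m
    have h5 := hco m
    rw [hNexp] at h5
    rw [ap_add, ap_add, ap_add, ap_add, ap_mul (C _), ap_mul (C _), ap_mul (C _), ap_mul (C _),
      ap_mul (C _), ap_C, ap_C, ap_C, ap_C, ap_C] at h5
    simp only [map_add, map_smul, Polynomial.coeff_add,
      Polynomial.coeff_smul, smul_eq_mul] at h5
    rw [coeff_dh_mon (La_homog hF 1), coeff_dh_mon (La_homog hF 1), coeff_dh_mon (La_homog hF 1),
      coeff_dh_mon (La_homog hF 1), coeff_dh_mon (La_homog hF 1)] at h5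
    exact h5
  have hbk : b * k 0 = 0 := by
    have h5 := hco2 0
    rw [hz (0 + 1) (by omega) (by omega), hz (0 + 2) (by omega) (by omega),
      hz (0 + 3) (by omega) (by omega), hz (0 + 4) (by omega) (by omega)] at h5
    simp only [mul_zero, add_zero, Nat.descFactorial_zero, Nat.cast_one, one_mul] at h5
    rcases mul_eq_zero.mp h5 with h6 | h6
    · exact h6
    · exfalso
      rcases mul_eq_zero.mp h6 with h7 | h7
      · have h8 : (d - 1 - 0).descFactorial 4 = 0 := by exact_mod_cast h7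
        rw [Nat.descFactorial_eq_zero_iff_lt] at h8
        omega
      · exact hb0 h7
  have hak : a * k 3 = 0 := by
    have h5 := hco2 (d - 5)
    rw [hz (d - 5 + 0) (by omega) (by omega), hz (d - 5 + 1) (by omega) (by omega),
      hz (d - 5 + 2) (by omega) (by omega), hz (d - 5 + 3) (by omega) (by omega)] at h5
    simp only [mul_zero, zero_add, Nat.descFactorial_zero, Nat.cast_one, one_mul] at h5
    rw [show d - 5 + 4 = d - 1 by omega] at h5
    rcases mul_eq_zero.mp h5 with h6 | h6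
    · exact h6
    · exfalso
      rcases mul_eq_zero.mp h6 with h7 | h7
      · have h8 : (d - 1).descFactorial 4 = 0 := by exact_mod_cast h7
        rw [Nat.descFactorial_eq_zero_iff_lt] at h8
        omega
      · exact ha0 h7
  have hquad : ∀ x y z : ℂ, (C x * X 1 ^ 2 + C y * (X 1 * X 2) + C z * X 2 ^ 2 :
      MvPolynomial (Fin 3) ℂ).IsHomogeneous 2 := by
    intro x y z
    have hC : ∀ c : ℂ, (C c : MvPolynomial (Fin 3) ℂ).IsHomogeneous 0 := fun c =>
      isHomogeneous_C _ c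
    have a1 := (hC x).mul (isHomogeneous_X_pow (R := ℂ) (1 : Fin 3) 2)
    have a2 := (hC y).mul ((isHomogeneous_X ℂ (1 : Fin 3)).mul (isHomogeneous_X ℂ (2 : Fin 3)))
    have a3 := (hC z).mul (isHomogeneous_X_pow (R := ℂ) (2 : Fin 3) 2)
    rw [zero_add] at a1 a2 a3
    exact (a1.add a2).add a3
  have fquad : ∀ x y z : ℂ, Free (C x * X 1 ^ 2 + C y * (X 1 * X 2) + C z * X 2 ^ 2) := by
    intro x y z
    exact (((free_C x).mul (hX1.pow 2)).add ((free_C y).mul (hX1.mul hX2))).add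
      ((free_C z).mul (hX2.pow 2))
  have hk' : g0 = C (k 0) * X 2 ^ 3 + C (k 1) * (X 1 * X 2 ^ 2) + C (k 2) * (X 1 ^ 2 * X 2) +
      C (k 3) * X 1 ^ 3 := by
    rw [hk]
    change C (k 0) * (X 1 ^ 0 * X 2 ^ (3 - 0)) +
      C (k 1) * (X 1 ^ 1 * X 2 ^ (3 - 1)) + C (k 2) * (X 1 ^ 2 * X 2 ^ (3 - 2)) +
      C (k 3) * (X 1 ^ 3 * X 2 ^ (3 - 3)) = _
    ring
  by_cases ha : a = 0
  · have hb : b ≠ 0 := by
      intro hb
      apply hN0
      rw [hab, ha, hb, C_0, zero_mul, zero_mul, add_zero]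
    have hk0 : k 0 = 0 := (mul_eq_zero.mp hbk).resolve_left hb
    refine node_frame hL hd hi (m1 := 0) (m2 := 1) (n1 := 1) (n2 := 0) (by norm_num)
      (fquad (k 3) (k 2) (k 1)) (hquad _ _ _) ?_
    have e3 : (C 1 * X 1 + C 0 * X 2) * (X 0 * (C 0 * X 1 + C 1 * X 2) +
        (C (k 3) * X 1 ^ 2 + C (k 2) * (X 1 * X 2) + C (k 1) * X 2 ^ 2)) =
        g0 + X 0 * (X 1 * X 2) := by
      rw [hk', hk0, C_0, C_1]
      ring
    rw [e3]
    exact h
  · have hk3 : k 3 = 0 := (mul_eq_zero.mp hak).resolve_left ha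
    refine node_frame hL hd hi (m1 := 1) (m2 := 0) (n1 := 0) (n2 := 1) (by norm_num)
      (fquad (k 2) (k 1) (k 0)) (hquad _ _ _) ?_
    have e3 : (C 0 * X 1 + C 1 * X 2) * (X 0 * (C 1 * X 1 + C 0 * X 2) +
        (C (k 2) * X 1 ^ 2 + C (k 1) * (X 1 * X 2) + C (k 0) * X 2 ^ 2)) =
        g0 + X 0 * (X 1 * X 2) := by
      rw [hk', hk3, C_0, C_1]
      ring
    rw [e3]
    exact h

lemma frame_inv_X0 {m1 m2 n1 n2 : ℂ} (hn : m1 * n2 - m2 * n1 ≠ 0) :
    th (frame 0 0 m1 m2 n1 n2)⁻¹ (X 0) = X 0 := by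
  have hA : IsUnit (frame 0 0 m1 m2 n1 n2).det := by
    rw [frame_det]
    exact isUnit_iff_ne_zero.mpr hn
  have h1 : th (frame 0 0 m1 m2 n1 n2) (X 0) = X 0 := by
    rw [frame_X0, C_0, zero_mul, zero_mul, add_zero, add_zero]
  conv_lhs => rw [← h1]
  rw [th_right hA]

lemma nodeN_frame (hL : Pos L) (hd : 8 ≤ d) {i : Fin d} (hi : L i = e0)
    {m1 m2 n1 n2 : ℂ} (hn : m1 * n2 - m2 * n1 ≠ 0)
    {g0 g0' g1' N : MvPolynomial (Fin 3) ℂ} (f0 : Free g0) (f0' : Free g0') (f1' : Free g1')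
    (fN : Free N) (h0 : g0.IsHomogeneous 3) (hN : N.IsHomogeneous 1) (hN0 : N ≠ 0)
    (h : g0 + X 0 * ((C m1 * X 1 + C m2 * X 2) * (C n1 * X 1 + C n2 * X 2)) ∈ annI (arr L))
    (h' : g0' + X 0 * g1' + X 0 ^ 2 * N ∈ annI (arr L)) : False := by
  have hA : IsUnit (frame 0 0 m1 m2 n1 n2).det := by
    rw [frame_det]
    exact isUnit_iff_ne_zero.mpr hn
  obtain ⟨hi1, hi2⟩ := frame_inv (u1 := 0) (u2 := 0) hn
  have hX0 : th (frame 0 0 m1 m2 n1 n2) (X 0) = X 0 := by
    rw [frame_X0, C_0, zero_mul, zero_mul, add_zero, add_zero]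
  refine nodeN_normal (hL.act hA) hd (frame_act hi 0 0 m1 m2 n1 n2) (free_th hi1 hi2 f0)
    (free_th hi1 hi2 f0') (free_th hi1 hi2 f1') (free_th hi1 hi2 fN) (th_homog _ h0)
    (th_homog _ hN) ?_ ?_ ?_
  · intro hc
    apply hN0
    rw [← th_left hA N, hc, map_zero]
  · rw [mem_act hA, map_add, map_mul, map_mul, th_left hA, frame_X1, frame_X2, hX0]
    exact h
  · rw [mem_act hA, map_add, map_add, map_mul, map_mul, map_pow, th_left hA, th_left hA,
      th_left hA, hX0]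
    exact h'

end Pool.Agent.Helper73.Six
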