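import Pool.Agent.Helper73.Six.Local2

set_option autoImplicit false

/-!
# Pencils without third powers of `X 0`: the degenerate case
-/

open MvPolynomial

namespace Pool.Agent.Helper73.Six

open Pool.Agent.Helper74.Apol Pool.Agent.Helper41.Hk

lemma exists_sq (z : ℂ) : ∃ s : ℂ, s ^ 2 = z := IsAlgClosed.exists_pow_nat_eq z (by norm_num)

lemma quad_square {a b c : ℂ} (h : b ^ 2 - 4 * a * c = 0) :
    ∃ r s : ℂ, a = r ^ 2 ∧ b = 2 * r * s ∧ c = s ^ 2 := by
  obtain ⟨r, hr⟩ := exists_sq a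
  obtain ⟨s, hs⟩ := exists_sq c
  have h1 : (b - 2 * r * s) * (b + 2 * r * s) = 0 := by
    rw [← hr, ← hs] at h
    linear_combination h
  rcases mul_eq_zero.mp h1 with h2 | h2
  · exact ⟨r, s, hr.symm, by linear_combination h2, hs.symm⟩
  · exact ⟨r, -s, hr.symm, by linear_combination h2, by rw [← hs]; ring⟩

lemma quad_factor {a b c : ℂ} (h : b ^ 2 - 4 * a * c ≠ 0) :
    ∃ m1 m2 n1 n2 : ℂ, m1 * n2 - m2 * n1 ≠ 0 ∧ a = m1 * n1 ∧ b = m1 * n2 + m2 * n1 ∧
      c = m2 * n2 := by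
  by_cases ha : a = 0
  · refine ⟨0, 1, b, c, ?_, ?_, ?_, ?_⟩
    · intro h1
      apply h
      rw [ha]
      have : b = 0 := by linear_combination -h1
      rw [this]
      ring
    · rw [ha]; ring
    · ring
    · ring
  · obtain ⟨s, hs⟩ := exists_sq (b ^ 2 - 4 * a * c)
    have hs0 : s ≠ 0 := by
      intro h1
      apply h
      rw [← hs, h1]
      ring
    refine ⟨a, (b - s) / 2, 1, (b + s) / (2 * a), ?_, ?_, ?_, ?_⟩
    · have : a * ((b + s) / (2 * a)) - (b - s) / 2 * 1 = s := by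
        field_simp
        ring
      rw [this]
      exact hs0
    · ring
    · field_simp
      ring
    · field_simp
      linear_combination hs

lemma exists_disc (a b c a' b' c' : ℂ) : ∃ x y : ℂ, (x ≠ 0 ∨ y ≠ 0) ∧
    (x * b + y * b') ^ 2 - 4 * (x * a + y * a') * (x * c + y * c') = 0 := by
  set A := b ^ 2 - 4 * a * c with hA
  set B := 2 * b * b' - 4 * (a * c' + a' * c) with hB
  set D := b' ^ 2 - 4 * a' * c' with hD
  have key : ∀ x y : ℂ, (x * b + y * b') ^ 2 - 4 * (x * a + y * a') * (x * c + y * c') =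
      A * x ^ 2 + B * (x * y) + D * y ^ 2 := by
    intro x y
    rw [hA, hB, hD]
    ring
  by_cases hA0 : A = 0
  · refine ⟨1, 0, Or.inl one_ne_zero, ?_⟩
    rw [key, hA0]
    ring
  · obtain ⟨s, hs⟩ := exists_sq (B ^ 2 - 4 * A * D)
    refine ⟨(-B + s) / (2 * A), 1, Or.inr one_ne_zero, ?_⟩
    rw [key]
    field_simp
    linear_combination hs

variable {d : ℕ} {L : Fin d → Fin 3 → ℂ}

/-- If the restricted product is killed by the square of `r X1 + s X2`, then it is zero. -/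
lemma caseB1 (hL : Pos L) (hd : 8 ≤ d) {i : Fin d} (hi : L i = e0)
    {g g' g0 g1 g0' g1' g2' : MvPolynomial (Fin 3) ℂ} (hm : g ∈ annI (arr L))
    (hm' : g' ∈ annI (arr L)) (f0 : Free g0) (f1 : Free g1) (f0' : Free g0') (f1' : Free g1')
    (f2' : Free g2') (h0 : g0.IsHomogeneous 3) (h1 : g1.IsHomogeneous 2)
    (h1' : g1'.IsHomogeneous 2) (h2' : g2'.IsHomogeneous 1)
    (hg : g = g0 + X 0 * g1) (hg' : g' = g0' + X 0 * g1' + X 0 ^ 2 * g2') :
    ∃ x y : ℂ, (x ≠ 0 ∨ y ≠ 0) ∧ Free (C x * g + C y * g') := by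
  obtain ⟨a, b, c, habc⟩ := free_quad f1 h1
  have sq : ∀ r s : ℂ, (C (r ^ 2) * X 1 ^ 2 + C (2 * r * s) * (X 1 * X 2) + C (s ^ 2) * X 2 ^ 2 :
      MvPolynomial (Fin 3) ℂ) = (C r * X 1 + C s * X 2) ^ 2 := by
    intro r s
    simp only [C_mul, C_pow, map_ofNat]
    ring
  have flin : ∀ r s : ℂ, Free (C r * X 1 + C s * X 2) := fun r s =>
    ((free_C r).mul (free_X (by decide))).add ((free_C s).mul (free_X (by decide)))
  have hlin : ∀ r s : ℂ, (C r * X 1 + C s * X 2 : MvPolynomial (Fin 3) ℂ).IsHomogeneous 1 := by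
    intro r s
    have a1 := (isHomogeneous_C (Fin 3) r).mul (isHomogeneous_X ℂ (1 : Fin 3))
    have a2 := (isHomogeneous_C (Fin 3) s).mul (isHomogeneous_X ℂ (2 : Fin 3))
    rw [zero_add] at a1 a2
    exact a1.add a2
  by_cases hg2' : g2' = 0
  · obtain ⟨a', b', c', habc'⟩ := free_quad f1' h1'
    obtain ⟨x, y, hxy, hdisc⟩ := exists_disc a b c a' b' c'
    obtain ⟨r, s, hr, hrs, hs⟩ := quad_square hdisc
    refine ⟨x, y, hxy, ?_⟩
    have hcomb : C x * g + C y * g' = X 0 * (C r * X 1 + C s * X 2) ^ 2 +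
        (C x * g0 + C y * g0') := by
      rw [← sq, ← hr, ← hrs, ← hs, hg, hg', hg2', habc, habc']
      simp only [C_add, C_mul]
      ring
    have fc : Free (C x * g0 + C y * g0') := ((free_C x).mul f0).add ((free_C y).mul f0')
    by_cases hM : (C r * X 1 + C s * X 2 : MvPolynomial (Fin 3) ℂ) = 0
    · rw [hcomb, hM, zero_pow two_ne_zero, mul_zero, zero_add]
      exact fc
    · exfalso
      refine sq_frame hL (by omega) hi (flin r s) (hlin r s) hM fc ?_
      rw [← hcomb]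
      exact Ideal.add_mem _ (Ideal.mul_mem_left _ _ hm) (Ideal.mul_mem_left _ _ hm')
  · refine ⟨1, 0, Or.inl one_ne_zero, ?_⟩
    rw [C_1, one_mul, C_0, zero_mul, add_zero]
    by_cases hdisc : b ^ 2 - 4 * a * c = 0
    · obtain ⟨r, s, hr, hrs, hs⟩ := quad_square hdisc
      have hcomb : g = X 0 * (C r * X 1 + C s * X 2) ^ 2 + g0 := by
        rw [← sq, ← hr, ← hrs, ← hs, hg, habc]
        ring
      by_cases hM : (C r * X 1 + C s * X 2 : MvPolynomial (Fin 3) ℂ) = 0
      · rw [hcomb, hM, zero_pow two_ne_zero, mul_zero, zero_add]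
        exact f0
      · exfalso
        refine sq_frame hL (by omega) hi (flin r s) (hlin r s) hM f0 ?_
        rw [← hcomb]
        exact hm
    · exfalso
      obtain ⟨m1, m2, n1, n2, hmn, ha, hb, hc⟩ := quad_factor hdisc
      have hcomb : g = g0 + X 0 * ((C m1 * X 1 + C m2 * X 2) * (C n1 * X 1 + C n2 * X 2)) := by
        rw [hg, habc, ha, hb, hc]
        simp only [C_add, C_mul]
        ring
      refine nodeN_frame hL hd hi hmn f0 f0' f1' f2' h0 h2' hg2' ?_ ?_
      · rw [← hcomb]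
        exact hm
      · rw [← hg']
        exact hm'

/-! ### Homogeneity of the action -/

lemma ap_pow_homog (s : Fin 3) {f : MvPolynomial (Fin 3) ℂ} {k : ℕ} (hf : f.IsHomogeneous k)
    (r : ℕ) : (ap (X s ^ r) f).IsHomogeneous (k - r) := by
  induction r with
  | zero => rw [pow_zero, ap_one]; exact hf
  | succ r ih =>
    rw [pow_succ', ap_mul]
    have := ap_homog_X s ih
    rwa [Nat.sub_sub] at this

lemma ap_homog {p f : MvPolynomial (Fin 3) ℂ} {n k : ℕ} (hp : p.IsHomogeneous n)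
    (hf : f.IsHomogeneous k) : (ap p f).IsHomogeneous (k - n) := by
  rw [p.as_sum, ap_sum]
  refine IsHomogeneous.sum _ _ _ fun a ha => ?_
  have h1 : a 0 + a 1 + a 2 = n := by
    have h2 : a.degree = n := by
      have := hp (mem_support_iff.mp ha)
      rw [Finsupp.degree_eq_weight_one]
      exact this
    rw [← h2, Finsupp.degree_eq_sum, Fin.sum_univ_three]
  rw [monomial_eq, Finsupp.prod_fintype _ _ (fun i => by simp), Fin.prod_univ_three, ap_mul, ap_C,
    ap_mul, ap_mul]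
  have h3 := ap_pow_homog 0 (ap_pow_homog 1 (ap_pow_homog 2 hf (a 2)) (a 1)) (a 0)
  have h4 : k - a 2 - a 1 - a 0 = k - n := by omega
  rw [h4] at h3
  exact (homogeneousSubmodule (Fin 3) ℂ (k - n)).smul_mem _ h3

lemma ap_free {p f : MvPolynomial (Fin 3) ℂ} (hp : Free p) (hf : Free f) : Free (ap p f) := by
  unfold Free
  rw [rho_ap hp, hf]

/-- A free form of positive degree killed by two independent linear forms is zero. -/
lemma zero_of_two {f : MvPolynomial (Fin 3) ℂ} {k : ℕ} (hf : Free f) (hk : f.IsHomogeneous k)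
    (hk0 : k ≠ 0) {m1 m2 n1 n2 : ℂ} (hn : m1 * n2 - m2 * n1 ≠ 0)
    (h1 : ap (C m1 * X 1 + C m2 * X 2) f = 0) (h2 : ap (C n1 * X 1 + C n2 * X 2) f = 0) :
    f = 0 := by
  have e := hf.euler hk
  rw [ap_add, ap_mul, ap_mul, ap_C, ap_C, ap_X, ap_X] at h1 h2
  have h3 : pderiv 1 f = 0 := by
    have h4 : (m1 * n2 - m2 * n1) • pderiv 1 f = 0 := by
      have h5 : n2 • (m1 • pderiv 1 f + m2 • pderiv 2 f) -
          m2 • (n1 • pderiv 1 f + n2 • pderiv 2 f) = (m1 * n2 - m2 * n1) • pderiv 1 f := by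
        module
      rw [← h5, h1, h2, smul_zero, smul_zero, sub_zero]
    exact (smul_eq_zero.mp h4).resolve_left hn
  have h6 : pderiv 2 f = 0 := by
    have h4 : (m1 * n2 - m2 * n1) • pderiv 2 f = 0 := by
      have h5 : m1 • (n1 • pderiv 1 f + n2 • pderiv 2 f) -
          n1 • (m1 • pderiv 1 f + m2 • pderiv 2 f) = (m1 * n2 - m2 * n1) • pderiv 2 f := by
        module
      rw [← h5, h1, h2, smul_zero, smul_zero, sub_zero]
    exact (smul_eq_zero.mp h4).resolve_left hn
  rw [h3, h6, mul_zero, mul_zero, add_zero] at e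
  rcases mul_eq_zero.mp e with h7 | h7
  · rw [C_eq_zero] at h7
    exact absurd (by exact_mod_cast h7) hk0
  · exact h7

end Pool.Agent.Helper73.Six
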