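import Pool.Agent.Helper73.Six.Local3

set_option autoImplicit false

/-!
# Pencils without third powers of `X 0`: independent leading forms
-/

open MvPolynomial

namespace Pool.Agent.Helper73.Six

open Pool.Agent.Helper74.Apol Pool.Agent.Helper41.Hk

variable {d : ℕ} {L : Fin d → Fin 3 → ℂ}

lemma free_linform (r s : ℂ) : Free (C r * X 1 + C s * X 2) :=
  ((free_C r).mul (free_X (by decide))).add ((free_C s).mul (free_X (by decide)))

lemma hom_linform (r s : ℂ) : (C r * X 1 + C s * X 2 : MvPolynomial (Fin 3) ℂ).IsHomogeneous 1 := by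
  have a1 := (isHomogeneous_C (Fin 3) r).mul (isHomogeneous_X ℂ (1 : Fin 3))
  have a2 := (isHomogeneous_C (Fin 3) s).mul (isHomogeneous_X ℂ (2 : Fin 3))
  rw [zero_add] at a1 a2
  exact a1.add a2

lemma coeff_linform (r s : ℂ) : coeff (Finsupp.single 1 1)
      (C r * X 1 + C s * X 2 : MvPolynomial (Fin 3) ℂ) = r ∧
    coeff (Finsupp.single 2 1) (C r * X 1 + C s * X 2 : MvPolynomial (Fin 3) ℂ) = s := by
  constructor
  · rw [coeff_add, coeff_C_mul, coeff_C_mul, coeff_X, coeff_X, if_pos rfl, if_neg, mul_one,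
      mul_zero, add_zero]
    intro h
    have := Finsupp.single_left_injective (one_ne_zero) h
    exact absurd this (by decide)
  · rw [coeff_add, coeff_C_mul, coeff_C_mul, coeff_X, coeff_X, if_pos rfl, if_neg, mul_one,
      mul_zero, zero_add]
    intro h
    have := Finsupp.single_left_injective (one_ne_zero) h
    exact absurd this (by decide)

/-- Evaluation of the derivative at a root. -/
lemma deriv_root (hL : Pos L) {i j : Fin d} (hi : L i = e0) (hj : j ≠ i) (hx : L j 1 ≠ 0) :
    (Polynomial.derivative (dh (La (arr L) 1))).eval (-(L j 2) / L j 1) ≠ 0 := by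
  rw [dh_La_one hi, ← Finset.mul_prod_erase _ _ (Finset.mem_erase.mpr ⟨hj, Finset.mem_univ j⟩),
    Polynomial.derivative_mul]
  simp only [Polynomial.derivative_add, Polynomial.derivative_mul, Polynomial.derivative_C,
    Polynomial.derivative_X, zero_mul, mul_one, zero_add, add_zero, Polynomial.eval_add,
    Polynomial.eval_mul, Polynomial.eval_C, Polynomial.eval_X]
  have h1 : L j 1 * (-(L j 2) / L j 1) + L j 2 = 0 := by
    field_simp
    ring
  rw [h1, zero_mul, add_zero]
  refine mul_ne_zero hx ?_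
  rw [Polynomial.eval_prod, Finset.prod_ne_zero_iff]
  intro k hk
  rw [Finset.mem_erase, Finset.mem_erase] at hk
  simp only [Polynomial.eval_add, Polynomial.eval_mul, Polynomial.eval_C, Polynomial.eval_X]
  have h2 := minor_ne hL hi (Ne.symm hj) (Ne.symm hk.2.1) (Ne.symm hk.1)
  have h3 : L k 1 * (-(L j 2) / L j 1) + L k 2 = (L j 1 * L k 2 - L j 2 * L k 1) / L j 1 := by
    field_simp
    ring
  rw [h3]
  exact div_ne_zero h2 hx

/-- The lines other than `i`, not through the point `X 1`, are not concurrent. -/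
lemma no_common (hL : Pos L) (hd : 5 ≤ d) {i : Fin d} (hi : L i = e0) (v : Fin 3 → ℂ)
    (key : ∀ j, j ≠ i → L j 1 ≠ 0 → ∑ m, v m * L j m = 0) : v = 0 := by
  -- at most one line has `L j 1 = 0`
  have h0 : ∀ j k, j ≠ i → k ≠ i → j ≠ k → L j 1 = 0 → L k 1 ≠ 0 := by
    intro j k hj hk hjk h1 h2
    apply minor_ne hL hi (Ne.symm hj) (Ne.symm hk) hjk
    rw [h1, h2]
    ring
  -- three indices
  have h3 : ∃ s : Finset (Fin d), (∀ j ∈ s, j ≠ i ∧ L j 1 ≠ 0) ∧ 2 < s.card := by
    by_cases hex : ∃ j, j ≠ i ∧ L j 1 = 0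
    · obtain ⟨j, hj, hj1⟩ := hex
      refine ⟨(Finset.univ.erase i).erase j, ?_, ?_⟩
      · intro k hk
        rw [Finset.mem_erase, Finset.mem_erase] at hk
        exact ⟨hk.2.1, h0 j k hj hk.2.1 (Ne.symm hk.1) hj1⟩
      · rw [card_two (Ne.symm hj)]
        omega
    · push Not at hex
      refine ⟨Finset.univ.erase i, ?_, ?_⟩
      · intro k hk
        exact ⟨(Finset.mem_erase.mp hk).1, hex k (Finset.mem_erase.mp hk).1⟩
      · rw [card_one]
        omega
  obtain ⟨s, hs, hcard⟩ := h3
  obtain ⟨j, hj, k, hk, l, hl, hjk, hjl, hkl⟩ := Finset.two_lt_card.mp hcard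
  have h5 : lin v = 0 := kill3 (hL.ind hjk hjl hkl) (lin_homog _) one_ne_zero
    (by rw [dl_lin, key j (hs j hj).1 (hs j hj).2, C_0])
    (by rw [dl_lin, key k (hs k hk).1 (hs k hk).2, C_0])
    (by rw [dl_lin, key l (hs l hl).1 (hs l hl).2, C_0])
  funext s
  have h6 := congrArg (coeff (Finsupp.single s 1)) h5
  unfold lin at h6
  rw [coeff_sum, Finset.sum_eq_single s, coeff_C_mul, coeff_X, if_pos rfl, mul_one,
    coeff_zero] at h6
  · exact h6
  · intro b _ hb
    rw [coeff_C_mul, coeff_X, if_neg, mul_zero]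
    intro hc
    exact hb (Finsupp.single_left_injective one_ne_zero hc)
  · intro hs
    exact absurd (Finset.mem_univ _) hs

/-- If the second Taylor coefficient is a linear operator applied to the first one, then all
lines not through a point lie on a common point. -/
lemma no_lin_rel (hL : Pos L) (hd : 5 ≤ d) {i : Fin d} (hi : L i = e0) (a b : ℂ)
    (h : ap (C a * X 1 + C b * X 2) (La (arr L) 1) + La (arr L) 2 = 0) : False := by
  have hF := arr_homog L
  have hhom := La_homog hF 1
  have key : ∀ j, j ≠ i → L j 1 ≠ 0 → ∑ m, (![2, a, b] : Fin 3 → ℂ) m * L j m = 0 := by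
    intro j hj hx
    have h1 := congrArg (fun p => (dh p).eval (-(L j 2) / L j 1)) h
    simp only [map_add, map_zero, Polynomial.eval_add, Polynomial.eval_zero] at h1
    rw [LinearMap.add_apply, ap_mul, ap_mul, ap_C, ap_C, ap_X, ap_X, map_add, map_smul, map_smul,
      dh_pderiv1, dh_pderiv2 hhom, rel2 hi hx] at h1
    simp only [Polynomial.eval_add, Polynomial.eval_smul, Polynomial.eval_sub,
      Polynomial.eval_mul, Polynomial.eval_C, Polynomial.eval_X, smul_eq_mul] at h1
    rw [root_La hi hj hx] at h1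
    have h2 := deriv_root hL hi hj hx
    set D := (Polynomial.derivative (dh (La (arr L) 1))).eval (-(L j 2) / L j 1) with hD
    have h3 : D * (a - b * (-(L j 2) / L j 1) + 2 * (L j 0 / L j 1)) = 0 := by
      linear_combination h1
    have h4 := (mul_eq_zero.mp h3).resolve_left h2
    rw [Fin.sum_univ_three]
    simp only [Matrix.cons_val_zero, Matrix.cons_val_one, Matrix.cons_val_two, Matrix.tail_cons,
      Matrix.head_cons]
    field_simp at h4
    linear_combination h4
  have h5 := no_common hL hd hi (![2, a, b] : Fin 3 → ℂ) key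
  have h6 := congrFun h5 0
  simp at h6

lemma caseB2 (hL : Pos L) (hd : 8 ≤ d) {i : Fin d} (hi : L i = e0)
    {g g' g0 g1 g0' g1' : MvPolynomial (Fin 3) ℂ} (hP : Pen L g g')
    (f0 : Free g0) (f1 : Free g1) (f0' : Free g0') (f1' : Free g1')
    (h1 : g1.IsHomogeneous 2) (h1' : g1'.IsHomogeneous 2) {m1 m2 n1 n2 : ℂ}
    (hn : m1 * n2 - m2 * n1 ≠ 0)
    (hg : g = g0 + X 0 * g1 + X 0 ^ 2 * (C m1 * X 1 + C m2 * X 2))
    (hg' : g' = g0' + X 0 * g1' + X 0 ^ 2 * (C n1 * X 1 + C n2 * X 2)) : False := by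
  have hF := arr_homog L
  have f2 := free_linform m1 m2
  have f2' := free_linform n1 n2
  have h2 := hom_linform m1 m2
  have h2' := hom_linform n1 n2
  obtain ⟨g2, hg2⟩ : ∃ p : MvPolynomial (Fin 3) ℂ, p = C m1 * X 1 + C m2 * X 2 := ⟨_, rfl⟩
  obtain ⟨g2', hg2'⟩ : ∃ p : MvPolynomial (Fin 3) ℂ, p = C n1 * X 1 + C n2 * X 2 := ⟨_, rfl⟩
  -- independence
  have hind : ∀ x y : ℂ, C x * g2 + C y * g2' = 0 → x = 0 ∧ y = 0 := by
    intro x y hxy
    have h3 : C (x * m1 + y * n1) * X 1 + C (x * m2 + y * n2) * X 2 =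
        (0 : MvPolynomial (Fin 3) ℂ) := by
      rw [← hxy, hg2, hg2']
      simp only [C_add, C_mul]
      ring
    obtain ⟨h4, h5⟩ := coeff_linform (x * m1 + y * n1) (x * m2 + y * n2)
    rw [h3, coeff_zero] at h4 h5
    constructor
    · have : x * (m1 * n2 - m2 * n1) = 0 := by linear_combination -n2 * h4 + n1 * h5
      exact (mul_eq_zero.mp this).resolve_right hn
    · have : y * (m1 * n2 - m2 * n1) = 0 := by linear_combination m2 * h4 - m1 * h5
      exact (mul_eq_zero.mp this).resolve_right hn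
  have hg20 : g2 ≠ 0 := by
    intro h
    have := (hind 1 0 (by rw [h]; simp)).1
    exact one_ne_zero this
  have hg20' : g2' ≠ 0 := by
    intro h
    have := (hind 0 1 (by rw [h]; simp)).2
    exact one_ne_zero this
  rw [← hg2] at f2 h2 hg
  rw [← hg2'] at f2' h2' hg'
  set F := arr L with hFdef
  have e1 : ap (g0 + X 0 * g1 + X 0 ^ 2 * g2 + X 0 ^ 3 * 0) F = 0 := by
    rw [mul_zero, add_zero, ← hg, ← ap_iff]
    exact hP.mem
  have e2 : ap (g0' + X 0 * g1' + X 0 ^ 2 * g2' + X 0 ^ 3 * 0) F = 0 := by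
    rw [mul_zero, add_zero, ← hg', ← ap_iff]
    exact hP.mem'
  have r := La_rel f0 f1 f2 free_zero e1
  have r' := La_rel f0' f1' f2' free_zero e2
  simp only [ap_zero', add_zero] at r r'
  have hL0 : La F 0 = 0 := La_zero hi
  have r0 : ap g1 (La F 1) + ap g2 (La F 2) = 0 := by
    have h3 := r 0
    rw [hL0, map_zero] at h3
    simpa only [zero_add] using h3
  have r0' : ap g1' (La F 1) + ap g2' (La F 2) = 0 := by
    have h3 := r' 0
    rw [hL0, map_zero] at h3
    simpa only [zero_add] using h3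
  -- the cubic `c1`
  obtain ⟨c1, hc1⟩ : ∃ c, c = g2' * g1 - g2 * g1' := ⟨_, rfl⟩
  have fc1 : Free c1 := by
    rw [hc1]
    exact (f2'.mul f1).sub (f2.mul f1')
  have hc1h : c1.IsHomogeneous 3 := by
    rw [hc1]
    exact (homogeneousSubmodule (Fin 3) ℂ 3).sub_mem (h2'.mul h1) (h2.mul h1')
  have hT1 : ap c1 (La F 1) = 0 := by
    have e3 : ap c1 (La F 1) = ap g2' (ap g1 (La F 1) + ap g2 (La F 2)) -
        ap g2 (ap g1' (La F 1) + ap g2' (La F 2)) := by
      rw [hc1, ap_sub, ap_mul, ap_mul, map_add, map_add, ap_comm g2' g2]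
      abel
    rw [e3, r0, r0', map_zero, map_zero, sub_zero]
  have hTh : ∀ m, (ap c1 (La F m)).IsHomogeneous (d - m - 3) := fun m =>
    ap_homog hc1h (La_homog hF m)
  have hTf : ∀ m, Free (ap c1 (La F m)) := fun m => ap_free fc1 (La_free F m)
  have hT : ∀ m, m + 4 ≤ d → ap c1 (La F m) = 0 := by
    intro m
    induction m using Nat.strong_induction_on with
    | _ m ih =>
      match m, ih with
      | 0, _ => intro _; rw [hL0, map_zero]
      | 1, _ => intro _; exact hT1
      | m + 2, ih =>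
        intro hm
        have i0 := ih m (by omega) (by omega)
        have i1 := ih (m + 1) (by omega) (by omega)
        refine zero_of_two (hTf _) (hTh _) (by omega) hn ?_ ?_
        · rw [← hg2]
          have h3 : ap g2 (La F (m + 2)) = -(ap g0 (La F m) + ap g1 (La F (m + 1))) := by
            rw [eq_neg_iff_add_eq_zero, add_comm]
            exact r m
          rw [ap_comm, h3, map_neg, map_add, ap_comm c1 g0, ap_comm c1 g1, i0, i1, map_zero,
            map_zero, add_zero, neg_zero]
        · rw [← hg2']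
          have h3 : ap g2' (La F (m + 2)) = -(ap g0' (La F m) + ap g1' (La F (m + 1))) := by
            rw [eq_neg_iff_add_eq_zero, add_comm]
            exact r' m
          rw [ap_comm, h3, map_neg, map_add, ap_comm c1 g0', ap_comm c1 g1', i0, i1, map_zero,
            map_zero, add_zero, neg_zero]
  have fX1 : Free (X 1) := free_X (by decide)
  have hmem : X 1 * c1 ∈ annI (arr L) := by
    refine mem_of_La (fX1.mul fc1) fun m => ?_
    rw [ap_mul]
    by_cases hm : m + 4 ≤ d
    · rw [hT m hm, map_zero]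
    · have h3 := hTh m
      rw [show d - m - 3 = 0 by omega] at h3
      obtain ⟨c, hc⟩ := homog_zero h3
      rw [hc, ap_X, pderiv_C]
  have hX1h : (X 1 * c1 : MvPolynomial (Fin 3) ℂ).IsHomogeneous 4 :=
    (isHomogeneous_X ℂ (1 : Fin 3)).mul hc1h
  obtain ⟨A, B, hA, hB, hAB⟩ := hP.quart _ hmem hX1h
  obtain ⟨A0, al, fA, hA0, rfl⟩ := exists_linear hA
  obtain ⟨B0, be, fB, hB0, rfl⟩ := exists_linear hB
  have hexp : (A0 * g0 + B0 * g0' - X 1 * c1) + X 0 * (C al * g0 + A0 * g1 + C be * g0' +
      B0 * g1') + X 0 ^ 2 * (C al * g1 + A0 * g2 + C be * g1' + B0 * g2') +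
      X 0 ^ 3 * (C al * g2 + C be * g2') + X 0 ^ 4 * 0 = 0 := by
    rw [hg, hg'] at hAB
    linear_combination -hAB
  have fal := free_C al
  have fbe := free_C be
  obtain ⟨q0, q1, q2, q3, _⟩ := split5 (((fA.mul f0).add (fB.mul f0')).sub (fX1.mul fc1))
    ((((fal.mul f0).add (fA.mul f1)).add (fbe.mul f0')).add (fB.mul f1'))
    ((((fal.mul f1).add (fA.mul f2)).add (fbe.mul f1')).add (fB.mul f2'))
    ((fal.mul f2).add (fbe.mul f2')) free_zero hexp
  obtain ⟨hal, hbe⟩ := hind al be q3
  rw [hal, hbe, C_0] at q1 q2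
  have z1 : A0 * c1 = 0 := by
    rw [hc1]
    linear_combination g2' * q1 - g1' * q2
  have z2 : B0 * c1 = 0 := by
    rw [hc1]
    linear_combination g1 * q2 - g2 * q1
  have hc10 : c1 = 0 := by
    by_contra hne
    have hA00 := (mul_eq_zero.mp z1).resolve_right hne
    have hB00 := (mul_eq_zero.mp z2).resolve_right hne
    rw [hA00, hB00, zero_mul, zero_mul, add_zero, zero_sub, neg_eq_zero] at q0
    rcases mul_eq_zero.mp q0 with h | h
    · exact X_ne_zero _ h
    · exact hne h
  -- `g1 = g2 * e`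
  rw [hc1] at hc10
  have hprime := prime_lin f2 h2 hg20
  have hdvd : g2 ∣ g1 := by
    have h3 : g2 ∣ g2' * g1 := ⟨g1', by linear_combination hc10⟩
    rcases hprime.dvd_or_dvd h3 with h4 | h4
    · exfalso
      obtain ⟨q, hq⟩ := h4
      have hq0 : q.IsHomogeneous 0 := by
        rw [hq] at h2'
        exact factor_homog h2 hg20 h2'
      obtain ⟨c, hc⟩ := homog_zero hq0
      rw [hc] at hq
      have := (hind (-c) 1 (by rw [hq, C_neg, C_1]; ring)).2
      exact one_ne_zero this
    · exact h4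
  obtain ⟨e, he⟩ := hdvd
  have he' : g1' = g2' * e := by
    have h3 : g2 * (g1' - g2' * e) = 0 := by
      rw [he] at hc10
      linear_combination -hc10
    exact sub_eq_zero.mp ((mul_eq_zero.mp h3).resolve_left hg20)
  have heh : e.IsHomogeneous 1 := by
    rw [he] at h1
    exact factor_homog h2 hg20 h1
  have fe : Free e := by
    rw [he] at f1
    exact factor_free f2 hg20 f1
  obtain ⟨a, b, hab⟩ := free_lin fe heh
  refine no_lin_rel hL (by omega) hi a b ?_
  rw [← hab]
  have hhom2 : (ap e (La F 1) + La F 2).IsHomogeneous (d - 1 - 1) :=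
    (ap_homog heh (La_homog hF 1)).add (by
      have := La_homog hF 2
      rwa [show d - 2 = d - 1 - 1 by omega] at this)
  refine zero_of_two ((ap_free fe (La_free F 1)).add (La_free F 2)) hhom2 (by omega) hn ?_ ?_
  · rw [← hg2, map_add, ← ap_mul, ← he]
    exact r0
  · rw [← hg2', map_add, ← ap_mul, ← he']
    exact r0'

end Pool.Agent.Helper73.Six
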