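import Pool.Agent.Helper73.Six.Local4

set_option autoImplicit false

/-!
# In a pencil of apolar cubics there is a cone for every line
-/

open MvPolynomial

namespace Pool.Agent.Helper73.Six

open Pool.Agent.Helper74.Apol Pool.Agent.Helper41.Hk

variable {d : ℕ} {L : Fin d → Fin 3 → ℂ}

lemma C_inv_mul {D : ℂ} (hD : D ≠ 0) (z : ℂ) :
    (C (z / D) : MvPolynomial (Fin 3) ℂ) * C D = C z := by
  rw [← C_mul, div_mul_cancel₀ _ hD]

/-- Change of basis in the pencil. -/
lemma Pen.comb {g g' : MvPolynomial (Fin 3) ℂ} (hP : Pen L g g') {a b c e : ℂ}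
    (hD : a * e - b * c ≠ 0) : Pen L (C a * g + C b * g') (C c * g + C e * g') where
  mem := Ideal.add_mem _ (Ideal.mul_mem_left _ _ hP.mem) (Ideal.mul_mem_left _ _ hP.mem')
  mem' := Ideal.add_mem _ (Ideal.mul_mem_left _ _ hP.mem) (Ideal.mul_mem_left _ _ hP.mem')
  hom := by
    have h1 := (isHomogeneous_C (Fin 3) a).mul hP.hom
    have h2 := (isHomogeneous_C (Fin 3) b).mul hP.hom'
    rw [zero_add] at h1 h2
    exact h1.add h2
  hom' := by
    have h1 := (isHomogeneous_C (Fin 3) c).mul hP.hom
    have h2 := (isHomogeneous_C (Fin 3) e).mul hP.hom'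
    rw [zero_add] at h1 h2
    exact h1.add h2
  ind := by
    intro x y h
    have h1 : C (x * a + y * c) * g + C (x * b + y * e) * g' = 0 := by
      rw [← h]
      simp only [C_add, C_mul]
      ring
    obtain ⟨h2, h3⟩ := hP.ind _ _ h1
    constructor
    · have : x * (a * e - b * c) = 0 := by linear_combination e * h2 - c * h3
      exact (mul_eq_zero.mp this).resolve_right hD
    · have : y * (a * e - b * c) = 0 := by linear_combination a * h3 - b * h2
      exact (mul_eq_zero.mp this).resolve_right hD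
  quart := by
    intro p hp hp4
    obtain ⟨A, B, hA, hB, hAB⟩ := hP.quart p hp hp4
    set D := a * e - b * c with hDdef
    have key : (C D : MvPolynomial (Fin 3) ℂ) = C a * C e - C b * C c := by
      rw [hDdef, C_sub, C_mul, C_mul]
    have hC : ∀ (z : ℂ) (q : MvPolynomial (Fin 3) ℂ), q.IsHomogeneous 1 →
        (C z * q).IsHomogeneous 1 := by
      intro z q hq
      have h1 := (isHomogeneous_C (Fin 3) z).mul hq
      rwa [zero_add] at h1
    refine ⟨C (1 / D) * (C e * A - C c * B), C (1 / D) * (C a * B - C b * A), ?_, ?_, ?_⟩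
    · exact hC _ _ ((homogeneousSubmodule (Fin 3) ℂ 1).sub_mem (hC _ _ hA) (hC _ _ hB))
    · exact hC _ _ ((homogeneousSubmodule (Fin 3) ℂ 1).sub_mem (hC _ _ hB) (hC _ _ hA))
    · have h1 := C_inv_mul hD 1
      rw [C_1] at h1
      rw [key] at h1
      rw [hAB]
      linear_combination (-(A * g + B * g')) * h1
  nofac := by
    intro q M M' hq h1 h2
    set D := a * e - b * c with hDdef
    have key : (C D : MvPolynomial (Fin 3) ℂ) = C a * C e - C b * C c := by
      rw [hDdef, C_sub, C_mul, C_mul]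
    have h3 := C_inv_mul hD 1
    rw [C_1, key] at h3
    refine hP.nofac q (C (1 / D) * (C e * M - C b * M')) (C (1 / D) * (C a * M' - C c * M)) hq
      ?_ ?_
    · linear_combination C (1 / D) * C e * h1 - C (1 / D) * C b * h2 - g * h3
    · linear_combination C (1 / D) * C a * h2 - C (1 / D) * C c * h1 - g' * h3

lemma Pen.act {A : Matrix (Fin 3) (Fin 3) ℂ} (hA : IsUnit A.det) {g g' : MvPolynomial (Fin 3) ℂ}
    (hP : Pen L g g') : Pen (act A L) (th A⁻¹ g) (th A⁻¹ g') where
  mem := by
    rw [mem_act hA, th_left hA]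
    exact hP.mem
  mem' := by
    rw [mem_act hA, th_left hA]
    exact hP.mem'
  hom := th_homog _ hP.hom
  hom' := th_homog _ hP.hom'
  ind := by
    intro x y h
    refine hP.ind x y ?_
    have h1 := congrArg (th A) h
    rw [map_add, map_mul, map_mul, th_C, th_C, th_left hA, th_left hA, map_zero] at h1
    exact h1
  quart := by
    intro p hp hp4
    rw [mem_act hA] at hp
    obtain ⟨P, Q, hP1, hQ1, h⟩ := hP.quart _ hp (th_homog _ hp4)
    refine ⟨th A⁻¹ P, th A⁻¹ Q, th_homog _ hP1, th_homog _ hQ1, ?_⟩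
    have h1 := congrArg (th A⁻¹) h
    rw [th_right hA, map_add, map_mul, map_mul] at h1
    exact h1
  nofac := by
    intro q M M' hq h1 h2
    refine hP.nofac (th A q) (th A M) (th A M') (th_homog _ hq) ?_ ?_
    · rw [← map_mul, ← h1, th_left hA]
    · rw [← map_mul, ← h2, th_left hA]

lemma pair_dep (m1 m2 n1 n2 : ℂ) (h : m1 * n2 - m2 * n1 = 0) :
    ∃ x y : ℂ, (x ≠ 0 ∨ y ≠ 0) ∧ x * m1 + y * n1 = 0 ∧ x * m2 + y * n2 = 0 := by
  by_cases hn1 : n1 = 0
  · by_cases hn2 : n2 = 0
    · exact ⟨0, 1, Or.inr one_ne_zero, by rw [hn1]; ring, by rw [hn2]; ring⟩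
    · refine ⟨n2, -m2, Or.inl hn2, ?_, ?_⟩
      · rw [hn1] at h ⊢
        linear_combination h
      · ring
  · refine ⟨n1, -m1, Or.inl hn1, ?_, ?_⟩
    · ring
    · linear_combination -h

/-- There is a cone in the pencil. -/
theorem local_cone (hL : Pos L) (hd : 8 ≤ d) {i : Fin d} (hi : L i = e0) (hstar : StarLeaf L)
    {g g' : MvPolynomial (Fin 3) ℂ} (hP : Pen L g g') :
    ∃ x y : ℂ, (x ≠ 0 ∨ y ≠ 0) ∧ Free (C x * g + C y * g') := by
  obtain ⟨g0, g1, g2, c, f0, f1, f2, h0, h1, h2, hg⟩ := exists_cubic hP.hom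
  obtain ⟨g0', g1', g2', c', f0', f1', f2', h0', h1', h2', hg'⟩ := exists_cubic hP.hom'
  have hsmul : ∀ (z : ℂ) (n : ℕ) (q : MvPolynomial (Fin 3) ℂ), q.IsHomogeneous n →
      (C z * q).IsHomogeneous n := by
    intro z n q hq
    have h1 := (isHomogeneous_C (Fin 3) z).mul hq
    rwa [zero_add] at h1
  by_cases hc' : c' = 0
  · by_cases hc : c = 0
    · -- no third powers
      obtain ⟨m1, m2, hm⟩ := free_lin f2 h2
      obtain ⟨n1, n2, hn⟩ := free_lin f2' h2'
      by_cases hdet : m1 * n2 - m2 * n1 = 0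
      · obtain ⟨x, y, hxy, hx1, hx2⟩ := pair_dep m1 m2 n1 n2 hdet
        have hz : C x * g2 + C y * g2' = 0 := by
          have : C x * g2 + C y * g2' = C (x * m1 + y * n1) * X 1 + C (x * m2 + y * n2) * X 2 := by
            rw [hm, hn]
            simp only [C_add, C_mul]
            ring
          rw [this, hx1, hx2, C_0, zero_mul, zero_mul, add_zero]
        -- complementary vector
        obtain ⟨u, v, huv⟩ : ∃ u v : ℂ, x * v - y * u ≠ 0 := exists_compl hxy
        have hP' := hP.comb huv
        have hh : C x * g + C y * g' = (C x * g0 + C y * g0') + X 0 * (C x * g1 + C y * g1') := by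
          rw [hg, hg', hc, hc', C_0]
          linear_combination X 0 ^ 2 * hz
        have hh' : C u * g + C v * g' = (C u * g0 + C v * g0') + X 0 * (C u * g1 + C v * g1') +
            X 0 ^ 2 * (C u * g2 + C v * g2') := by
          rw [hg, hg', hc, hc', C_0]
          ring
        obtain ⟨s, t, hst, hfree⟩ := caseB1 hL hd hi hP'.mem hP'.mem'
          (((free_C x).mul f0).add ((free_C y).mul f0'))
          (((free_C x).mul f1).add ((free_C y).mul f1'))
          (((free_C u).mul f0).add ((free_C v).mul f0'))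
          (((free_C u).mul f1).add ((free_C v).mul f1'))
          (((free_C u).mul f2).add ((free_C v).mul f2'))
          ((hsmul _ _ _ h0).add (hsmul _ _ _ h0'))
          ((hsmul _ _ _ h1).add (hsmul _ _ _ h1'))
          ((hsmul _ _ _ h1).add (hsmul _ _ _ h1'))
          ((hsmul _ _ _ h2).add (hsmul _ _ _ h2')) hh hh'
        refine ⟨s * x + t * u, s * y + t * v, ?_, ?_⟩
        · by_contra hcon
          push Not at hcon
          have e1 : s * (x * v - y * u) = 0 := by linear_combination v * hcon.1 - u * hcon.2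
          have e2 : t * (x * v - y * u) = 0 := by linear_combination x * hcon.2 - y * hcon.1
          have e3 := (mul_eq_zero.mp e1).resolve_right huv
          have e4 := (mul_eq_zero.mp e2).resolve_right huv
          rcases hst with h | h
          · exact h e3
          · exact h e4
        · have : C (s * x + t * u) * g + C (s * y + t * v) * g' =
              C s * (C x * g + C y * g') + C t * (C u * g + C v * g') := by
            simp only [C_add, C_mul]
            ring
          rw [this]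
          exact hfree
      · exfalso
        refine caseB2 hL hd hi hP f0 f1 f0' f1' h1 h1' hdet ?_ ?_
        · rw [hg, hm, hc, C_0, mul_zero, add_zero]
        · rw [hg', hn, hc', C_0, mul_zero, add_zero]
    · -- `g` has a third power
      have hD : (0 : ℂ) * 0 - 1 * (1 / c) ≠ 0 := by
        rw [zero_mul, zero_sub, one_mul]
        exact neg_ne_zero.mpr (one_div_ne_zero hc)
      have hP' := hP.comb hD
      refine ⟨0, 1, Or.inr one_ne_zero, ?_⟩
      refine caseA hi hstar hP' (g0 := g0') (g1 := g1') (g2 := g2') (g0' := C (1 / c) * g0)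
        (g1' := C (1 / c) * g1) (g2' := C (1 / c) * g2) f0' f1' f2' ((free_C _).mul f0)
        ((free_C _).mul f1) ((free_C _).mul f2) h0' h1' h2' (hsmul _ _ _ h0) (hsmul _ _ _ h1)
        (hsmul _ _ _ h2) ?_ ?_
      · rw [hg', hc', C_0, C_1]
        ring
      · have h3 := C_inv_mul hc 1
        rw [C_1] at h3
        rw [hg, C_0]
        linear_combination X 0 ^ 3 * h3
  · -- `g'` has a third power
    have hD : (1 : ℂ) * (1 / c') - (-(c / c')) * 0 ≠ 0 := by
      rw [mul_zero, sub_zero, one_mul]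
      exact one_div_ne_zero hc'
    have hP' := hP.comb hD
    refine ⟨1, -(c / c'), Or.inl one_ne_zero, ?_⟩
    refine caseA hi hstar hP' (g0 := g0 - C (c / c') * g0') (g1 := g1 - C (c / c') * g1')
      (g2 := g2 - C (c / c') * g2') (g0' := C (1 / c') * g0')
      (g1' := C (1 / c') * g1') (g2' := C (1 / c') * g2')
      (f0.sub ((free_C _).mul f0')) (f1.sub ((free_C _).mul f1')) (f2.sub ((free_C _).mul f2'))
      ((free_C _).mul f0') ((free_C _).mul f1') ((free_C _).mul f2')
      ((homogeneousSubmodule (Fin 3) ℂ 3).sub_mem h0 (hsmul _ _ _ h0'))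
      ((homogeneousSubmodule (Fin 3) ℂ 2).sub_mem h1 (hsmul _ _ _ h1'))
      ((homogeneousSubmodule (Fin 3) ℂ 1).sub_mem h2 (hsmul _ _ _ h2'))
      (hsmul _ _ _ h0') (hsmul _ _ _ h1') (hsmul _ _ _ h2') ?_ ?_
    · have h3 := C_inv_mul hc' c
      rw [hg, hg', C_neg, C_1]
      linear_combination -X 0 ^ 3 * h3
    · have h3 := C_inv_mul hc' 1
      rw [C_1] at h3
      rw [hg', C_0]
      linear_combination X 0 ^ 3 * h3

/-- A coordinate change moving `L i` to the first basis vector. -/
lemma exists_move (hL : Pos L) (hd : 4 ≤ d) (i : Fin d) :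
    ∃ A : Matrix (Fin 3) (Fin 3) ℂ, IsUnit A.det ∧ act A L i = e0 := by
  obtain ⟨j, k, _, hj, hk, _, hjk, _, _⟩ := three_others hd i
  have hdet := det_ne hL (Ne.symm hj) (Ne.symm hk) hjk
  set M := (Matrix.of ![L i, L j, L k]).transpose with hM
  have hMdet : IsUnit M.det := by
    rw [hM, Matrix.det_transpose]
    exact isUnit_iff_ne_zero.mpr hdet
  refine ⟨M⁻¹, ?_, ?_⟩
  · rw [Matrix.det_nonsing_inv]
    exact hMdet.ringInverse
  · unfold act
    have h1 : M.mulVec e0 = L i := by
      funext s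
      rw [hM]
      simp [Matrix.mulVec, dotProduct, Fin.sum_univ_three, e0]
    rw [← h1, Matrix.mulVec_mulVec, Matrix.nonsing_inv_mul M hMdet, Matrix.one_mulVec]

lemma free_dl {p : MvPolynomial (Fin 3) ℂ} (hp : Free p) : dl e0 p = 0 := by
  have h1 : pderiv 0 p = 0 := by
    rw [← hp]
    exact pderiv0_rho p
  rw [dl_apply, Fin.sum_univ_three, h1]
  simp [e0]

/-- For every line there is a cone in the pencil. -/
theorem cone_all (hL : Pos L) (hd : 8 ≤ d)
    (hstar : ∀ (M : Fin d → Fin 3 → ℂ) (j : Fin d), Pos M → M j = e0 → StarLeaf M)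
    {g g' : MvPolynomial (Fin 3) ℂ} (hP : Pen L g g') (i : Fin d) :
    ∃ x y : ℂ, (x ≠ 0 ∨ y ≠ 0) ∧ dl (L i) (C x * g + C y * g') = 0 := by
  obtain ⟨A, hA, hAi⟩ := exists_move hL (by omega) i
  obtain ⟨x, y, hxy, hfree⟩ := local_cone (hL.act hA) hd hAi (hstar _ _ (hL.act hA) hAi)
    (hP.act hA)
  refine ⟨x, y, hxy, ?_⟩
  have h1 : C x * g + C y * g' = th A (C x * th A⁻¹ g + C y * th A⁻¹ g') := by
    rw [map_add, map_mul, map_mul, th_C, th_C, th_left hA, th_left hA]
  have h2 : A.mulVec (L i) = e0 := hAi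
  rw [h1, dl_th, h2, free_dl hfree, map_zero]

end Pool.Agent.Helper73.Six
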