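import Pool.Agent.Helper73.Six.Dehom

set_option autoImplicit false

/-!
# A cubic `M * (X 0 * M' + ...)` is never apolar
-/

open MvPolynomial

namespace Pool.Agent.Helper73.Six

open Pool.Agent.Helper74.Apol Pool.Agent.Helper41.Hk

variable {d : ℕ} {L : Fin d → Fin 3 → ℂ}

lemma card_one (i : Fin d) : (Finset.univ.erase i : Finset (Fin d)).card = d - 1 := by
  rw [Finset.card_erase_of_mem (Finset.mem_univ i), Finset.card_univ, Fintype.card_fin]

/-- The coefficient of `X ^ card` in a product of linear polynomials. -/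
lemma coeff_prod_lin {ι : Type*} (s : Finset ι) (x y : ι → ℂ) :
    (∏ j ∈ s, (Polynomial.C (x j) * Polynomial.X + Polynomial.C (y j))).coeff s.card =
      ∏ j ∈ s, x j := by
  have h := Polynomial.coeff_prod_of_natDegree_le (s := s)
    (fun j => Polynomial.C (x j) * Polynomial.X + Polynomial.C (y j)) 1 (fun p _ => by
      exact Polynomial.natDegree_linear_le)
  rw [mul_one] at h
  rw [h]
  refine Finset.prod_congr rfl fun j _ => ?_
  simp

lemma natDegree_prod_lin {ι : Type*} (s : Finset ι) (x y : ι → ℂ) :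
    (∏ j ∈ s, (Polynomial.C (x j) * Polynomial.X + Polynomial.C (y j))).natDegree ≤ s.card := by
  refine (Polynomial.natDegree_prod_le _ _).trans ?_
  refine (Finset.sum_le_card_nsmul s _ 1 fun j _ => Polynomial.natDegree_linear_le).trans ?_
  simp

/-- If the restricted product has no coefficient in degree `d - 2`, then no line passes through
the point `X 1`. -/
lemma x_ne (hL : Pos L) (hd : 4 ≤ d) {i : Fin d} (hi : L i = e0)
    (h : (dh (La (arr L) 1)).coeff (d - 2) = 0) {j : Fin d} (hj : j ≠ i) : L j 1 ≠ 0 := by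
  intro hx
  have hmem : j ∈ Finset.univ.erase i := Finset.mem_erase.mpr ⟨hj, Finset.mem_univ j⟩
  rw [dh_La_one hi, ← Finset.mul_prod_erase _ _ hmem, hx, Polynomial.C_0, zero_mul, zero_add,
    Polynomial.coeff_C_mul, ← card_two (Ne.symm hj), coeff_prod_lin] at h
  have hk : ∀ k, k ≠ i → k ≠ j → L j 2 * L k 1 ≠ 0 := by
    intro k hki hkj h0
    apply minor_ne hL hi (Ne.symm hj) (Ne.symm hki) (Ne.symm hkj)
    rw [hx, zero_mul, h0, sub_zero]
  rcases mul_eq_zero.mp h with h1 | h1
  · obtain ⟨k, hk1, hk2⟩ := third hd i j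
    exact hk k (Ne.symm hk1) (Ne.symm hk2) (by rw [h1, zero_mul])
  · rw [Finset.prod_eq_zero_iff] at h1
    obtain ⟨k, hk1, hk2⟩ := h1
    rw [Finset.mem_erase, Finset.mem_erase] at hk1
    exact hk k hk1.2.1 hk1.1 (by rw [hk2, mul_zero])

lemma root_La {i j : Fin d} (hi : L i = e0) (hj : j ≠ i) (hx : L j 1 ≠ 0) :
    (dh (La (arr L) 1)).eval (-(L j 2) / L j 1) = 0 := by
  have hmem : j ∈ Finset.univ.erase i := Finset.mem_erase.mpr ⟨hj, Finset.mem_univ j⟩
  rw [dh_La_one hi, ← Finset.mul_prod_erase _ _ hmem, Polynomial.eval_mul]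
  have : (Polynomial.C (L j 1) * Polynomial.X + Polynomial.C (L j 2)).eval (-(L j 2) / L j 1) = 0 := by
    simp
    field_simp
    ring
  rw [this, zero_mul]

lemma t_inj (hL : Pos L) {i j k : Fin d} (hi : L i = e0) (hj : j ≠ i) (hk : k ≠ i) (hjk : j ≠ k)
    (hxj : L j 1 ≠ 0) (hxk : L k 1 ≠ 0) : -(L j 2) / L j 1 ≠ -(L k 2) / L k 1 := by
  intro h
  apply minor_ne hL hi (Ne.symm hj) (Ne.symm hk) hjk
  field_simp at h
  linear_combination h

/-- A polynomial of small degree vanishing at all the points is zero. -/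
lemma poly_zero (hL : Pos L) {i : Fin d} (hi : L i = e0) (hx : ∀ j, j ≠ i → L j 1 ≠ 0)
    {P : Polynomial ℂ} (hP : P.natDegree < d - 1)
    (h : ∀ j, j ≠ i → P.eval (-(L j 2) / L j 1) = 0) : P = 0 := by
  classical
  refine Polynomial.eq_zero_of_natDegree_lt_card_of_eval_eq_zero' P
    ((Finset.univ.erase i).image fun j => -(L j 2) / L j 1) ?_ ?_
  · intro t ht
    rw [Finset.mem_image] at ht
    obtain ⟨j, hj, rfl⟩ := ht
    exact h j (Finset.mem_erase.mp hj).1
  · rw [Finset.card_image_of_injOn, card_one]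
    · exact hP
    · intro j hj k hk hjk
      by_contra hne
      exact t_inj hL hi (Finset.mem_erase.mp hj).1 (Finset.mem_erase.mp hk).1 hne
        (hx j (Finset.mem_erase.mp hj).1) (hx k (Finset.mem_erase.mp hk).1) hjk

lemma ap_zero' (f : MvPolynomial (Fin 3) ℂ) : ap (0 : MvPolynomial (Fin 3) ℂ) f = 0 := by
  rw [map_zero, LinearMap.zero_apply]

/-- The coefficients of the Taylor coefficients, for an apolar cubic `X 2 * (X 0 * X 1 + e X 2 ^ 2)`. -/
lemma node_rel {e : ℂ} (h : X 2 * (X 0 * X 1 + C e * X 2 ^ 2) ∈ annI (arr L)) (m k : ℕ) :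
    e * (((d - m - k).descFactorial 3 : ℕ) : ℂ) * (dh (La (arr L) m)).coeff k +
      ((k : ℂ) + 1) * ((((d - (m + 1) : ℕ) : ℂ) - ((k + 1 : ℕ) : ℂ)) *
        (dh (La (arr L) (m + 1))).coeff (k + 1)) = 0 := by
  have hF := arr_homog L
  rw [ap_iff] at h
  have h1 : X 2 * (X 0 * X 1 + C e * X 2 ^ 2) = (C e * X 2 ^ 3 + X 0 * (X 1 * X 2) +
      X 0 ^ 2 * 0 + X 0 ^ 3 * 0 : MvPolynomial (Fin 3) ℂ) := by ring
  rw [h1] at h
  have hX1 : Free (X 1) := free_X (by decide)
  have hX2 : Free (X 2) := free_X (by decide)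
  have h2 := La_rel ((free_C e).mul (hX2.pow 3)) (hX1.mul hX2) free_zero free_zero h m
  rw [ap_zero', ap_zero', add_zero, add_zero, ap_mul (C e), ap_C, ap_mul (X 1)] at h2
  have h3 := congrArg (fun p => (dh p).coeff k) h2
  simp only [map_add, map_smul, Polynomial.coeff_add, Polynomial.coeff_smul, smul_eq_mul, map_zero,
    Polynomial.coeff_zero] at h3
  rw [coeff_dh2_pow (La_homog hF m), coeff_dh1, coeff_dh2 (La_homog hF (m + 1))] at h3
  rw [mul_assoc]
  exact h3

theorem node_normal (hL : Pos L) (hd : 8 ≤ d) {i : Fin d} (hi : L i = e0) {e : ℂ}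
    (h : X 2 * (X 0 * X 1 + C e * X 2 ^ 2) ∈ annI (arr L)) : False := by
  classical
  have hF := arr_homog L
  set f1 := dh (La (arr L) 1) with hf1
  set f2 := dh (La (arr L) 2) with hf2
  set f3 := dh (La (arr L) 3) with hf3
  have r0 := node_rel h 0
  have r1 := node_rel h 1
  have r2 := node_rel h 2
  rw [zero_add, La_zero hi, map_zero] at r0
  rw [← hf1] at r0 r1
  rw [show (1 : ℕ) + 1 = 2 from rfl, ← hf2] at r1
  rw [show (2 : ℕ) + 1 = 3 from rfl, ← hf2, ← hf3] at r2
  obtain ⟨D, rfl⟩ : ∃ D, d = D + 1 := ⟨d - 1, by omega⟩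
  have hD1 : D + 1 - 1 = D := by omega
  have hD2 : D + 1 - 2 = D - 1 := by omega
  have hD3 : D + 1 - 3 = D - 2 := by omega
  rw [hD1, hD2] at r1
  rw [hD2, hD3] at r2
  -- coefficients of `f1`
  have c1 : ∀ n, n ≠ 0 → n ≠ D → f1.coeff n = 0 := by
    intro n hn0 hnD
    obtain ⟨k, rfl⟩ := Nat.exists_eq_succ_of_ne_zero hn0
    have h1 := r0 k
    rw [Polynomial.coeff_zero, mul_zero, zero_add, Nat.add_sub_cancel] at h1
    rcases mul_eq_zero.mp h1 with h2 | h2
    · exact absurd h2 (Nat.cast_add_one_ne_zero k)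
    · rcases mul_eq_zero.mp h2 with h3 | h3
      · exfalso
        apply hnD
        have h4 := sub_eq_zero.mp h3
        exact (by exact_mod_cast h4.symm)
      · exact h3
  have hx : ∀ j, j ≠ i → L j 1 ≠ 0 := fun j hj => x_ne hL (by omega) hi (by
    rw [← hf1]
    exact c1 _ (by omega) (by omega)) hj
  set al := f1.coeff D with hal
  set be := f1.coeff 0 with hbe
  have f1eq : f1 = Polynomial.C be + Polynomial.C al * Polynomial.X ^ D := by
    ext n
    rw [Polynomial.coeff_add, Polynomial.coeff_C, Polynomial.coeff_C_mul_X_pow]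
    by_cases hn0 : n = 0
    · subst hn0
      rw [if_pos rfl, if_neg (by omega), add_zero]
    · by_cases hnD : n = D
      · rw [if_neg hn0, if_pos hnD, zero_add, hnD]
      · rw [if_neg hn0, if_neg hnD, add_zero, c1 n hn0 hnD]
  have hal0 : al ≠ 0 := by
    have h1 : al = ∏ j ∈ Finset.univ.erase i, L j 1 := by
      rw [hal, hf1, dh_La_one hi]
      have h2 := coeff_prod_lin (Finset.univ.erase i) (fun j => L j 1) (fun j => L j 2)
      rw [card_one, Nat.add_sub_cancel] at h2
      exact h2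
    rw [h1, Finset.prod_ne_zero_iff]
    exact fun j hj => hx j (Finset.mem_erase.mp hj).1
  -- the points
  have ht : ∀ j, j ≠ i → be + al * (-(L j 2) / L j 1) ^ D = 0 := by
    intro j hj
    have h1 := root_La hi hj (hx j hj)
    rw [← hf1, f1eq] at h1
    simpa using h1
  have hbe0 : be ≠ 0 := by
    intro h0
    obtain ⟨a, b, c, ha, hb, hc, hab, hac, hbc⟩ := three_others (d := D + 1) (by omega) i
    have h1 : ∀ j, j ≠ i → -(L j 2) / L j 1 = 0 := by
      intro j hj
      have h2 := ht j hj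
      rw [h0, zero_add] at h2
      rcases mul_eq_zero.mp h2 with h3 | h3
      · exact absurd h3 hal0
      · exact pow_eq_zero_iff (by omega) |>.mp h3
    exact t_inj hL hi ha hb hab (hx a ha) (hx b hb) (by rw [h1 a ha, h1 b hb])
  -- coefficients of `f2`
  have hDc : (D : ℂ) ≠ 0 := by exact_mod_cast (by omega : D ≠ 0)
  have cD2 : ((D - 2 : ℕ) : ℂ) = (D : ℂ) - 2 := by
    rw [Nat.cast_sub (by omega)]
    norm_num
  have cD1 : ((D - 1 : ℕ) : ℂ) = (D : ℂ) - 1 := by
    rw [Nat.cast_sub (by omega)]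
    norm_num
  have hD2c : (D : ℂ) - 2 ≠ 0 := by
    rw [← cD2]
    exact_mod_cast (by omega : D - 2 ≠ 0)
  have h4c : ((D - 4 : ℕ) : ℂ) = (D : ℂ) - 4 := by
    rw [Nat.cast_sub (by omega)]
    norm_num
  have hD4c : (D : ℂ) - 4 ≠ 0 := by
    rw [← h4c]
    exact_mod_cast (by omega : D - 4 ≠ 0)
  have c3c : ((D - 3 : ℕ) : ℂ) = (D : ℂ) - 3 := by
    rw [Nat.cast_sub (by omega)]
    norm_num
  have hD3c : (D : ℂ) - 3 ≠ 0 := by
    rw [← c3c]
    exact_mod_cast (by omega : D - 3 ≠ 0)
  have f21 : f2.coeff 1 = -e * D * (D - 1) * be := by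
    have h1 := r1 0
    have h2 : ((D - 0).descFactorial 3 : ℕ) = D * (D - 1) * (D - 2) := by
      rw [Nat.sub_zero, show D = (D - 3) + 3 by omega]
      simp only [Nat.descFactorial, Nat.sub_zero]
      have e1 : D - 3 + 3 - 2 = D - 3 + 1 := by omega
      have e2 : D - 3 + 3 - 1 = D - 3 + 2 := by omega
      rw [e1, e2]
      ring
    rw [h2, ← hbe, zero_add] at h1
    push_cast at h1
    rw [cD1, cD2] at h1
    have h3 : ((D : ℂ) - 2) * (f2.coeff 1 - (-e * D * (D - 1) * be)) = 0 := by
      linear_combination h1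
    rcases mul_eq_zero.mp h3 with h4 | h4
    · exact absurd h4 hD2c
    · exact sub_eq_zero.mp h4
  have f2z : ∀ n, 2 ≤ n → n ≠ D - 1 → f2.coeff n = 0 := by
    intro n hn hnD
    by_cases hbig : D - 1 < n
    · exact coeff_dh_high (La_homog hF 2) (by omega)
    · obtain ⟨k, rfl⟩ : ∃ k, n = k + 1 := ⟨n - 1, by omega⟩
      have h1 := r1 k
      rw [c1 k (by omega) (by omega), mul_zero, zero_add] at h1
      rcases mul_eq_zero.mp h1 with h2 | h2
      · exact absurd h2 (Nat.cast_add_one_ne_zero k)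
      · rcases mul_eq_zero.mp h2 with h3 | h3
        · exfalso
          apply hnD
          have h4 := sub_eq_zero.mp h3
          exact (by exact_mod_cast h4.symm)
        · exact h3
  have f32 : 2 * f3.coeff 2 = -e * (D - 2) * (D - 3) * f2.coeff 1 := by
    have h1 := r2 1
    have h2 : ((D - 1 - 1).descFactorial 3 : ℕ) = (D - 2) * (D - 3) * (D - 4) := by
      rw [show D - 1 - 1 = (D - 5) + 3 by omega, show D - 2 = D - 5 + 3 by omega,
        show D - 3 = D - 5 + 2 by omega, show D - 4 = D - 5 + 1 by omega]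
      simp only [Nat.descFactorial, Nat.sub_zero]
      have e1 : D - 5 + 3 - 2 = D - 5 + 1 := by omega
      have e2 : D - 5 + 3 - 1 = D - 5 + 2 := by omega
      rw [e1, e2]
      ring
    rw [h2] at h1
    push_cast at h1
    rw [cD2, c3c, h4c] at h1
    have h3 : ((D : ℂ) - 4) * (2 * f3.coeff 2 - (-e * (D - 2) * (D - 3) * f2.coeff 1)) = 0 := by
      norm_num at h1
      linear_combination h1
    rcases mul_eq_zero.mp h3 with h4 | h4
    · exact absurd h4 hD4c
    · exact sub_eq_zero.mp h4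
  have f3z : ∀ n, 3 ≤ n → n ≠ D - 2 → f3.coeff n = 0 := by
    intro n hn hnD
    by_cases hbig : D - 2 < n
    · exact coeff_dh_high (La_homog hF 3) (by omega)
    · obtain ⟨k, rfl⟩ : ∃ k, n = k + 1 := ⟨n - 1, by omega⟩
      have h1 := r2 k
      rw [f2z k (by omega) (by omega), mul_zero, zero_add] at h1
      rcases mul_eq_zero.mp h1 with h2 | h2
      · exact absurd h2 (Nat.cast_add_one_ne_zero k)
      · rcases mul_eq_zero.mp h2 with h3 | h3
        · exfalso
          apply hnD
          have h4 := sub_eq_zero.mp h3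
          exact (by exact_mod_cast h4.symm)
        · exact h3
  set a0 := f2.coeff 0 with ha0
  set a1 := f2.coeff 1 with ha1
  set a2 := f2.coeff (D - 1) with ha2
  have f2eq : f2 = Polynomial.C a0 + Polynomial.C a1 * Polynomial.X +
      Polynomial.C a2 * Polynomial.X ^ (D - 1) := by
    ext n
    rw [Polynomial.coeff_add, Polynomial.coeff_add, Polynomial.coeff_C,
      Polynomial.coeff_C_mul_X_pow, Polynomial.coeff_C_mul, Polynomial.coeff_X]
    by_cases hn0 : n = 0
    · subst hn0
      rw [if_pos rfl, if_neg (by omega), if_neg (by omega), mul_zero, add_zero, add_zero]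
    · by_cases hn1 : n = 1
      · subst hn1
        rw [if_neg (by omega), if_pos rfl, if_neg (by omega), mul_one, zero_add, add_zero]
      · by_cases hnD : n = D - 1
        · rw [if_neg hn0, if_neg (Ne.symm hn1), if_pos hnD, mul_zero, zero_add, zero_add, hnD]
        · rw [if_neg hn0, if_neg (Ne.symm hn1), if_neg hnD, mul_zero, zero_add, zero_add,
            f2z n (by omega) hnD]
  set b0 := f3.coeff 0 with hb0
  set b1 := f3.coeff 1 with hb1
  set b2 := f3.coeff 2 with hb2
  set b3 := f3.coeff (D - 2) with hb3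
  have f3eq : f3 = Polynomial.C b0 + Polynomial.C b1 * Polynomial.X +
      Polynomial.C b2 * Polynomial.X ^ 2 + Polynomial.C b3 * Polynomial.X ^ (D - 2) := by
    ext n
    rw [Polynomial.coeff_add, Polynomial.coeff_add, Polynomial.coeff_add, Polynomial.coeff_C,
      Polynomial.coeff_C_mul_X_pow, Polynomial.coeff_C_mul_X_pow, Polynomial.coeff_C_mul,
      Polynomial.coeff_X]
    by_cases hn0 : n = 0
    · subst hn0
      rw [if_pos rfl, if_neg (by omega), if_neg (by omega), if_neg (by omega), mul_zero, add_zero,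
        add_zero, add_zero]
    · by_cases hn1 : n = 1
      · subst hn1
        rw [if_neg (by omega), if_pos rfl, if_neg (by omega), if_neg (by omega), mul_one, zero_add,
          add_zero, add_zero]
      · by_cases hn2 : n = 2
        · subst hn2
          rw [if_neg (by omega), if_neg (by omega), if_pos rfl, if_neg (by omega), mul_zero,
            zero_add, zero_add, add_zero]
        · by_cases hnD : n = D - 2
          · rw [if_neg hn0, if_neg (Ne.symm hn1), if_neg hn2, if_pos hnD, mul_zero, zero_add,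
              zero_add, zero_add, hnD]
          · rw [if_neg hn0, if_neg (Ne.symm hn1), if_neg hn2, if_neg hnD, mul_zero, zero_add,
              zero_add, zero_add, f3z n (by omega) hnD]
  -- the relations at the points, with `ka = -be / al = t ^ D`
  set ka := -be / al with hka
  have hka0 : ka ≠ 0 := div_ne_zero (neg_ne_zero.mpr hbe0) hal0
  have htD : ∀ j, j ≠ i → (-(L j 2) / L j 1) ^ D = ka := by
    intro j hj
    have h1 := ht j hj
    rw [hka, eq_div_iff hal0]
    linear_combination h1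
  have hden : 2 * al * D * ka ≠ 0 := by
    refine mul_ne_zero (mul_ne_zero (mul_ne_zero two_ne_zero hal0) hDc) hka0
  -- `γ` as a polynomial in `t`
  have hgam : ∀ j, j ≠ i → 2 * al * D * ka * (L j 0 / L j 1) =
      a1 * (-(L j 2) / L j 1) ^ 2 + a0 * (-(L j 2) / L j 1) + a2 * ka := by
    intro j hj
    have h1 := rel2 hi (hx j hj)
    rw [← hf1, ← hf2, f1eq, f2eq] at h1
    simp only [Polynomial.eval_add, Polynomial.eval_mul, Polynomial.eval_C, Polynomial.eval_X,
      Polynomial.eval_pow, Polynomial.derivative_add, Polynomial.derivative_C,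
      Polynomial.derivative_C_mul, Polynomial.derivative_X_pow, zero_add, Polynomial.eval_natCast,
      map_natCast] at h1
    have h2 := htD j hj
    generalize -(L j 2) / L j 1 = t at h1 h2
    have e1 : t * t ^ (D - 1) = ka := by
      rw [← pow_succ', show D - 1 + 1 = D by omega, h2]
    linear_combination (-t) * h1 + (a2 - 2 * (L j 0 / L j 1) * al * D) * e1
  -- the polynomial relation of degree four
  set S : Polynomial ℂ := Polynomial.C a1 * Polynomial.X ^ 2 + Polynomial.C a0 * Polynomial.X +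
    Polynomial.C (a2 * ka) with hS
  obtain ⟨G, hG⟩ : ∃ G, G = 2 * al * D * ka := ⟨_, rfl⟩
  rw [← hG] at hden
  set P : Polynomial ℂ := Polynomial.C (G ^ 2) * (Polynomial.C b2 * Polynomial.X ^ 4 +
      Polynomial.C b1 * Polynomial.X ^ 3 + Polynomial.C b0 * Polynomial.X ^ 2 +
      Polynomial.C (b3 * ka)) -
    Polynomial.C (3 * G) * S * (Polynomial.C a1 * Polynomial.X ^ 2 +
      Polynomial.C ((D - 1) * a2 * ka)) +
    Polynomial.C (3 * al * D * (D - 1) * ka) * S ^ 2 with hP
  have hPeval : ∀ j, j ≠ i → P.eval (-(L j 2) / L j 1) = 0 := by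
    intro j hj
    have h1 := rel3 hi (hx j hj)
    rw [← hf1, ← hf2, ← hf3, f1eq, f2eq, f3eq] at h1
    simp only [Polynomial.eval_add, Polynomial.eval_mul, Polynomial.eval_C, Polynomial.eval_X,
      Polynomial.eval_pow, Polynomial.derivative_add, Polynomial.derivative_C,
      Polynomial.derivative_C_mul, Polynomial.derivative_X_pow, zero_add, Polynomial.eval_natCast,
      map_natCast, Polynomial.derivative_natCast_mul, Polynomial.derivative_X,
      Polynomial.eval_one] at h1
    have h2 := htD j hj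
    have h3 := hgam j hj
    rw [← hG] at h3
    rw [hP, hS]
    simp only [Polynomial.eval_add, Polynomial.eval_sub, Polynomial.eval_mul, Polynomial.eval_C,
      Polynomial.eval_X, Polynomial.eval_pow]
    generalize -(L j 2) / L j 1 = t at h1 h2 h3 ⊢
    have e1 : t ^ 2 * t ^ (D - 2) = ka := by
      rw [← pow_add, show 2 + (D - 2) = D by omega, h2]
    rw [show D - 1 - 1 = D - 2 by omega, cD1] at h1
    rw [← h3]
    generalize L j 0 / L j 1 = c at h1 h3 ⊢
    linear_combination (G ^ 2 * t ^ 2) * h1 -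
      (G ^ 2 * b3 - 3 * G ^ 2 * c * (D - 1) * a2 + 3 * G ^ 2 * c ^ 2 * al * D * (D - 1)) * e1
  have hSdeg : S.natDegree ≤ 2 := by
    rw [hS]
    compute_degree
  have hPdeg : P.natDegree ≤ 4 := by
    rw [hP]
    have h1 : (Polynomial.C (3 * G) * S * (Polynomial.C a1 * Polynomial.X ^ 2 +
        Polynomial.C ((D - 1) * a2 * ka))).natDegree ≤ 4 := by
      refine (Polynomial.natDegree_mul_le).trans ?_
      have e1 : (Polynomial.C (3 * G) * S).natDegree ≤ 2 :=
        (Polynomial.natDegree_C_mul_le _ _).trans hSdeg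
      have e2 : (Polynomial.C a1 * Polynomial.X ^ 2 +
        Polynomial.C ((D - 1) * a2 * ka)).natDegree ≤ 2 := by compute_degree
      omega
    have h2 : (Polynomial.C (3 * al * D * (D - 1) * ka) * S ^ 2).natDegree ≤ 4 := by
      refine (Polynomial.natDegree_C_mul_le _ _).trans ?_
      refine (Polynomial.natDegree_pow_le).trans ?_
      omega
    have h3 : (Polynomial.C (G ^ 2) * (Polynomial.C b2 * Polynomial.X ^ 4 +
      Polynomial.C b1 * Polynomial.X ^ 3 + Polynomial.C b0 * Polynomial.X ^ 2 +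
      Polynomial.C (b3 * ka))).natDegree ≤ 4 := by
      compute_degree
    exact (Polynomial.natDegree_add_le_of_degree_le (Polynomial.natDegree_sub_le_of_le h3 h1 |>.trans
      (by simp)) h2)
  have hP0 : P = 0 := poly_zero hL hi hx (lt_of_le_of_lt hPdeg (by omega)) hPeval
  have h4 : G ^ 2 * b2 - 3 * G * a1 ^ 2 + 3 * al * D * (D - 1) * ka * a1 ^ 2 = 0 := by
    obtain ⟨w, hw⟩ : ∃ w, w = a2 * ka := ⟨_, rfl⟩
    obtain ⟨u, hu⟩ : ∃ u, u = (D - 1) * a2 * ka := ⟨_, rfl⟩
    obtain ⟨v, hv⟩ : ∃ v, v = 3 * al * D * (D - 1) * ka := ⟨_, rfl⟩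
    have hexp : P = Polynomial.C (G ^ 2 * b2 - 3 * G * a1 ^ 2 + v * a1 ^ 2) * Polynomial.X ^ 4 +
        Polynomial.C (G ^ 2 * b1 - 3 * G * a0 * a1 + 2 * v * a1 * a0) * Polynomial.X ^ 3 +
        Polynomial.C (G ^ 2 * b0 - 3 * G * (a1 * u + w * a1) + v * (a0 ^ 2 + 2 * a1 * w)) *
          Polynomial.X ^ 2 +
        Polynomial.C (-3 * G * a0 * u + 2 * v * a0 * w) * Polynomial.X +
        Polynomial.C (G ^ 2 * (b3 * ka) - 3 * G * w * u + v * w ^ 2) := by
      rw [hP, hS, ← hw, ← hu, ← hv]
      simp only [map_sub, map_add, map_mul, map_pow, map_neg]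
      have e3 : (Polynomial.C (3 : ℂ)) = 3 := map_ofNat Polynomial.C 3
      have e2 : (Polynomial.C (2 : ℂ)) = 2 := map_ofNat Polynomial.C 2
      rw [e3, e2]
      ring
    have h5 := congrArg (fun p : Polynomial ℂ => p.coeff 4) hexp
    rw [hP0] at h5
    simp only [Polynomial.coeff_zero, Polynomial.coeff_add, Polynomial.coeff_C_mul_X_pow,
      Polynomial.coeff_C_mul, Polynomial.coeff_X, Polynomial.coeff_C] at h5
    norm_num at h5
    rw [← hv]
    linear_combination -h5
  have h5 : -4 * be * D * b2 + 3 * (D - 3) * a1 ^ 2 = 0 := by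
    have e1 : al * ka = -be := by
      rw [hka]
      field_simp
    have e2 : al * D * ka ≠ 0 := mul_ne_zero (mul_ne_zero hal0 hDc) hka0
    have e3 : al * D * ka * (-4 * be * D * b2 + 3 * (D - 3) * a1 ^ 2) = 0 := by
      rw [hG] at h4
      linear_combination h4 - 4 * D ^ 2 * al * ka * b2 * e1
    exact (mul_eq_zero.mp e3).resolve_left e2
  have h6 : (D - 3) * a1 * (e * D * (D + 1) * be) = 0 := by
    have h7 : 2 * (-4 * be * D * b2 + 3 * (D - 3) * a1 ^ 2) = 0 := by rw [h5, mul_zero]
    linear_combination (-1 / 2 : ℂ) * h7 - 2 * be * D * f32 + 3 * (D - 3) * a1 * f21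
  have hD1c : (D : ℂ) - 1 ≠ 0 := by
    rw [← cD1]
    exact_mod_cast (by omega : D - 1 ≠ 0)
  have hDp : (D : ℂ) + 1 ≠ 0 := Nat.cast_add_one_ne_zero D
  have ha10 : a1 = 0 := by
    by_contra hne
    have he : e ≠ 0 := by
      intro he
      apply hne
      rw [f21, he]
      ring
    exact (mul_ne_zero (mul_ne_zero hD3c hne) (mul_ne_zero (mul_ne_zero (mul_ne_zero he hDc) hDp)
      hbe0)) h6
  have h8 : (![G, -(a2 * ka), a0] : Fin 3 → ℂ) = 0 := by
    refine not_coplanar hL (by omega) i fun j hj => ?_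
    have h3 := hgam j hj
    rw [← hG, ha10] at h3
    rw [Fin.sum_univ_three]
    simp only [Matrix.cons_val_zero, Matrix.cons_val_one, Matrix.cons_val_two, Matrix.tail_cons,
      Matrix.head_cons]
    have e1 : L j 0 / L j 1 * L j 1 = L j 0 := div_mul_cancel₀ _ (hx j hj)
    have e2 : -(L j 2) / L j 1 * L j 1 = -(L j 2) := div_mul_cancel₀ _ (hx j hj)
    linear_combination (L j 1) * h3 - G * e1 + a0 * e2
  have h9 := congrFun h8 0
  simp only [Matrix.cons_val_zero, Pi.zero_apply] at h9
  exact hden h9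

end Pool.Agent.Helper73.Six
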