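import Pool.Agent.Helper73.Six.Ci3

set_option autoImplicit false

/-!
# Six lines
-/

open MvPolynomial

namespace Pool.Agent.Helper73.Six

open Pool.Agent.Helper74.Apol

/-- quadrics in three variables -/
noncomputable abbrev T2 : Submodule ℂ (MvPolynomial (Fin 3) ℂ) := homogeneousSubmodule (Fin 3) ℂ 2

/-- the six monomials -/
noncomputable def mon : Fin 6 → MvPolynomial (Fin 3) ℂ :=
  ![X 0 * X 0, X 1 * X 1, X 2 * X 2, X 0 * X 1, X 0 * X 2, X 1 * X 2]

lemma mon_mem (s t : Fin 3) : X s * X t ∈ Submodule.span ℂ (Set.range mon) := by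
  have h : ∃ i, mon i = X s * X t := by
    fin_cases s <;> fin_cases t
    · exact ⟨0, rfl⟩
    · exact ⟨3, rfl⟩
    · exact ⟨4, rfl⟩
    · exact ⟨3, mul_comm _ _⟩
    · exact ⟨1, rfl⟩
    · exact ⟨5, rfl⟩
    · exact ⟨4, mul_comm _ _⟩
    · exact ⟨5, mul_comm _ _⟩
    · exact ⟨2, rfl⟩
  obtain ⟨i, hi⟩ := h
  rw [← hi]
  exact Submodule.subset_span ⟨i, rfl⟩

lemma T2_le : T2 ≤ Submodule.span ℂ (Set.range mon) := by
  intro p hp
  have hp2 : p.IsHomogeneous 2 := hp
  have h1 := IsHomogeneous.sum_X_mul_pderiv hp2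
  have h2 : ∀ s, X s * pderiv s p ∈ Submodule.span ℂ (Set.range mon) := by
    intro s
    have h3 : (pderiv s p).IsHomogeneous 1 := IsHomogeneous.pderiv hp2
    have h4 := IsHomogeneous.sum_X_mul_pderiv h3
    rw [one_smul] at h4
    rw [← h4, Finset.mul_sum]
    refine Submodule.sum_mem _ fun t _ => ?_
    obtain ⟨c, hc⟩ := homog_zero (IsHomogeneous.pderiv (i := t) h3)
    rw [hc]
    have h5 : X s * (X t * C c) = c • (X s * X t : MvPolynomial (Fin 3) ℂ) := by
      rw [smul_eq_C_mul]; ring
    rw [h5]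
    exact Submodule.smul_mem _ _ (mon_mem s t)
  have h6 : (2 : ℂ)⁻¹ • (∑ s, X s * pderiv s p) = p := by
    rw [h1, ← Nat.cast_smul_eq_nsmul ℂ, smul_smul]
    norm_num
  rw [← h6]
  exact Submodule.smul_mem _ _ (Submodule.sum_mem _ fun s _ => h2 s)

instance : FiniteDimensional ℂ (Submodule.span ℂ (Set.range mon)) :=
  FiniteDimensional.span_of_finite ℂ (Set.finite_range mon)

instance : FiniteDimensional ℂ T2 := Submodule.finiteDimensional_of_le T2_le

lemma finrank_T2 : Module.finrank ℂ T2 ≤ 6 := by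
  have h1 := Submodule.finrank_mono T2_le
  have h2 := finrank_range_le_card (R := ℂ) mon
  rw [Fintype.card_fin] at h2
  exact h1.trans h2

/-- The binary cubics in the linear forms `a`, `b`. -/
noncomputable def bin (a b : Fin 3 → ℂ) : (Fin 4 → ℂ) →ₗ[ℂ] MvPolynomial (Fin 3) ℂ :=
  Fintype.linearCombination ℂ
    ![lin a ^ 3, lin a ^ 2 * lin b, lin a * lin b ^ 2, lin b ^ 3]

lemma bin_apply (a b : Fin 3 → ℂ) (x : Fin 4 → ℂ) : bin a b x =
    C (x 0) * lin a ^ 3 + C (x 1) * (lin a ^ 2 * lin b) + C (x 2) * (lin a * lin b ^ 2) +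
      C (x 3) * lin b ^ 3 := by
  unfold bin
  rw [Fintype.linearCombination_apply, Fin.sum_univ_four]
  simp only [smul_eq_C_mul]
  rfl

lemma bin_homog (a b : Fin 3 → ℂ) (x : Fin 4 → ℂ) : (bin a b x).IsHomogeneous 3 := by
  rw [bin_apply]
  have hC : ∀ c : ℂ, (C c : MvPolynomial (Fin 3) ℂ).IsHomogeneous 0 := fun c =>
    isHomogeneous_C _ c
  have ha := lin_homog a
  have hb := lin_homog b
  have h0 : (C (x 0) * lin a ^ 3).IsHomogeneous 3 := by
    simpa using (hC (x 0)).mul (ha.pow 3)
  have h1 : (C (x 1) * (lin a ^ 2 * lin b)).IsHomogeneous 3 := by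
    simpa using (hC (x 1)).mul ((ha.pow 2).mul hb)
  have h2 : (C (x 2) * (lin a * lin b ^ 2)).IsHomogeneous 3 := by
    simpa using (hC (x 2)).mul (ha.mul (hb.pow 2))
  have h3 : (C (x 3) * lin b ^ 3).IsHomogeneous 3 := by
    simpa using (hC (x 3)).mul (hb.pow 3)
  exact ((h0.add h1).add h2).add h3

lemma bin_inj {u v a b : Fin 3 → ℂ} (ha1 : dl u (lin a) = 1) (ha2 : dl v (lin a) = 0)
    (hb1 : dl u (lin b) = 0) (hb2 : dl v (lin b) = 1) {x : Fin 4 → ℂ} (hx : bin a b x = 0) :
    x = 0 := by
  rw [bin_apply] at hx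
  have e : ∀ c : ℂ, ∀ w : Fin 3 → ℂ, dl w (C c) = 0 := fun c w => dl_C w c
  have h6 : (C (6 : ℂ) : MvPolynomial (Fin 3) ℂ) = C 3 * C 2 := by
    rw [← C_mul]
    norm_num
  have hu3 : dl u (dl u (dl u (C (x 0) * lin a ^ 3 + C (x 1) * (lin a ^ 2 * lin b) +
      C (x 2) * (lin a * lin b ^ 2) + C (x 3) * lin b ^ 3))) = C (6 * x 0) := by
    simp only [map_add, dl_mul, dl_pow, e, ha1, hb1, map_zero, C_mul]
    norm_num
    rw [h6]
    ring
  have hv3 : dl v (dl v (dl v (C (x 0) * lin a ^ 3 + C (x 1) * (lin a ^ 2 * lin b) +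
      C (x 2) * (lin a * lin b ^ 2) + C (x 3) * lin b ^ 3))) = C (6 * x 3) := by
    simp only [map_add, dl_mul, dl_pow, e, ha2, hb2, map_zero, C_mul]
    norm_num
    rw [h6]
    ring
  have hu2 : dl v (dl u (dl u (C (x 0) * lin a ^ 3 + C (x 1) * (lin a ^ 2 * lin b) +
      C (x 2) * (lin a * lin b ^ 2) + C (x 3) * lin b ^ 3))) = C (2 * x 1) := by
    simp only [map_add, dl_mul, dl_pow, e, ha1, hb1, ha2, hb2, map_zero, C_mul]
    norm_num
    ring
  have hv2 : dl u (dl v (dl v (C (x 0) * lin a ^ 3 + C (x 1) * (lin a ^ 2 * lin b) +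
      C (x 2) * (lin a * lin b ^ 2) + C (x 3) * lin b ^ 3))) = C (2 * x 2) := by
    simp only [map_add, dl_mul, dl_pow, e, ha1, hb1, ha2, hb2, map_zero, C_mul]
    norm_num
    ring
  rw [hx] at hu3 hv3 hu2 hv2
  simp only [map_zero] at hu3 hv3 hu2 hv2
  have h0 := (C_eq_zero.mp hu3.symm)
  have h3 := (C_eq_zero.mp hv3.symm)
  have h1 := (C_eq_zero.mp hu2.symm)
  have h2 := (C_eq_zero.mp hv2.symm)
  funext i
  fin_cases i
  · simpa using h0
  · simpa using h1
  · simpa using h2
  · simpa using h3

variable {L : Fin 6 → Fin 3 → ℂ}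

/-- For every line there is an apolar cubic cone. -/
lemma cone_exists (hL : Pos L) (G : Fin 3 → MvPolynomial (Fin 3) ℂ)
    (hGh : ∀ i, (G i).IsHomogeneous 3) (hGI : ∀ i, G i ∈ annI (arr L))
    (hGli : LinearIndependent ℂ G) (i : Fin 6) :
    ∃ g ∈ annI (arr L), g.IsHomogeneous 3 ∧ g ≠ 0 ∧ dl (L i) g = 0 := by
  classical
  by_contra hcon
  push Not at hcon
  -- linear forms killed by `L i`
  obtain ⟨j, hj⟩ : ∃ j : Fin 6, j ≠ i := ⟨i + 1, by
    fin_cases i <;> decide⟩
  obtain ⟨k, hik, hjk⟩ := third (d := 6) (by norm_num) i j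
  obtain ⟨c, a, b, _, ⟨ha0, ha1, ha2⟩, ⟨hb0, hb1, hb2⟩, _⟩ :=
    dual_basis (hL.ind (Ne.symm hj) hik hjk)
  have hkill : ∀ x, dl (L i) (bin a b x) = 0 := by
    intro x
    rw [bin_apply]
    simp only [map_add, dl_mul, dl_pow, dl_C, ha0, hb0, mul_zero, zero_mul, add_zero]
  set P := pr L (Finset.univ.erase i) with hP
  have hPh : P.IsHomogeneous 5 := by
    have h := pr_homog L (Finset.univ.erase i)
    rw [Finset.card_erase_of_mem (Finset.mem_univ i), Finset.card_univ, Fintype.card_fin] at h
    exact h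
  -- the functionals on quadrics
  set Φ : (Fin 4 → ℂ) →ₗ[ℂ] Module.Dual ℂ T2 :=
    { toFun := fun x =>
        { toFun := fun h => Lam P ((h : MvPolynomial (Fin 3) ℂ) * bin a b x)
          map_add' := by intro h h'; rw [Submodule.coe_add, add_mul, map_add]
          map_smul' := by
            intro r h
            rw [Submodule.coe_smul, smul_mul_assoc, map_smul, RingHom.id_apply] }
      map_add' := by
        intro x y
        ext h
        simp only [LinearMap.coe_mk, AddHom.coe_mk, LinearMap.add_apply, map_add, mul_add]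
      map_smul' := by
        intro r x
        ext h
        simp only [LinearMap.coe_mk, AddHom.coe_mk, LinearMap.smul_apply, map_smul,
          mul_smul_comm, RingHom.id_apply] } with hΦ
  have hΦa : ∀ x h, Φ x h = Lam P ((h : MvPolynomial (Fin 3) ℂ) * bin a b x) := fun x h => rfl
  -- the derivatives of the generators
  set D : (Fin 3 → ℂ) →ₗ[ℂ] T2 :=
    { toFun := fun y => ⟨dl (L i) (Fintype.linearCombination ℂ G y), by
        refine dl_homog (n := 3) _ ?_
        rw [Fintype.linearCombination_apply]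
        refine IsHomogeneous.sum _ _ _ fun r _ => ?_
        exact Submodule.smul_mem (homogeneousSubmodule (Fin 3) ℂ 3) _ (hGh r)⟩
      map_add' := by
        intro x y
        ext1
        simp only [map_add, Submodule.coe_add]
      map_smul' := by
        intro r x
        ext1
        simp only [map_smul, Submodule.coe_smul, Derivation.map_smul, RingHom.id_apply] } with hD
  have hmem : ∀ y, Fintype.linearCombination ℂ G y ∈ annI (arr L) := by
    intro y
    rw [Fintype.linearCombination_apply]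
    refine Ideal.sum_mem _ fun r _ => ?_
    rw [smul_eq_C_mul]
    exact Ideal.mul_mem_left _ _ (hGI r)
  have hhom : ∀ y, (Fintype.linearCombination ℂ G y).IsHomogeneous 3 := by
    intro y
    rw [Fintype.linearCombination_apply]
    refine IsHomogeneous.sum _ _ _ fun r _ => ?_
    exact Submodule.smul_mem (homogeneousSubmodule (Fin 3) ℂ 3) _ (hGh r)
  have hDinj : Function.Injective D := by
    rw [← LinearMap.ker_eq_bot, LinearMap.ker_eq_bot']
    intro y hy
    have h1 : dl (L i) (Fintype.linearCombination ℂ G y) = 0 := congrArg Subtype.val hy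
    by_contra hy0
    refine hcon _ (hmem y) (hhom y) ?_ h1
    intro h2
    apply hy0
    have h3 := Fintype.linearIndependent_iff.mp hGli y (by
      rw [← Fintype.linearCombination_apply ℂ G y]; exact h2)
    funext r
    exact h3 r
  have hrange : Module.finrank ℂ (LinearMap.range D) = 3 := by
    rw [LinearMap.finrank_range_of_inj hDinj, Module.finrank_fintype_fun_eq_card,
      Fintype.card_fin]
  have hann : ∀ x, Φ x ∈ (LinearMap.range D).dualAnnihilator := by
    intro x
    rw [Submodule.mem_dualAnnihilator]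
    rintro _ ⟨y, rfl⟩
    rw [hΦa]
    have h1 : (D y : MvPolynomial (Fin 3) ℂ) = dl (L i) (Fintype.linearCombination ℂ G y) := rfl
    have h2 : dl (L i) (Fintype.linearCombination ℂ G y) * bin a b x =
        dl (L i) (Fintype.linearCombination ℂ G y * bin a b x) := by
      rw [dl_mul, hkill, mul_zero, add_zero]
    rw [h1, h2, hP, ← Lam_one i]
    exact hmem y _
  have hfin := Subspace.finrank_add_finrank_dualAnnihilator_eq (LinearMap.range D)
  have h6 := finrank_T2
  set Φ' : (Fin 4 → ℂ) →ₗ[ℂ] (LinearMap.range D).dualAnnihilator :=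
    LinearMap.codRestrict _ Φ hann with hΦ'
  have hlt : Module.finrank ℂ (LinearMap.range D).dualAnnihilator <
      Module.finrank ℂ (Fin 4 → ℂ) := by
    rw [Module.finrank_fintype_fun_eq_card, Fintype.card_fin]
    omega
  have hker := LinearMap.ker_ne_bot_of_finrank_lt (f := Φ') hlt
  obtain ⟨x, hx, hx0⟩ := (Submodule.ne_bot_iff _).mp hker
  have hx1 : Φ x = 0 := by
    have := congrArg Subtype.val (LinearMap.mem_ker.mp hx)
    exact this
  have hne : bin a b x ≠ 0 := fun h0 => hx0 (bin_inj ha1 ha2 hb1 hb2 h0)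
  refine hcon _ ?_ (bin_homog a b x) hne (hkill x)
  refine mem_ann_of_homog (arr_homog L) (bin_homog a b x) (by norm_num) fun q hq => ?_
  rw [Lam_one i, dl_mul, hkill, zero_mul, zero_add, mul_comm]
  have hq2 : dl (L i) q ∈ T2 := dl_homog (L i) hq
  have h9 := hΦa x ⟨dl (L i) q, hq2⟩
  rw [hx1, LinearMap.zero_apply] at h9
  exact h9.symm

/-- The apolar algebra of six lines in general position is not a complete intersection. -/
theorem no_six (hL : Pos L) (g : Fin 3 → MvPolynomial (Fin 3) ℂ) :
    annI (arr L) ≠ Ideal.span (Set.range g) := by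
  classical
  intro hg
  have hF := arr_homog L
  obtain ⟨G, hGh, hGI, hGli⟩ := three_cubics (annI (arr L)) (fun p hp j => annI_component hF hp j)
    (fun p hp j hj hpj => no_low hL (by norm_num) hp hpj hj)
    (fun p j hj hpj => annI_large hF hpj hj) g hg
  have hGm : ∀ i, G i ∈ annI (arr L) := by
    intro i
    rw [← hGI]
    exact Ideal.subset_span ⟨i, rfl⟩
  choose c hcm hch hc0 hck using cone_exists hL G hGh hGm hGli
  have hne : ∀ i j, i ≠ j → dl (L j) (c i) ≠ 0 := by
    intro i j hij h
    exact hc0 i (two_cones hL (by norm_num) (hcm i) (hch i) hij (hck i) h)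
  -- apolar cubics are combinations of the generators
  set K := Submodule.span ℂ (Set.range G) with hK
  have hKmem : ∀ p ∈ annI (arr L), p.IsHomogeneous 3 → p ∈ K := by
    intro p hp hp3
    rw [← hGI] at hp
    obtain ⟨a, ha, _, hpa⟩ := comp_eq (e := fun _ => 3) hGh hp hp3
    rw [hpa]
    refine Submodule.sum_mem _ fun r _ => ?_
    obtain ⟨x, hx⟩ := homog_zero (ha r)
    rw [hx, ← smul_eq_C_mul]
    exact Submodule.smul_mem _ _ (Submodule.subset_span ⟨r, rfl⟩)
  have hKdim : Module.finrank ℂ K = 3 := by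
    rw [hK, finrank_span_eq_card hGli, Fintype.card_fin]
  have : FiniteDimensional ℂ K := FiniteDimensional.span_of_finite ℂ (Set.finite_range G)
  -- independent triples
  have hind : ∀ i j k, LinearIndependent ℂ ![c i, c j, c k] → ∀ p ∈ K,
      dl (L k) (dl (L j) (dl (L i) p)) = 0 := by
    intro i j k hli p hp
    have hle : Submodule.span ℂ (Set.range ![c i, c j, c k]) ≤ K := by
      rw [Submodule.span_le]
      rintro _ ⟨r, rfl⟩
      fin_cases r
      · exact hKmem _ (hcm i) (hch i)
      · exact hKmem _ (hcm j) (hch j)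
      · exact hKmem _ (hcm k) (hch k)
    have heq : Submodule.span ℂ (Set.range ![c i, c j, c k]) = K := by
      refine Submodule.eq_of_le_of_finrank_eq hle ?_
      rw [finrank_span_eq_card hli, hKdim, Fintype.card_fin]
    rw [← heq] at hp
    induction hp using Submodule.span_induction with
    | mem x hx =>
      obtain ⟨r, rfl⟩ := hx
      fin_cases r
      · change dl (L k) (dl (L j) (dl (L i) (c i))) = 0
        rw [hck, map_zero, map_zero]
      · change dl (L k) (dl (L j) (dl (L i) (c j))) = 0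
        rw [dl_comm (L j), hck, map_zero, map_zero]
      · change dl (L k) (dl (L j) (dl (L i) (c k))) = 0
        rw [dl_comm (L j), dl_comm (L k) (L i), dl_comm (L k) (L j), hck, map_zero, map_zero]
    | zero => rw [map_zero, map_zero, map_zero]
    | add x y _ _ hx hy => rw [map_add, map_add, map_add, hx, hy, add_zero]
    | smul r x _ hx => rw [Derivation.map_smul, Derivation.map_smul, Derivation.map_smul, hx,
        smul_zero]
  -- dependent triples
  have hdep : ∀ i j k, i ≠ j → i ≠ k → j ≠ k → ¬ LinearIndependent ℂ ![c i, c j, c k] →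
      ∃ x y : ℂ, x ≠ 0 ∧ y ≠ 0 ∧ c k = x • c i + y • c j := by
    intro i j k hij hik hjk hli
    rw [Fintype.not_linearIndependent_iff] at hli
    obtain ⟨z, hz, r, hr⟩ := hli
    rw [Fin.sum_univ_three] at hz
    change z 0 • c i + z 1 • c j + z 2 • c k = 0 at hz
    have hz2 : z 2 ≠ 0 := by
      intro h2
      rw [h2, zero_smul, add_zero] at hz
      have h1 : z 1 = 0 := by
        have h := congrArg (dl (L i)) hz
        rw [map_add, Derivation.map_smul, Derivation.map_smul, hck, smul_zero, zero_add,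
          map_zero] at h
        rcases smul_eq_zero.mp h with h | h
        · exact h
        · exact absurd h (hne j i (Ne.symm hij))
      rw [h1, zero_smul, add_zero] at hz
      have h0 : z 0 = 0 := by
        rcases smul_eq_zero.mp hz with h | h
        · exact h
        · exact absurd h (hc0 i)
      apply hr
      fin_cases r
      · exact h0
      · exact h1
      · exact h2
    have hk : c k = (-(z 2)⁻¹ * z 0) • c i + (-(z 2)⁻¹ * z 1) • c j := by
      have h1 : z 2 • c k = - (z 0 • c i + z 1 • c j) := eq_neg_of_add_eq_zero_right hz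
      have h2 : c k = (z 2)⁻¹ • (z 2 • c k) := by rw [smul_smul, inv_mul_cancel₀ hz2, one_smul]
      rw [h2, h1, smul_neg, smul_add, neg_add, smul_smul, smul_smul, ← neg_smul, ← neg_smul,
        neg_mul, neg_mul]
    refine ⟨_, _, ?_, ?_, hk⟩
    · intro h
      rw [h, zero_smul, zero_add] at hk
      apply hne k j (Ne.symm hjk)
      rw [hk, Derivation.map_smul, hck, smul_zero]
    · intro h
      rw [h, zero_smul, add_zero] at hk
      apply hne k i (Ne.symm hik)
      rw [hk, Derivation.map_smul, hck, smul_zero]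
  -- at most one dependent third index
  have hone : ∀ i j k l, i ≠ j → i ≠ k → j ≠ k → i ≠ l → j ≠ l → k ≠ l →
      ¬ LinearIndependent ℂ ![c i, c j, c k] → ¬ LinearIndependent ℂ ![c i, c j, c l] → False := by
    intro i j k l hij hik hjk hil hjl hkl hk hl
    obtain ⟨x, y, hx, hy, hck'⟩ := hdep i j k hij hik hjk hk
    obtain ⟨x', y', hx', hy', hcl'⟩ := hdep i j l hij hil hjl hl
    -- mixed derivatives
    have hik0 : dl (L i) (dl (L k) (c j)) = 0 := by
      have h := congrArg (fun p => dl (L i) (dl (L k) p)) hck'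
      simp only [map_add, Derivation.map_smul, hck, map_zero] at h
      rw [dl_comm (L i) (L k) (c i), hck, map_zero, smul_zero, zero_add] at h
      rcases smul_eq_zero.mp h.symm with h | h
      · exact absurd h hy
      · exact h
    have h1 : dl (L j) (dl (L i) (c l)) = 0 := by
      rw [hcl', map_add, Derivation.map_smul, Derivation.map_smul, hck, smul_zero, zero_add,
        Derivation.map_smul, dl_comm, hck, map_zero, smul_zero]
    have h2 : dl (L k) (dl (L i) (c l)) = 0 := by
      rw [hcl', map_add, Derivation.map_smul, Derivation.map_smul, hck, smul_zero, zero_add,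
        Derivation.map_smul, dl_comm, hik0, smul_zero]
    -- `L l` in the basis
    have h3 : dl (L l) (dl (L i) (c l)) = 0 := by rw [dl_comm, hck, map_zero]
    have h4 : dl (L i) (c l) = 0 :=
      kill3 (hL.ind hjk hjl hkl) (dl_homog (L i) (hch l)) two_ne_zero h1 h2 h3
    exact hne l i (Ne.symm hil) h4
  -- second mixed derivatives vanish
  have hmix : ∀ p ∈ K, ∀ i j, i ≠ j → dl (L j) (dl (L i) p) = 0 := by
    intro p hp i j hij
    have hp3 : p.IsHomogeneous 3 := by
      have hle : K ≤ homogeneousSubmodule (Fin 3) ℂ 3 := by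
        rw [hK, Submodule.span_le]
        rintro _ ⟨r, rfl⟩
        exact hGh r
      exact hle hp
    set S : Finset (Fin 6) := (Finset.univ.erase i).erase j with hS
    have hScard : S.card = 4 := card_two hij
    set Dp : Finset (Fin 6) := S.filter (fun k => ¬ LinearIndependent ℂ ![c i, c j, c k]) with hDp
    have hDcard : Dp.card ≤ 1 := by
      rw [Finset.card_le_one]
      intro k hk l hl
      by_contra hkl
      rw [hDp, Finset.mem_filter, hS, Finset.mem_erase, Finset.mem_erase] at hk hl
      exact hone i j k l hij (Ne.symm hk.1.2.1) (Ne.symm hk.1.1) (Ne.symm hl.1.2.1)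
        (Ne.symm hl.1.1) hkl hk.2 hl.2
    have hcard2 : 2 < (S \ Dp).card := by
      have h := Finset.le_card_sdiff Dp S
      omega
    obtain ⟨k1, hk1, k2, hk2, k3, hk3, h12, h13, h23⟩ := Finset.two_lt_card.mp hcard2
    have hz : ∀ k ∈ S \ Dp, dl (L k) (dl (L j) (dl (L i) p)) = 0 := by
      intro k hk
      rw [Finset.mem_sdiff, hDp, Finset.mem_filter, not_and, not_not] at hk
      exact hind i j k (hk.2 hk.1) p hp
    exact kill3 (hL.ind h12 h13 h23) (dl_homog _ (dl_homog _ hp3)) one_ne_zero (hz k1 hk1)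
      (hz k2 hk2) (hz k3 hk3)
  have hG0 : G 0 = 0 := by
    refine kill_all hL (by norm_num) (hGh 0) three_ne_zero fun i => ?_
    exact kill_others hL (by norm_num) i (dl_homog _ (hGh 0)) two_ne_zero fun j hj =>
      hmix (G 0) (Submodule.subset_span ⟨0, rfl⟩) i j (Ne.symm hj)
  exact hGli.ne_zero 0 hG0

end Pool.Agent.Helper73.Six
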