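import Pool.Agent.Helper73.Six.Local5
import Pool.Agent.Helper41.Hk.Star

set_option autoImplicit false

/-!
# The leaf with a free linear factor
-/

open MvPolynomial

namespace Pool.Agent.Helper73.Six

open Pool.Agent.Helper74.Apol Pool.Agent.Helper41.Hk

variable {d : ℕ} {L : Fin d → Fin 3 → ℂ}

/-- `X 0 = z`, `X 1 = t`, `X 2 = 1`. -/
noncomputable def dz (z : ℂ) : MvPolynomial (Fin 3) ℂ →ₐ[ℂ] Polynomial ℂ :=
  aeval fun s => if s = 0 then Polynomial.C z else if s = 1 then Polynomial.X else 1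

lemma dz_X0 (z : ℂ) : dz z (X 0) = Polynomial.C z := by
  unfold dz
  rw [aeval_X, if_pos rfl]

lemma dz_X1 (z : ℂ) : dz z (X 1) = Polynomial.X := by
  unfold dz
  rw [aeval_X, if_neg (by decide), if_pos rfl]

lemma dz_X2 (z : ℂ) : dz z (X 2) = 1 := by
  unfold dz
  rw [aeval_X, if_neg (by decide), if_neg (by decide)]

lemma dz_C (z c : ℂ) : dz z (C c) = Polynomial.C c := by
  have := (dz z).commutes c
  rwa [algebraMap_eq, Polynomial.algebraMap_eq] at this

lemma dz_lin (z : ℂ) (x : Fin 3 → ℂ) : dz z (lin x) =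
    Polynomial.C (x 1) * Polynomial.X + Polynomial.C (x 2 + x 0 * z) := by
  unfold lin
  rw [Fin.sum_univ_three, map_add, map_add, map_mul, map_mul, map_mul, dz_X0, dz_X1, dz_X2, dz_C,
    dz_C, dz_C, Polynomial.C_add, Polynomial.C_mul]
  ring

/-- The product of the other lines at `X 0 = z`. -/
noncomputable def PZ (L : Fin d → Fin 3 → ℂ) (i : Fin d) (z : ℂ) : Polynomial ℂ :=
  ∏ j ∈ Finset.univ.erase i, (Polynomial.C (L j 1) * Polynomial.X + Polynomial.C (L j 2 + L j 0 * z))

lemma dz_arr {i : Fin d} (hi : L i = e0) (z : ℂ) : dz z (arr L) = Polynomial.C z * PZ L i z := by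
  rw [arr_split hi, map_mul, dz_X0]
  unfold pr PZ
  rw [map_prod]
  congr 1
  exact Finset.prod_congr rfl fun j _ => dz_lin _ _

lemma PZ_zero {i : Fin d} (hi : L i = e0) : PZ L i 0 = dh (La (arr L) 1) := by
  rw [dh_La_one hi]
  unfold PZ
  refine Finset.prod_congr rfl fun j _ => ?_
  rw [mul_zero, add_zero]

lemma dz_even (F : MvPolynomial (Fin 3) ℂ)
    (h : ∀ a : Fin 3 →₀ ℕ, Even (a 0) → a 1 ≠ 0 → coeff a F = 0) (z : ℂ) :
    ∃ e : ℂ, dz z F + dz (-z) F = Polynomial.C e := by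
  refine ⟨∑ a ∈ F.support, coeff a F * (z ^ a 0 + (-z) ^ a 0), ?_⟩
  have key : ∀ w : ℂ, dz w F = ∑ a ∈ F.support, Polynomial.C (coeff a F) *
      (Polynomial.C (w ^ a 0) * Polynomial.X ^ a 1) := by
    intro w
    conv_lhs => rw [F.as_sum]
    rw [map_sum]
    refine Finset.sum_congr rfl fun a _ => ?_
    rw [monomial_eq, map_mul, dz_C, Finsupp.prod_fintype _ _ (fun i => by simp),
      Fin.prod_univ_three, map_mul, map_mul, map_pow, map_pow, map_pow, dz_X0, dz_X1, dz_X2,
      one_pow, mul_one, Polynomial.C_pow]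
  rw [key, key, map_sum, ← Finset.sum_add_distrib]
  refine Finset.sum_congr rfl fun a _ => ?_
  rcases Nat.even_or_odd (a 0) with he | ho
  · by_cases h1 : a 1 = 0
    · rw [h1, pow_zero, mul_one, mul_one, Polynomial.C_mul, Polynomial.C_add]
      ring
    · rw [h a he h1]
      simp
  · rw [ho.neg_pow, Polynomial.C_neg]
    have : z ^ a 0 + -z ^ a 0 = 0 := add_neg_cancel _
    rw [this, mul_zero, Polynomial.C_0]
    ring

lemma coeff_of_La {H : MvPolynomial (Fin 3) ℂ} {n : ℕ} (h : La H n = 0) {a : Fin 3 →₀ ℕ}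
    (ha : a 0 = n) : coeff a H = 0 := by
  set b : Fin 3 →₀ ℕ := a - Finsupp.single 0 n with hb
  have hb0 : b 0 = 0 := by simp [hb, ha]
  have hba : b + Finsupp.single 0 n = a := by
    rw [hb, tsub_add_cancel_of_le]
    rw [Finsupp.single_le_iff, ha]
  have h2 := congrArg (coeff b) h
  unfold La at h2
  rw [coeff_rho _ b hb0, coeff_zero, coeff_ap_X0, hba] at h2
  exact h2

lemma even_vanish {F H : MvPolynomial (Fin 3) ℂ} (hH : Free H)
    (h : X 1 * (X 0 ^ 2 + H) ∈ annI F) (hF0 : La F 0 = 0) (a : Fin 3 →₀ ℕ) (he : Even (a 0))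
    (ha1 : a 1 ≠ 0) : coeff a F = 0 := by
  set G := pderiv 1 F with hG
  have hG1 : ap (H + X 0 * 0 + X 0 ^ 2 * 1 + X 0 ^ 3 * 0) G = 0 := by
    rw [mul_zero, mul_zero, mul_one, add_zero, add_zero, hG, ← ap_X, ← ap_mul, ← ap_iff]
    have : (H + X 0 ^ 2) * X 1 = X 1 * (X 0 ^ 2 + H) := by ring
    rw [this]
    exact h
  have r := La_rel hH free_zero (map_one rho) free_zero hG1
  simp only [ap_zero', add_zero, ap_one] at r
  have hev : ∀ n, La G (2 * n) = 0 := by
    intro n
    induction n with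
    | zero =>
      unfold La
      rw [mul_zero, pow_zero, ap_one, hG, ← pderiv_rho (by decide)]
      have : rho F = 0 := by
        unfold La at hF0
        rwa [pow_zero, ap_one] at hF0
      rw [this, map_zero]
    | succ n ih =>
      have := r (2 * n)
      rw [ih, map_zero, zero_add] at this
      exact this
  obtain ⟨n, hn⟩ := he
  set b : Fin 3 →₀ ℕ := a - Finsupp.single 1 1 with hb
  have hba : b + Finsupp.single 1 1 = a := by
    rw [hb, tsub_add_cancel_of_le]
    rw [Finsupp.single_le_iff]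
    omega
  have hb0 : b 0 = 2 * n := by
    rw [hb, Finsupp.tsub_apply, Finsupp.single_apply, if_neg (by decide), hn]
    omega
  have h1 := coeff_of_La (hev n) hb0
  rw [hG, coeff_pderiv, hba] at h1
  rcases mul_eq_zero.mp h1 with h2 | h2
  · exact h2
  · exact absurd h2 (Nat.cast_add_one_ne_zero _)

lemma PZ_diff {i : Fin d} (hi : L i = e0) {H : MvPolynomial (Fin 3) ℂ} (hH : Free H)
    (h : X 1 * (X 0 ^ 2 + H) ∈ annI (arr L)) (z : ℂ) :
    ∃ e : ℂ, PZ L i z - PZ L i (-z) = Polynomial.C e := by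
  by_cases hz : z = 0
  · refine ⟨0, ?_⟩
    rw [hz, neg_zero, sub_self, Polynomial.C_0]
  · obtain ⟨e, he⟩ := dz_even (arr L) (even_vanish hH h (La_zero hi)) z
    rw [dz_arr hi, dz_arr hi] at he
    refine ⟨e / z, ?_⟩
    have h1 : Polynomial.C z * (PZ L i z - PZ L i (-z)) = Polynomial.C z * Polynomial.C (e / z) := by
      rw [← Polynomial.C_mul, mul_div_cancel₀ _ hz, ← he, Polynomial.C_neg]
      ring
    exact mul_left_cancel₀ (by rw [Ne, Polynomial.C_eq_zero]; exact hz) h1

/-- A line through the point `X 1` passes through `X 0` as well. -/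
lemma zero_of_zero (hL : Pos L) (hd : 5 ≤ d) {i j : Fin d} (hi : L i = e0) (hj : j ≠ i)
    (hx : L j 1 = 0) {e : ℂ} (h : PZ L i 1 - PZ L i (-1) = Polynomial.C e) : L j 0 = 0 := by
  have hmem : j ∈ Finset.univ.erase i := Finset.mem_erase.mpr ⟨hj, Finset.mem_univ j⟩
  have key : ∀ z, (PZ L i z).coeff (d - 2) = (L j 2 + L j 0 * z) *
      ∏ k ∈ (Finset.univ.erase i).erase j, L k 1 := by
    intro z
    unfold PZ
    rw [← Finset.mul_prod_erase _ _ hmem, hx, Polynomial.C_0, zero_mul, zero_add,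
      Polynomial.coeff_C_mul]
    congr 1
    have := coeff_prod_lin ((Finset.univ.erase i).erase j) (fun k => L k 1)
      (fun k => L k 2 + L k 0 * z)
    rw [card_two (Ne.symm hj)] at this
    exact this
  have h1 := congrArg (fun p => p.coeff (d - 2)) h
  simp only [Polynomial.coeff_sub] at h1
  rw [key, key, Polynomial.coeff_C, if_neg (by omega)] at h1
  have h2 : ∏ k ∈ (Finset.univ.erase i).erase j, L k 1 ≠ 0 := by
    rw [Finset.prod_ne_zero_iff]
    intro k hk h0
    rw [Finset.mem_erase, Finset.mem_erase] at hk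
    apply minor_ne hL hi (Ne.symm hj) (Ne.symm hk.2.1) (Ne.symm hk.1)
    rw [hx, h0]
    ring
  have h3 : L j 0 * (2 * ∏ k ∈ (Finset.univ.erase i).erase j, L k 1) = 0 := by
    linear_combination h1
  rcases mul_eq_zero.mp h3 with h4 | h4
  · exact h4
  · exfalso
    rcases mul_eq_zero.mp h4 with h5 | h5
    · norm_num at h5
    · exact h2 h5

/-- The lines with a finite root. -/
noncomputable def SS (L : Fin d → Fin 3 → ℂ) (i : Fin d) : Finset (Fin d) := by
  classical
  exact (Finset.univ.erase i).filter fun j => L j 1 ≠ 0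

lemma mem_SS {i j : Fin d} : j ∈ SS L i ↔ j ≠ i ∧ L j 1 ≠ 0 := by
  classical
  unfold SS
  rw [Finset.mem_filter, Finset.mem_erase]
  simp

lemma card_SS (hL : Pos L) {i : Fin d} (hi : L i = e0) :
    (SS L i).card = d - 1 ∨ ((SS L i).card = d - 2 ∧ ∃ j, j ≠ i ∧ L j 1 = 0) := by
  classical
  by_cases hex : ∃ j, j ≠ i ∧ L j 1 = 0
  · obtain ⟨j, hj, hj1⟩ := hex
    refine Or.inr ⟨?_, j, hj, hj1⟩
    have : SS L i = (Finset.univ.erase i).erase j := by
      ext k
      rw [mem_SS, Finset.mem_erase, Finset.mem_erase]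
      constructor
      · rintro ⟨h1, h2⟩
        refine ⟨?_, h1, Finset.mem_univ k⟩
        rintro rfl
        exact h2 hj1
      · rintro ⟨h1, h2, _⟩
        refine ⟨h2, fun h3 => ?_⟩
        apply minor_ne hL hi (Ne.symm hj) (Ne.symm h2) (Ne.symm h1)
        rw [hj1, h3]
        ring
    rw [this, card_two (Ne.symm hj)]
  · push Not at hex
    left
    have : SS L i = Finset.univ.erase i := by
      ext k
      rw [mem_SS, Finset.mem_erase]
      constructor
      · rintro ⟨h1, _⟩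
        exact ⟨h1, Finset.mem_univ k⟩
      · rintro ⟨h1, _⟩
        exact ⟨h1, hex k h1⟩
    rw [this, card_one]

/-- The leading coefficient. -/
noncomputable def LAM (L : Fin d → Fin 3 → ℂ) (i : Fin d) : ℂ := by
  classical
  exact ∏ j ∈ Finset.univ.erase i, if L j 1 = 0 then L j 2 else L j 1

lemma LAM_ne (hL : Pos L) (hd : 4 ≤ d) {i : Fin d} (hi : L i = e0) : LAM L i ≠ 0 := by
  classical
  unfold LAM
  rw [Finset.prod_ne_zero_iff]
  intro j hj
  have hji := (Finset.mem_erase.mp hj).1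
  split_ifs with h
  · intro h2
    obtain ⟨k, hk1, hk2⟩ := third hd i j
    apply minor_ne hL hi (Ne.symm hji) hk1 hk2
    rw [h, h2]
    ring
  · exact h

lemma PZ_eq {i : Fin d} (h0 : ∀ j, j ≠ i → L j 1 = 0 → L j 0 = 0) (z : ℂ) :
    PZ L i z = Polynomial.C (LAM L i) * ∏ j ∈ SS L i, (Polynomial.X -
      Polynomial.C (-(L j 2) / L j 1 - L j 0 / L j 1 * z)) := by
  classical
  unfold PZ LAM SS
  rw [Finset.prod_filter, map_prod, ← Finset.prod_mul_distrib]
  refine Finset.prod_congr rfl fun j hj => ?_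
  have hji := (Finset.mem_erase.mp hj).1
  by_cases h : L j 1 = 0
  · rw [if_pos h, if_neg (not_not.mpr h), h, h0 j hji h, Polynomial.C_0, zero_mul, zero_mul,
      zero_add, add_zero, mul_one]
  · rw [if_neg h, if_pos h, mul_sub, ← Polynomial.C_mul]
    have : L j 1 * (-(L j 2) / L j 1 - L j 0 / L j 1 * z) = -(L j 2 + L j 0 * z) := by
      field_simp
      ring
    rw [this, Polynomial.C_neg, sub_neg_eq_add]

lemma star_normal (hL : Pos L) (hd : 8 ≤ d) {i : Fin d} (hi : L i = e0)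
    (hsum : ∑ j ∈ SS L i, -(L j 2) / L j 1 = 0) {H c : MvPolynomial (Fin 3) ℂ} (hH : Free H)
    (fc : Free c) (hc : c.IsHomogeneous 3) (h : X 1 * (X 0 ^ 2 + H) ∈ annI (arr L))
    (h' : X 1 * c ∈ annI (arr L)) : c = 0 := by
  classical
  have hF := arr_homog L
  have hdiff := PZ_diff hi hH h
  have h0 : ∀ j, j ≠ i → L j 1 = 0 → L j 0 = 0 := by
    intro j hj hx
    obtain ⟨e, he⟩ := hdiff 1
    exact zero_of_zero hL (by omega) hi hj hx he
  have hLAM := LAM_ne hL (by omega) hi
  obtain ⟨k, hk⟩ := free_cubic fc hc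
  set S := SS L i with hS
  set s : Fin S.card → Fin d := fun r => (S.equivFin.symm r : S).1 with hs
  have hsmem : ∀ r, s r ∈ S := fun r => (S.equivFin.symm r : S).2
  have hsinj : Function.Injective s := by
    intro a b hab
    exact S.equivFin.symm.injective (Subtype.ext hab)
  have hprod : ∀ f : Fin d → Polynomial ℂ, ∏ r, f (s r) = ∏ j ∈ S, f j := by
    intro f
    rw [← Finset.prod_coe_sort S f]
    exact Equiv.prod_comp S.equivFin.symm (fun x : S => f x.1)
  have hsums : ∀ f : Fin d → ℂ, ∑ r, f (s r) = ∑ j ∈ S, f j := by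
    intro f
    rw [← Finset.sum_coe_sort S f]
    exact Equiv.sum_comp S.equivFin.symm (fun x : S => f x.1)
  have hk0 : k = 0 := by
    refine star_uni (d - 1) S.card (by omega) ?_ (fun r => -(L (s r) 2) / L (s r) 1)
      (fun r => L (s r) 0 / L (s r) 1) ?_ ?_ ?_ ?_ k ?_
    · rcases card_SS hL hi with h1 | ⟨h1, _⟩
      · left; exact h1
      · right
        rw [h1]
        omega
    · intro a b hab
      by_contra hne
      have ha := mem_SS.mp (hsmem a)
      have hb := mem_SS.mp (hsmem b)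
      exact t_inj hL hi ha.1 hb.1 (fun h2 => hne (hsinj h2)) ha.2 hb.2 hab
    · rw [hsums (fun j => -(L j 2) / L j 1)]
      exact hsum
    · rintro ⟨x, y, hxy⟩
      have h5 := no_common hL (by omega) hi (![1, -y, x] : Fin 3 → ℂ) (by
        intro j hj hx
        have hj' : j ∈ S := mem_SS.mpr ⟨hj, hx⟩
        have h6 := hxy (S.equivFin ⟨j, hj'⟩)
        have h7 : s (S.equivFin ⟨j, hj'⟩) = j := by
          rw [hs]
          simp
        simp only [h7] at h6
        rw [Fin.sum_univ_three]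
        simp only [Matrix.cons_val_zero, Matrix.cons_val_one, Matrix.cons_val_two,
          Matrix.tail_cons, Matrix.head_cons]
        field_simp at h6
        linear_combination h6)
      have h6 := congrFun h5 0
      simp at h6
    · intro z
      obtain ⟨e, he⟩ := hdiff z
      refine ⟨e / LAM L i, ?_⟩
      rw [PZ_eq h0, PZ_eq h0, ← mul_sub] at he
      rw [hprod (fun j => Polynomial.X - Polynomial.C (-(L j 2) / L j 1 - L j 0 / L j 1 * z)),
        hprod (fun j => Polynomial.X - Polynomial.C (-(L j 2) / L j 1 + L j 0 / L j 1 * z))]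
      have h1 : ∀ j, Polynomial.X - Polynomial.C (-(L j 2) / L j 1 + L j 0 / L j 1 * z) =
          Polynomial.X - Polynomial.C (-(L j 2) / L j 1 - L j 0 / L j 1 * -z) := by
        intro j
        rw [mul_neg, sub_neg_eq_add]
      simp only [h1]
      refine mul_left_cancel₀ (a := Polynomial.C (LAM L i)) (by
        rw [Ne, Polynomial.C_eq_zero]; exact hLAM) ?_
      rw [he, ← Polynomial.C_mul, mul_div_cancel₀ _ hLAM]
    · intro m _
      have h1 := La_of_mem ((free_X (by decide : (1 : Fin 3) ≠ 0)).mul fc) h' 1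
      have h2 := congrArg (fun p => (dh p).coeff m) h1
      simp only [map_zero, Polynomial.coeff_zero] at h2
      have h3 : X 1 * c = C (k 0) * (X 1 ^ 1 * X 2 ^ 3) + C (k 1) * (X 1 ^ 2 * X 2 ^ 2) +
          C (k 2) * (X 1 ^ 3 * X 2 ^ 1) + C (k 3) * (X 1 ^ 4 * X 2 ^ 0) := by
        rw [hk, Fin.sum_univ_four]
        change X 1 * (C (k 0) * (X 1 ^ 0 * X 2 ^ (3 - 0)) +
          C (k 1) * (X 1 ^ 1 * X 2 ^ (3 - 1)) + C (k 2) * (X 1 ^ 2 * X 2 ^ (3 - 2)) +
          C (k 3) * (X 1 ^ 3 * X 2 ^ (3 - 3))) = _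
        ring
      rw [h3, ap_add, ap_add, ap_add, ap_mul (C _), ap_mul (C _), ap_mul (C _), ap_mul (C _),
        ap_C, ap_C, ap_C, ap_C] at h2
      simp only [map_add, map_smul, Polynomial.coeff_add, Polynomial.coeff_smul,
        smul_eq_mul] at h2
      rw [coeff_dh_mon (La_homog hF 1), coeff_dh_mon (La_homog hF 1), coeff_dh_mon (La_homog hF 1),
        coeff_dh_mon (La_homog hF 1)] at h2
      have h4 : ∀ n, (dh (La (arr L) 1)).coeff n = LAM L i *
          (∏ r, (Polynomial.X - Polynomial.C (-(L (s r) 2) / L (s r) 1))).coeff n := by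
        intro n
        rw [← PZ_zero hi, PZ_eq h0, Polynomial.coeff_C_mul,
          hprod (fun j => Polynomial.X - Polynomial.C (-(L j 2) / L j 1))]
        simp only [mul_zero, sub_zero]
        rfl
      rw [h4, h4, h4, h4] at h2
      rw [Fin.sum_univ_four]
      refine (mul_eq_zero.mp (?_ : LAM L i * _ = 0)).resolve_left hLAM
      change _ * (k 0 * _ * ((m + 0 + 1).descFactorial (0 + 1) : ℂ) *
        ((d - 1 - (m + 0 + 1)).descFactorial (3 - 0) : ℂ) +
        k 1 * _ * ((m + 1 + 1).descFactorial (1 + 1) : ℂ) *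
        ((d - 1 - (m + 1 + 1)).descFactorial (3 - 1) : ℂ) +
        k 2 * _ * ((m + 2 + 1).descFactorial (2 + 1) : ℂ) *
        ((d - 1 - (m + 2 + 1)).descFactorial (3 - 2) : ℂ) +
        k 3 * _ * ((m + 3 + 1).descFactorial (3 + 1) : ℂ) *
        ((d - 1 - (m + 3 + 1)).descFactorial (3 - 3) : ℂ)) = 0
      linear_combination h2
  rw [hk, hk0]
  simp

lemma frame_act1 (u1 u2 m1 m2 n1 n2 : ℂ) (j : Fin d) :
    act (frame u1 u2 m1 m2 n1 n2) L j 1 = m1 * L j 1 + m2 * L j 2 := by
  unfold act frame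
  simp [Matrix.mulVec, dotProduct, Fin.sum_univ_three]

lemma frame_act2 (u1 u2 m1 m2 n1 n2 : ℂ) (j : Fin d) :
    act (frame u1 u2 m1 m2 n1 n2) L j 2 = n1 * L j 1 + n2 * L j 2 := by
  unfold act frame
  simp [Matrix.mulVec, dotProduct, Fin.sum_univ_three]

theorem star_leaf (hL : Pos L) (hd : 8 ≤ d) {i : Fin d} (hi : L i = e0) : StarLeaf L := by
  classical
  intro M e h c fM hM hM0 fe he fh hh fc hc hmem hmem'
  obtain ⟨m1, m2, hm⟩ := free_lin fM hM
  obtain ⟨a, b, hab⟩ := free_lin fe he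
  have hm0 : m1 ≠ 0 ∨ m2 ≠ 0 := lin_ne (by rw [← hm]; exact hM0)
  obtain ⟨n1, n2, hn⟩ := exists_compl hm0
  -- the set of indices does not depend on the other rows
  set S := (Finset.univ.erase i).filter fun j => m1 * L j 1 + m2 * L j 2 ≠ 0 with hS
  set s := (∑ j ∈ S, -(n1 * L j 1 + n2 * L j 2) / (m1 * L j 1 + m2 * L j 2)) / (S.card : ℂ) with hs
  have hn' : m1 * (n2 + s * m2) - m2 * (n1 + s * m1) ≠ 0 := by
    have : m1 * (n2 + s * m2) - m2 * (n1 + s * m1) = m1 * n2 - m2 * n1 := by ring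
    rw [this]
    exact hn
  set A := frame (a / 2) (b / 2) m1 m2 (n1 + s * m1) (n2 + s * m2) with hA
  have hAdet : IsUnit A.det := by
    rw [hA, frame_det]
    exact isUnit_iff_ne_zero.mpr hn'
  obtain ⟨hi1, hi2⟩ := frame_inv (u1 := a / 2) (u2 := b / 2) hn'
  rw [← hA] at hi1 hi2
  have hLA := hL.act hAdet
  have hiA : act A L i = e0 := frame_act hi _ _ _ _ _ _
  have hSS : SS (act A L) i = S := by
    ext j
    rw [mem_SS, hS, Finset.mem_filter, Finset.mem_erase, hA, frame_act1]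
    simp
  have hScard : (S.card : ℂ) ≠ 0 := by
    rw [← hSS]
    rcases card_SS hLA hiA with h1 | ⟨h1, _⟩
    · rw [h1, Nat.cast_ne_zero]
      omega
    · rw [h1, Nat.cast_ne_zero]
      omega
  have hsum : ∑ j ∈ SS (act A L) i, -(act A L j 2) / act A L j 1 = 0 := by
    rw [hSS]
    have h1 : ∀ j ∈ S, -(act A L j 2) / act A L j 1 =
        -(n1 * L j 1 + n2 * L j 2) / (m1 * L j 1 + m2 * L j 2) - s := by
      intro j hj
      rw [hA, frame_act1, frame_act2]
      have h2 : m1 * L j 1 + m2 * L j 2 ≠ 0 := (Finset.mem_filter.mp hj).2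
      field_simp
      ring
    rw [Finset.sum_congr rfl h1, Finset.sum_sub_distrib, Finset.sum_const, nsmul_eq_mul, hs,
      mul_div_cancel₀ _ hScard, sub_self]
  obtain ⟨e2, he2⟩ : ∃ p : MvPolynomial (Fin 3) ℂ, p = C (a / 2) * X 1 + C (b / 2) * X 2 :=
    ⟨_, rfl⟩
  have fe2 : Free e2 := by
    rw [he2]
    exact free_linform _ _
  have hee : e = 2 * e2 := by
    rw [hab, he2]
    have e4 : (2 : MvPolynomial (Fin 3) ℂ) = C 2 := (map_ofNat C 2).symm
    have e1 : (C a : MvPolynomial (Fin 3) ℂ) = 2 * C (a / 2) := by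
      rw [e4, ← C_mul]; congr 1; ring
    have e3 : (C b : MvPolynomial (Fin 3) ℂ) = 2 * C (b / 2) := by
      rw [e4, ← C_mul]; congr 1; ring
    rw [e1, e3]
    ring
  have hc0 : th A⁻¹ c = 0 := by
    refine star_normal hLA hd hiA hsum (H := th A⁻¹ (h - e2 ^ 2))
      (free_th hi1 hi2 (fh.sub (fe2.pow 2))) (free_th hi1 hi2 fc) (th_homog _ hc) ?_ ?_
    · rw [mem_act hAdet, map_mul, map_add, map_pow, th_left hAdet, hA, frame_X0, frame_X1, ← hm,
        ← he2]
      have h1 : M * ((X 0 + e2) ^ 2 + (h - e2 ^ 2)) = M * (X 0 ^ 2 + e * X 0 + h) := by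
        rw [hee]
        ring
      rw [h1]
      exact hmem
    · rw [mem_act hAdet, map_mul, th_left hAdet, hA, frame_X1, ← hm]
      exact hmem'
  rw [← th_left hAdet c, hc0, map_zero]

end Pool.Agent.Helper73.Six
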