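import Pool.Agent.Helper73.Six.StarX

set_option autoImplicit false

/-!
# Three generators force at most one apolar cubic
-/

open MvPolynomial

namespace Pool.Agent.Helper73.Six

open Pool.Agent.Helper74.Apol Pool.Agent.Helper41.Hk

variable {d : ℕ} {L : Fin d → Fin 3 → ℂ}

/-- A pencil of apolar cubics cannot contain a cone for each of four lines. -/
theorem no_four (hL : Pos L) (hd : 8 ≤ d) {g g' : MvPolynomial (Fin 3) ℂ} (hP : Pen L g g')
    (hc : ∀ i, ∃ x y : ℂ, (x ≠ 0 ∨ y ≠ 0) ∧ dl (L i) (C x * g + C y * g') = 0) : False := by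
  choose x y hxy hk using hc
  set c : Fin d → MvPolynomial (Fin 3) ℂ := fun i => C (x i) * g + C (y i) * g' with hcdef
  have hk' : ∀ i, dl (L i) (c i) = 0 := hk
  have hcm : ∀ i, c i ∈ annI (arr L) := fun i =>
    Ideal.add_mem _ (Ideal.mul_mem_left _ _ hP.mem) (Ideal.mul_mem_left _ _ hP.mem')
  have hch : ∀ i, (c i).IsHomogeneous 3 := by
    intro i
    have h1 := (isHomogeneous_C (Fin 3) (x i)).mul hP.hom
    have h2 := (isHomogeneous_C (Fin 3) (y i)).mul hP.hom'
    rw [zero_add] at h1 h2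
    exact h1.add h2
  have hc0 : ∀ i, c i ≠ 0 := by
    intro i h
    obtain ⟨h1, h2⟩ := hP.ind _ _ h
    rcases hxy i with h3 | h3
    · exact h3 h1
    · exact h3 h2
  have hne : ∀ i j, i ≠ j → dl (L j) (c i) ≠ 0 := by
    intro i j hij h
    exact hc0 i (two_cones hL (by omega) (hcm i) (hch i) hij (hk' i) h)
  have hCz : ∀ (z : ℂ) (p : MvPolynomial (Fin 3) ℂ) (v : Fin 3 → ℂ),
      dl v (C z * p) = C z * dl v p := by
    intro z p v
    rw [dl_mul, dl_C, zero_mul, zero_add]
  have hcancel : ∀ (z : ℂ) (p : MvPolynomial (Fin 3) ℂ), z ≠ 0 → C z * p = 0 → p = 0 := by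
    intro z p hz h
    rcases mul_eq_zero.mp h with h1 | h1
    · rw [C_eq_zero] at h1
      exact absurd h1 hz
    · exact h1
  set D : Fin d → Fin d → ℂ := fun i j => x i * y j - y i * x j with hD
  have hD0 : ∀ i j, i ≠ j → D i j ≠ 0 := by
    intro i j hij h
    have h' : x i * y j - y i * x j = 0 := h
    have h1 : C (x j) * c i = C (x i) * c j := by
      have h2 : (C (x i * y j - y i * x j) : MvPolynomial (Fin 3) ℂ) = 0 := by rw [h', C_0]
      simp only [C_sub, C_mul] at h2
      simp only [hcdef]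
      linear_combination -g' * h2
    have h3 : C (y j) * c i = C (y i) * c j := by
      have h2 : (C (x i * y j - y i * x j) : MvPolynomial (Fin 3) ℂ) = 0 := by rw [h', C_0]
      simp only [C_sub, C_mul] at h2
      simp only [hcdef]
      linear_combination g * h2
    rcases hxy j with h4 | h4
    · have h5 := congrArg (dl (L j)) h1
      rw [hCz, hCz, hk' j, mul_zero] at h5
      exact hne i j hij (hcancel _ _ h4 h5)
    · have h5 := congrArg (dl (L j)) h3
      rw [hCz, hCz, hk' j, mul_zero] at h5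
      exact hne i j hij (hcancel _ _ h4 h5)
  have hrel : ∀ i j k, C (D i j) * c k = C (D k j) * c i + C (D i k) * c j := by
    intro i j k
    simp only [hD, hcdef, C_sub, C_mul]
    ring
  obtain ⟨i, hi⟩ : ∃ i : Fin d, (i : ℕ) = 0 := ⟨⟨0, by omega⟩, rfl⟩
  obtain ⟨j, hj⟩ : ∃ i : Fin d, (i : ℕ) = 1 := ⟨⟨1, by omega⟩, rfl⟩
  obtain ⟨k, hkk⟩ : ∃ i : Fin d, (i : ℕ) = 2 := ⟨⟨2, by omega⟩, rfl⟩
  obtain ⟨l, hl⟩ : ∃ i : Fin d, (i : ℕ) = 3 := ⟨⟨3, by omega⟩, rfl⟩
  have hij : i ≠ j := by intro h; rw [h] at hi; omega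
  have hik : i ≠ k := by intro h; rw [h] at hi; omega
  have hil : i ≠ l := by intro h; rw [h] at hi; omega
  have hjk : j ≠ k := by intro h; rw [h] at hj; omega
  have hjl : j ≠ l := by intro h; rw [h] at hj; omega
  have hkl : k ≠ l := by intro h; rw [h] at hkk; omega
  have h1 : dl (L k) (dl (L i) (c j)) = 0 := by
    have h2 := congrArg (fun p => dl (L k) (dl (L i) p)) (hrel i j k)
    simp only [map_add, hCz, hk', mul_zero, zero_add] at h2
    rw [dl_comm (L k) (L i) (c k), hk', map_zero, mul_zero] at h2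
    exact hcancel _ _ (hD0 i k hik) h2.symm
  have h2 : ∀ m, dl (L m) (dl (L i) (c j)) = 0 → dl (L m) (dl (L i) (c l)) = 0 := by
    intro m hm
    have h3 := congrArg (fun p => dl (L m) (dl (L i) p)) (hrel i j l)
    simp only [map_add, hCz, hk', mul_zero, zero_add] at h3
    rw [hm, mul_zero] at h3
    exact hcancel _ _ (hD0 i j hij) h3
  have h4 : dl (L i) (c l) = 0 := kill3 (hL.ind hjk hjl hkl) (dl_homog (L i) (hch l)) two_ne_zero
    (h2 j (by rw [dl_comm, hk', map_zero])) (h2 k h1) (by rw [dl_comm, hk', map_zero])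
  exact hne l i (Ne.symm hil) h4

lemma perm_exists : ∀ i j : Fin 3, i ≠ j → ∃ σ : Equiv.Perm (Fin 3), σ 0 = i ∧ σ 1 = j := by
  decide

/-- The socle degree statement. -/
def Soc : Prop := ∀ (G : Fin 3 → MvPolynomial (Fin 3) ℂ) (e : Fin 3 → ℕ) (_ : ∀ i, 1 ≤ e i)
  (_ : ∀ i, (G i).IsHomogeneous (e i)) (F : MvPolynomial (Fin 3) ℂ) (d : ℕ)
  (_ : F.IsHomogeneous d) (_ : F ≠ 0) (_ : annI F = Ideal.span (Set.range G)),
  d + 3 ≤ e 0 + e 1 + e 2

lemma arr_ne (hL : Pos L) (hd : 4 ≤ d) : arr L ≠ 0 := by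
  unfold arr
  rw [Finset.prod_ne_zero_iff]
  intro i _ h
  obtain ⟨j, k, _, hj, hk, _, hjk, _, _⟩ := three_others hd i
  have h1 := (hL.ind (Ne.symm hj) (Ne.symm hk) hjk).ne_zero 0
  apply h1
  funext s
  have h2 : lin (L i) = 0 := h
  have h6 := congrArg (coeff (Finsupp.single s 1)) h2
  unfold lin at h6
  rw [coeff_sum, Finset.sum_eq_single s, coeff_C_mul, coeff_X, if_pos rfl, mul_one,
    coeff_zero] at h6
  · exact h6
  · intro b _ hb
    rw [coeff_C_mul, coeff_X, if_neg, mul_zero]
    intro hc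
    exact hb (Finsupp.single_left_injective one_ne_zero hc)
  · intro hs
    exact absurd (Finset.mem_univ _) hs

lemma gens (hsoc : Soc) (hL : Pos L) (hd : 4 ≤ d) (G : Fin 3 → MvPolynomial (Fin 3) ℂ)
    (hGh : ∀ i, ∃ e, (G i).IsHomogeneous e) (hGI : Ideal.span (Set.range G) = annI (arr L)) :
    ∃ e : Fin 3 → ℕ, (∀ i, 3 ≤ e i ∧ (G i).IsHomogeneous (e i) ∧ G i ≠ 0) ∧
      e 0 + e 1 + e 2 = d + 3 := by
  classical
  have hF := arr_homog L
  have hex : ∀ i, ∃ e, 3 ≤ e ∧ (G i).IsHomogeneous e ∧ (G i = 0 → e = d + 4) := by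
    intro i
    by_cases h0 : G i = 0
    · exact ⟨d + 4, by omega, by rw [h0]; exact isHomogeneous_zero _ _ _, fun _ => rfl⟩
    · obtain ⟨e, he⟩ := hGh i
      refine ⟨e, ?_, he, fun h => absurd h h0⟩
      by_contra hc
      apply h0
      refine no_low hL hd ?_ he (by omega)
      rw [← hGI]
      exact Ideal.subset_span ⟨i, rfl⟩
  choose e he3 heh he0 using hex
  have hb := degree_bound (annI (arr L)) d (fun p j hj hpj => annI_large hF hpj hj) G hGI e
    (fun i => by have := he3 i; omega) heh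
  have hs := hsoc G e (fun i => by have := he3 i; omega) heh (arr L) d hF (arr_ne hL hd) hGI.symm
  refine ⟨e, fun i => ⟨he3 i, heh i, fun h => ?_⟩, by omega⟩
  have h1 := he0 i h
  have h2 := he3 0
  have h3 := he3 1
  have h4 := he3 2
  fin_cases i
  · change e 0 = d + 4 at h1
    omega
  · change e 1 = d + 4 at h1
    omega
  · change e 2 = d + 4 at h1
    omega

/-- No generator is redundant. -/
lemma not_redundant (hsoc : Soc) (hL : Pos L) (hd : 4 ≤ d) (G : Fin 3 → MvPolynomial (Fin 3) ℂ)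
    (hGh : ∀ i, ∃ e, (G i).IsHomogeneous e) (hGI : Ideal.span (Set.range G) = annI (arr L))
    {i j : Fin 3} (hij : i ≠ j) {z : MvPolynomial (Fin 3) ℂ} (h : G i = z * G j) : False := by
  classical
  set G' : Fin 3 → MvPolynomial (Fin 3) ℂ := Function.update G i 0 with hG'
  have hG'h : ∀ j, ∃ e, (G' j).IsHomogeneous e := by
    intro j
    by_cases hji : j = i
    · refine ⟨0, ?_⟩
      rw [hG', hji, Function.update_self]
      exact isHomogeneous_zero _ _ _
    · rw [hG', Function.update_of_ne hji]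
      exact hGh j
  have hother : ∀ j, j ≠ i → G j ∈ Ideal.span (Set.range G') := by
    intro j hji
    have : G j = G' j := by rw [hG', Function.update_of_ne hji]
    rw [this]
    exact Ideal.subset_span ⟨j, rfl⟩
  have hG'I : Ideal.span (Set.range G') = annI (arr L) := by
    rw [← hGI]
    apply le_antisymm
    · rw [Ideal.span_le]
      rintro _ ⟨j, rfl⟩
      by_cases hji : j = i
      · rw [hG', hji, Function.update_self]
        exact Ideal.zero_mem _
      · rw [hG', Function.update_of_ne hji]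
        exact Ideal.subset_span ⟨j, rfl⟩
    · rw [Ideal.span_le]
      rintro _ ⟨k, rfl⟩
      by_cases hki : k = i
      · rw [hki, SetLike.mem_coe, h]
        exact Ideal.mul_mem_left _ _ (hother j (Ne.symm hij))
      · exact hother k hki
  obtain ⟨e, he, _⟩ := gens hsoc hL hd G' hG'h hG'I
  apply (he i).2.2
  rw [hG', Function.update_self]

/-- The pencil of the two cubic generators. -/
lemma pen_of_gens (hsoc : Soc) (hL : Pos L) (hd : 8 ≤ d) (G : Fin 3 → MvPolynomial (Fin 3) ℂ)
    (hGI : Ideal.span (Set.range G) = annI (arr L)) (h0 : (G 0).IsHomogeneous 3)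
    (h1 : (G 1).IsHomogeneous 3) {n : ℕ} (h2 : (G 2).IsHomogeneous n) (hn : 5 ≤ n) :
    Pen L (G 0) (G 1) := by
  have hF := arr_homog L
  have hmem : ∀ i, G i ∈ annI (arr L) := by
    intro i
    rw [← hGI]
    exact Ideal.subset_span ⟨i, rfl⟩
  have hGh : ∀ i, ∃ e, (G i).IsHomogeneous e := by
    intro i
    fin_cases i
    · exact ⟨3, h0⟩
    · exact ⟨3, h1⟩
    · exact ⟨n, h2⟩
  have he : ∀ i, (G i).IsHomogeneous ((![3, 3, n] : Fin 3 → ℕ) i) := by
    intro i
    fin_cases i
    · exact h0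
    · exact h1
    · exact h2
  refine ⟨hmem 0, hmem 1, h0, h1, ?_, ?_, ?_⟩
  · intro x y h
    have hCC : ∀ z : ℂ, z ≠ 0 → (C z⁻¹ : MvPolynomial (Fin 3) ℂ) * C z = 1 := by
      intro z hz
      rw [← C_mul, inv_mul_cancel₀ hz, C_1]
    constructor
    · by_contra hx
      refine not_redundant hsoc hL (by omega) G hGh hGI (i := 0) (j := 1) (by decide)
        (z := -(C x⁻¹ * C y)) ?_
      linear_combination C x⁻¹ * h - G 0 * hCC x hx
    · by_contra hy
      refine not_redundant hsoc hL (by omega) G hGh hGI (i := 1) (j := 0) (by decide)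
        (z := -(C y⁻¹ * C x)) ?_
      linear_combination C y⁻¹ * h - G 1 * hCC y hy
  · intro p hp hp4
    rw [← hGI] at hp
    obtain ⟨c, hc, hc0, hpc⟩ := comp_eq he hp hp4
    refine ⟨c 0, c 1, hc 0, hc 1, ?_⟩
    have h3 : c 2 = 0 := hc0 2 (by change 4 < n; omega)
    rw [hpc, Fin.sum_univ_three, h3, zero_mul, add_zero]
  · intro q M M' hq hM hM'
    refine koszul ![q, G 2, 0] ![2, n, d] ?_ ?_ ?_
    · intro i
      fin_cases i
      · change 1 ≤ 2
        norm_num
      · change 1 ≤ n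
        omega
      · change 1 ≤ d
        omega
    · intro i
      fin_cases i
      · exact hq
      · exact h2
      · exact isHomogeneous_zero _ _ _
    · intro p hp
      have h3 : p ∈ annI (arr L) := by
        refine annI_large hF hp ?_
        rw [Fin.sum_univ_three]
        change d < (2 - 1) + (n - 1) + (d - 1)
        omega
      rw [← hGI] at h3
      have hle : Ideal.span (Set.range G) ≤
          Ideal.span (Set.range ![q, G 2, (0 : MvPolynomial (Fin 3) ℂ)]) := by
        rw [Ideal.span_le]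
        rintro _ ⟨i, rfl⟩
        have hq' : q ∈ Ideal.span (Set.range ![q, G 2, (0 : MvPolynomial (Fin 3) ℂ)]) :=
          Ideal.subset_span ⟨0, rfl⟩
        fin_cases i
        · change G 0 ∈ _
          rw [hM]
          exact Ideal.mul_mem_left _ _ hq'
        · change G 1 ∈ _
          rw [hM']
          exact Ideal.mul_mem_left _ _ hq'
        · exact Ideal.subset_span ⟨1, rfl⟩
      exact hle h3

theorem two_cubics (hsoc : Soc) (hL : Pos L) (hd : 8 ≤ d) (g : Fin 3 → MvPolynomial (Fin 3) ℂ)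
    (hg : annI (arr L) = Ideal.span (Set.range g)) {p q : MvPolynomial (Fin 3) ℂ}
    (hp : p ∈ annI (arr L)) (hq : q ∈ annI (arr L)) (hp3 : p.IsHomogeneous 3)
    (hq3 : q.IsHomogeneous 3) : ¬ LinearIndependent ℂ ![p, q] := by
  intro hli
  have hF := arr_homog L
  obtain ⟨G, hGh, hGI⟩ := three_gens (annI (arr L)) (fun p hp j => annI_component hF hp j) g hg
  obtain ⟨e, he, hsum⟩ := gens hsoc hL (by omega) G hGh hGI
  have hGe : ∀ i, (G i).IsHomogeneous (e i) := fun i => (he i).2.1
  -- two generators of degree three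
  have hex : ∃ i j, i ≠ j ∧ e i = 3 ∧ e j = 3 := by
    by_contra hcon
    push Not at hcon
    obtain ⟨i0, hi0⟩ : ∃ i0, ∀ i, i ≠ i0 → 3 < e i := by
      by_cases h3 : ∃ i0, e i0 = 3
      · obtain ⟨i0, hi0⟩ := h3
        refine ⟨i0, fun i hi => ?_⟩
        have h4 := hcon i0 i (Ne.symm hi) hi0
        have h5 := (he i).1
        omega
      · push Not at h3
        refine ⟨0, fun i _ => ?_⟩
        have h4 := h3 i
        have h5 := (he i).1
        omega
    have key : ∀ r ∈ annI (arr L), r.IsHomogeneous 3 → ∃ a : ℂ, r = a • G i0 := by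
      intro r hr hr3
      rw [← hGI] at hr
      obtain ⟨c, hc, hc0, hrc⟩ := comp_eq hGe hr hr3
      have h4 := hc i0
      have h5 := (he i0).1
      rw [show 3 - e i0 = 0 by omega] at h4
      obtain ⟨a, ha⟩ := homog_zero h4
      refine ⟨a, ?_⟩
      rw [hrc, Finset.sum_eq_single i0, ha, smul_eq_C_mul]
      · intro i _ hi
        rw [hc0 i (hi0 i hi), zero_mul]
      · intro h
        exact absurd (Finset.mem_univ _) h
    obtain ⟨a, ha⟩ := key p hp hp3
    obtain ⟨b, hb⟩ := key q hq hq3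
    rw [LinearIndependent.pair_iff] at hli
    have hz : b • p + (-a) • q = 0 := by
      rw [ha, hb, smul_smul, smul_smul, ← add_smul]
      have : b * a + -a * b = 0 := by ring
      rw [this, zero_smul]
    obtain ⟨h6, h7⟩ := hli b (-a) hz
    rw [neg_eq_zero] at h7
    rw [h7, zero_smul] at ha
    rw [h6, zero_smul] at hb
    have := hli 1 1 (by rw [ha, hb]; simp)
    exact one_ne_zero this.1
  obtain ⟨i, j, hij, hi3, hj3⟩ := hex
  obtain ⟨σ, hσ0, hσ1⟩ := perm_exists i j hij
  have hrange : Set.range (fun k => G (σ k)) = Set.range G := by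
    ext x
    constructor
    · rintro ⟨k, rfl⟩
      exact ⟨σ k, rfl⟩
    · rintro ⟨k, rfl⟩
      exact ⟨σ.symm k, by simp⟩
  have hsum' : e (σ 0) + e (σ 1) + e (σ 2) = d + 3 := by
    rw [← hsum, ← Fin.sum_univ_three (fun k => e (σ k)), ← Fin.sum_univ_three e]
    exact Equiv.sum_comp σ e
  have hP : Pen L (G (σ 0)) (G (σ 1)) := by
    refine pen_of_gens hsoc hL hd (fun k => G (σ k)) (by rw [hrange]; exact hGI) ?_ ?_
      (hGe (σ 2)) ?_
    · have h8 := hGe (σ 0)
      rw [show e (σ 0) = 3 by rw [hσ0, hi3]] at h8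
      exact h8
    · have h8 := hGe (σ 1)
      rw [show e (σ 1) = 3 by rw [hσ1, hj3]] at h8
      exact h8
    · rw [hσ0, hσ1, hi3, hj3] at hsum'
      omega
  exact no_four hL hd hP (cone_all hL hd (fun M j hM hj => star_leaf hM hd hj) hP)

end Pool.Agent.Helper73.Six
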